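import Mathlib
import Pool.Agent.W603.LV.Hgt

/-!
Connections of rank one on function fields, and differential operators which annihilate
finitely many functions.
-/

set_option autoImplicit false

namespace Pool.Agent.N131.FV

open FF Pool.Agent.W603.LV

section basic

variable {k L : Type} [Field k] [Field L] [Algebra k L]

/-- the connection `D + κ` -/
noncomputable def nab (D : Derivation k L L) (κ : L) (f : L) : L := D f + κ * f

theorem nab_add (D : Derivation k L L) (κ f g : L) : nab D κ (f + g) = nab D κ f + nab D κ g := by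
  unfold nab
  rw [map_add]
  ring

theorem nab_zero (D : Derivation k L L) (κ : L) : nab D κ 0 = 0 := by
  unfold nab
  rw [map_zero, mul_zero, add_zero]

theorem nab_mul (D : Derivation k L L) (κ a f : L) :
    nab D κ (a * f) = a * nab D κ f + D a * f := by
  unfold nab
  rw [D.leibniz, smul_eq_mul, smul_eq_mul]
  ring

theorem nab_const (D : Derivation k L L) (κ : L) (c : k) (f : L) :
    nab D κ (algebraMap k L c * f) = algebraMap k L c * nab D κ f := by
  rw [nab_mul, D.map_algebraMap, zero_mul, add_zero]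

theorem nab_sum (D : Derivation k L L) (κ : L) {ι : Type} (s : Finset ι) (f : ι → L) :
    nab D κ (∑ i ∈ s, f i) = ∑ i ∈ s, nab D κ (f i) := by
  classical
  induction s using Finset.induction_on with
  | empty => simpa using nab_zero D κ
  | insert a s ha ih => rw [Finset.sum_insert ha, Finset.sum_insert ha, nab_add, ih]

theorem iter_zero (D : Derivation k L L) (κ : L) (r : ℕ) : (nab D κ)^[r] 0 = 0 := by
  induction r with
  | zero => rfl
  | succ r ih => rw [Function.iterate_succ_apply', ih, nab_zero]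

theorem iter_comb (D : Derivation k L L) (κ : L) (r : ℕ) {ι : Type} (s : Finset ι) (c : ι → k)
    (f : ι → L) : (nab D κ)^[r] (∑ i ∈ s, algebraMap k L (c i) * f i) =
      ∑ i ∈ s, algebraMap k L (c i) * (nab D κ)^[r] (f i) := by
  induction r with
  | zero => rfl
  | succ r ih =>
    rw [Function.iterate_succ_apply', ih, nab_sum]
    refine Finset.sum_congr rfl fun i _ => ?_
    rw [nab_const, Function.iterate_succ_apply']

/-- change of gauge -/
theorem iter_gauge (D : Derivation k L L) (lam : L) {u : L} (hu : u ≠ 0) (f : L) (r : ℕ) :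
    (nab D lam)^[r] (u * f) = u * (nab D (lam + D u / u))^[r] f := by
  induction r with
  | zero => rfl
  | succ r ih =>
    rw [Function.iterate_succ_apply', ih, Function.iterate_succ_apply', nab_mul]
    unfold nab
    field_simp
    ring

end basic

variable {k L : Type} [Field k] [Field L] [Algebra k L] [CharZero k] [IsFF k L] [IsAlgClosed k]

/-- the order of a derivative -/
theorem ge_der (P : Place k L) {D : Derivation k L L} (hD : D ≠ 0) {s m : ℤ}
    (hs : 1 - vo P D ≤ s) {f : L} (hf : Ge P m f) : Ge P (m - s) (D f) := by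
  by_cases h0 : f = 0
  · rw [h0, map_zero]
    exact Ge.zero
  have h1 := hf.resolve_left h0
  by_cases h2 : P.ord f = 0
  · obtain ⟨g, hg, e⟩ := der_mul P (ord_unif P) hD (f := f) (Or.inr h2.ge)
    rw [e]
    have h3 : Ge P (vo P D) (D (unif P)) := Or.inr le_rfl
    refine (h3.mul hg).mono ?_
    omega
  · obtain ⟨h3, h4⟩ := ord_der P hD h2
    right
    omega

/-- logarithmic derivatives -/
theorem ge_ld (P : Place k L) {D : Derivation k L L} (hD : D ≠ 0) {s : ℤ}
    (hs : 1 - vo P D ≤ s) {u : L} (hu : u ≠ 0) : Ge P (-s) (D u / u) := by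
  have h1 := ge_der P hD hs (f := u) (m := P.ord u) (Or.inr le_rfl)
  have h2 : Ge P (-P.ord u) u⁻¹ := Or.inr (by rw [P.ord_inv])
  have h3 := h1.mul h2
  rw [← div_eq_mul_inv] at h3
  exact h3.mono (by omega)

/-- derivatives of regular functions at places at which the derivation is regular -/
theorem reg_der (P : Place k L) {D : Derivation k L L} (hD : D ≠ 0) (hv : 0 ≤ vo P D) {f : L}
    (hf : Ge P 0 f) : Ge P 0 (D f) := by
  obtain ⟨g, hg, e⟩ := der_mul P (ord_unif P) hD hf
  rw [e]
  have h3 : Ge P (vo P D) (D (unif P)) := Or.inr le_rfl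
  exact (h3.mul hg).mono (by omega)

/-- **Operators.** -/
theorem exists_op {D : Derivation k L L} (hD : D ≠ 0) (κ : L) (n : ℕ) : ∀ g : Fin n → L,
    ∃ c : ℕ → L, c n = 1 ∧ (∀ i, n < i → c i = 0) ∧
      (∀ l, ∑ i ∈ Finset.range (n + 1), c i * (nab D κ)^[i] (g l) = 0) ∧
      ∀ (P : Place k L) (s : ℤ), 1 - vo P D ≤ s → 0 ≤ s → Ge P (-s) κ →
        ∀ i : ℕ, Ge P (-(((n : ℤ) - i) * s)) (c i) := by
  induction n with
  | zero =>
    intro g
    refine ⟨fun i => if i = 0 then 1 else 0, by simp, fun i hi => by simp; omega,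
      fun l => l.elim0, fun P s _ _ _ i => ?_⟩
    change Ge P _ (if i = 0 then (1 : L) else 0)
    by_cases hi : i = 0
    · rw [if_pos hi, hi]
      simpa using Ge.one (P := P)
    · rw [if_neg hi]
      exact Ge.zero
  | succ n ih =>
    intro g
    obtain ⟨c, hc1, hc0, hc, hcP⟩ := ih fun l => g l.castSucc
    set u : L := ∑ i ∈ Finset.range (n + 1), c i * (nab D κ)^[i] (g (Fin.last n))
    -- the logarithmic derivative
    obtain ⟨h, hh1, hh2⟩ : ∃ h : L, nab D κ u = h * u ∧ ∀ (P : Place k L) (s : ℤ),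
        1 - vo P D ≤ s → 0 ≤ s → Ge P (-s) κ → Ge P (-s) h := by
      by_cases hu0 : u = 0
      · exact ⟨0, by rw [hu0, nab_zero, mul_zero], fun P s _ _ _ => Ge.zero⟩
      · refine ⟨D u / u + κ, ?_, fun P s hs _ hκ => (ge_ld P hD hs hu0).add hκ⟩
        unfold nab
        rw [add_mul, div_mul_cancel₀ _ hu0]
    let c' : ℕ → L := fun i => (if i = 0 then 0 else c (i - 1)) + D (c i) - h * c i
    have key : ∀ f : L, ∑ i ∈ Finset.range (n + 2), c' i * (nab D κ)^[i] f =
        nab D κ (∑ i ∈ Finset.range (n + 1), c i * (nab D κ)^[i] f) -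
          h * ∑ i ∈ Finset.range (n + 1), c i * (nab D κ)^[i] f := by
      intro f
      have e1 : ∑ i ∈ Finset.range (n + 2), c' i * (nab D κ)^[i] f =
          ∑ i ∈ Finset.range (n + 2), (if i = 0 then 0 else c (i - 1)) * (nab D κ)^[i] f +
          ∑ i ∈ Finset.range (n + 2), (D (c i) - h * c i) * (nab D κ)^[i] f := by
        rw [← Finset.sum_add_distrib]
        refine Finset.sum_congr rfl fun i _ => ?_
        simp only [c']
        ring
      have e2 : ∑ i ∈ Finset.range (n + 2), (if i = 0 then 0 else c (i - 1)) * (nab D κ)^[i] f =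
          ∑ i ∈ Finset.range (n + 1), c i * nab D κ ((nab D κ)^[i] f) := by
        rw [Finset.sum_range_succ']
        simp only [if_true, zero_mul, add_zero]
        refine Finset.sum_congr rfl fun i _ => ?_
        rw [if_neg (by omega), Nat.add_sub_cancel, Function.iterate_succ_apply']
      have e3 : ∑ i ∈ Finset.range (n + 2), (D (c i) - h * c i) * (nab D κ)^[i] f =
          ∑ i ∈ Finset.range (n + 1), (D (c i) - h * c i) * (nab D κ)^[i] f := by
        rw [Finset.sum_range_succ, hc0 (n + 1) (by omega), map_zero, mul_zero, sub_zero, zero_mul,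
          add_zero]
      rw [e1, e2, e3, nab_sum, Finset.mul_sum, ← Finset.sum_add_distrib, ← Finset.sum_sub_distrib]
      refine Finset.sum_congr rfl fun i _ => ?_
      rw [nab_mul]
      ring
    refine ⟨c', ?_, fun i hi => ?_, fun l => ?_, fun P s hs hs0 hκ i => ?_⟩
    · simp only [c']
      rw [if_neg (by omega), Nat.add_sub_cancel, hc1, hc0 (n + 1) (by omega), map_zero]
      ring
    · simp only [c']
      rw [if_neg (by omega), hc0 (i - 1) (by omega), hc0 i (by omega), map_zero]
      ring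
    · rw [key]
      refine Fin.lastCases ?_ (fun l => ?_) l
      · change nab D κ u - h * u = 0
        rw [hh1, sub_self]
      · rw [hc l, nab_zero, mul_zero, sub_zero]
    · simp only [c']
      have h1 := hcP P s hs hs0 hκ
      refine Ge.sub (Ge.add ?_ ?_) ?_
      · by_cases hi : i = 0
        · rw [if_pos hi]
          exact Ge.zero
        · rw [if_neg hi]
          refine (h1 (i - 1)).mono (le_of_eq ?_)
          have : ((i - 1 : ℕ) : ℤ) = (i : ℤ) - 1 := by omega
          rw [this]
          push_cast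
          ring
      · refine (ge_der P hD hs (h1 i)).mono (le_of_eq ?_)
        push_cast
        ring
      · refine ((hh2 P s hs hs0 hκ).mul (h1 i)).mono (le_of_eq ?_)
        push_cast
        ring

/-! ### Determinants of matrices of regular functions -/

omit [CharZero k] [IsFF k L] [IsAlgClosed k] in
theorem exists_O (P : Place k L) {n : ℕ} {M : Matrix (Fin n) (Fin n) L}
    (hM : ∀ i l, Ge P 0 (M i l)) : ∃ M' : Matrix (Fin n) (Fin n) P.O, M'.map P.O.subtype = M :=
  ⟨Matrix.of fun i l => ⟨M i l, hM i l⟩, by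
    ext i l
    rfl⟩

omit [CharZero k] [IsFF k L] [IsAlgClosed k] in
theorem reg_det (P : Place k L) {n : ℕ} {M : Matrix (Fin n) (Fin n) L}
    (hM : ∀ i l, Ge P 0 (M i l)) : Ge P 0 M.det := by
  obtain ⟨M', rfl⟩ := exists_O P hM
  have h1 : (M'.map P.O.subtype).det = P.O.subtype M'.det := (RingHom.map_det _ _).symm
  rw [h1]
  exact M'.det.2

omit [CharZero k] [IsFF k L] [IsAlgClosed k] in
theorem ge_one_iff (P : Place k L) (x : P.O) : Ge P 1 (x : L) ↔ P.resHom x = 0 := by
  have h1 : P.red (x : L) = P.resHom x := P.red_of_reg x.2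
  rw [← h1, P.red_eq_zero_iff x.2]
  rfl

/-- determinants with order zero -/
theorem unit_det (P : Place k L) {n : ℕ} {M : Matrix (Fin n) (Fin n) L}
    (hM : ∀ i l, Ge P 0 (M i l))
    (h : ∀ c : Fin n → k, c ≠ 0 → ∃ i, ¬ Ge P 1 (∑ l, algebraMap k L (c l) * M i l)) :
    ¬ Ge P 1 M.det := by
  obtain ⟨M', rfl⟩ := exists_O P hM
  have h1 : (M'.map P.O.subtype).det = P.O.subtype M'.det := (RingHom.map_det _ _).symm
  rw [h1]
  change ¬ Ge P 1 ((M'.det : P.O) : L)
  rw [ge_one_iff, RingHom.map_det]
  intro h2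
  obtain ⟨v, hv0, hv⟩ := Matrix.exists_mulVec_eq_zero_iff.2 h2
  have hs : Function.Surjective (algebraMap k P.RF) :=
    (IsAlgClosed.algebraMap_bijective_of_isIntegral (k := k) (K := P.RF)).2
  choose c hc using fun l => hs (v l)
  have hc0 : c ≠ 0 := by
    rintro rfl
    apply hv0
    funext l
    rw [← hc l]
    exact map_zero _
  obtain ⟨i, hi⟩ := h c hc0
  apply hi
  have h3 := congrFun hv i
  have h4 : (∑ l, algebraMap k L (c l) * (M'.map P.O.subtype) i l) =
      ((∑ l, (⟨algebraMap k L (c l), P.reg_const (c l)⟩ : P.O) * M' i l : P.O) : L) := by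
    have := map_sum P.O.subtype
      (fun l => (⟨algebraMap k L (c l), P.reg_const (c l)⟩ : P.O) * M' i l) Finset.univ
    exact this.symm
  rw [h4, ge_one_iff, map_sum]
  refine Eq.trans ?_ h3
  change _ = ∑ l : Fin n, P.resHom (M' i l) * v l
  refine Finset.sum_congr rfl fun l _ => ?_
  rw [map_mul, mul_comm]
  congr 1
  rw [← hc l, P.algebraMap_RF, P.red_of_reg (P.reg_const (c l))]

omit [CharZero k] [IsFF k L] [IsAlgClosed k] in
/-- determinants with positive order -/
theorem nonunit_det (P : Place k L) {n : ℕ} {M : Matrix (Fin n) (Fin n) L}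
    (hM : ∀ i l, Ge P 0 (M i l)) {c : Fin n → k} (hc0 : c ≠ 0)
    (h : ∀ i, Ge P 1 (∑ l, algebraMap k L (c l) * M i l)) : Ge P 1 M.det := by
  obtain ⟨M', rfl⟩ := exists_O P hM
  have h1 : (M'.map P.O.subtype).det = P.O.subtype M'.det := (RingHom.map_det _ _).symm
  rw [h1]
  change Ge P 1 ((M'.det : P.O) : L)
  rw [ge_one_iff, RingHom.map_det]
  apply Matrix.exists_mulVec_eq_zero_iff.1
  refine ⟨fun l => algebraMap k P.RF (c l), ?_, ?_⟩
  · intro h0
    apply hc0
    funext l
    have := congrFun h0 l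
    exact (map_eq_zero _).1 this
  · funext i
    have h4 : (∑ l, algebraMap k L (c l) * (M'.map P.O.subtype) i l) =
        ((∑ l, (⟨algebraMap k L (c l), P.reg_const (c l)⟩ : P.O) * M' i l : P.O) : L) := by
      have := map_sum P.O.subtype
        (fun l => (⟨algebraMap k L (c l), P.reg_const (c l)⟩ : P.O) * M' i l) Finset.univ
      exact this.symm
    have h5 := h i
    rw [h4, ge_one_iff, map_sum] at h5
    change ∑ l : Fin n, P.resHom (M' i l) * algebraMap k P.RF (c l) = (0 : P.RF)
    rw [← h5]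
    refine Finset.sum_congr rfl fun l _ => ?_
    rw [map_mul, mul_comm]
    congr 1
    rw [P.algebraMap_RF, P.red_of_reg (P.reg_const (c l))]

omit [CharZero k] [IsFF k L] [IsAlgClosed k] in
/-- Cramer's rule over the local ring -/
theorem reg_of_vecMul (P : Place k L) {n : ℕ} {M : Matrix (Fin n) (Fin n) L}
    (hM : ∀ i l, Ge P 0 (M i l)) (hdet : ¬ Ge P 1 M.det) {b : Fin n → L}
    (hb : ∀ l, Ge P 0 (∑ i, b i * M i l)) (i : Fin n) : Ge P 0 (b i) := by
  obtain ⟨M', rfl⟩ := exists_O P hM
  have h1 : (M'.map P.O.subtype).det = P.O.subtype M'.det := (RingHom.map_det _ _).symm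
  rw [h1] at hdet
  change ¬ Ge P 1 ((M'.det : P.O) : L) at hdet
  rw [ge_one_iff] at hdet
  have hu : IsUnit M'.det := by
    by_contra hcon
    exact hdet ((IsLocalRing.residue_eq_zero_iff _).2 hcon)
  have h2 : M' * M'⁻¹ = 1 := Matrix.mul_nonsing_inv _ hu
  have h3 : M'.map P.O.subtype * (M'⁻¹).map P.O.subtype = 1 := by
    rw [← Matrix.map_mul, h2]
    exact Matrix.map_one _ (map_zero _) (map_one _)
  have h4 : b = Matrix.vecMul (Matrix.vecMul b (M'.map P.O.subtype)) ((M'⁻¹).map P.O.subtype) := by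
    rw [Matrix.vecMul_vecMul, h3, Matrix.vecMul_one]
  rw [h4]
  change Ge P 0 (∑ l : Fin n, (∑ j : Fin n, b j * (M'.map P.O.subtype) j l) *
    ((M'⁻¹).map P.O.subtype) l i)
  refine Ge.sum _ _ fun l _ => ?_
  have h5 := (hb l).mul ((M'⁻¹ l i).2 : Ge P 0 ((M'⁻¹ l i : P.O) : L))
  exact h5.mono (by norm_num)

end Pool.Agent.N131.FV
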