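import Mathlib
import Pool.Agent.N131.FV.Nab

/-!
Places at which the functions of a linear system have no large order.
-/

set_option autoImplicit false

namespace Pool.Agent.N131.FV

open FF Pool.Agent.W603.LV

variable {k L : Type} [Field k] [Field L] [Algebra k L] [CharZero k] [IsFF k L] [IsAlgClosed k]

theorem reg_nab (P : Place k L) {D : Derivation k L L} (hD : D ≠ 0) (hv : vo P D = 0) {κ : L}
    (hκ : Ge P 0 κ) {f : L} (hf : Ge P 0 f) : Ge P 0 (nab D κ f) :=
  (reg_der P hD hv.ge hf).add ((hκ.mul hf).mono (by norm_num))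

theorem ge_nab (P : Place k L) {D : Derivation k L L} (hD : D ≠ 0) (hv : vo P D = 0) {κ : L}
    (hκ : Ge P 0 κ) {a : ℕ} {f : L} (hf : Ge P (a : ℤ) f) :
    Ge P ((a - 1 : ℕ) : ℤ) (nab D κ f) := by
  cases a with
  | zero => simpa using reg_nab P hD hv hκ hf
  | succ b =>
    have h1 := ge_der P hD (s := 1) (by omega) hf
    have h2 := hκ.mul hf
    refine (h1.mono ?_).add (h2.mono ?_) <;> push_cast <;> omega

theorem ge_iter_nab (P : Place k L) {D : Derivation k L L} (hD : D ≠ 0) (hv : vo P D = 0) {κ : L}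
    (hκ : Ge P 0 κ) {a : ℕ} {f : L} (hf : Ge P (a : ℤ) f) (r : ℕ) :
    Ge P ((a - r : ℕ) : ℤ) ((nab D κ)^[r] f) := by
  induction r with
  | zero => simpa using hf
  | succ r ih =>
    rw [Function.iterate_succ_apply']
    have := ge_nab P hD hv hκ ih
    rwa [Nat.sub_sub] at this

theorem ord_iter (P : Place k L) {D : Derivation k L L} (hD : D ≠ 0) (hv : vo P D = 0) {κ : L}
    (hκ : Ge P 0 κ) (r : ℕ) : ∀ {f : L}, f ≠ 0 → P.ord f = r →
      (nab D κ)^[r] f ≠ 0 ∧ P.ord ((nab D κ)^[r] f) = 0 := by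
  induction r with
  | zero =>
    intro f hf h
    exact ⟨hf, h⟩
  | succ r ih =>
    intro f hf h
    rw [Function.iterate_succ_apply]
    have h0 : P.ord f ≠ 0 := by
      rw [h]
      push_cast
      omega
    obtain ⟨h1, h2⟩ := ord_der P hD h0
    have h3 : P.ord (D f) = r := by
      rw [h2, h, hv]
      push_cast
      ring
    have h4 : nab D κ f ≠ 0 ∧ P.ord (nab D κ f) = r := by
      by_cases hκ0 : κ * f = 0
      · unfold nab
        rw [hκ0, add_zero]
        exact ⟨h1, h3⟩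
      · have h5 : (r : ℤ) < P.ord (κ * f) := by
          have h6 := (hκ.mul (Or.inr le_rfl : Ge P (P.ord f) f)).resolve_left hκ0
          rw [h] at h6
          push_cast at h6
          omega
        have h7 := P.ord_add_eq h1 hκ0 (by rw [h3]; exact h5)
        unfold nab
        exact ⟨h7.1, h7.2.trans h3⟩
    exact ih h4.1 h4.2

/-- the generalised Wronskian matrix -/
noncomputable def nm {n : ℕ} (D : Derivation k L L) (κ : L) (f : Fin n → L) :
    Matrix (Fin n) (Fin n) L := Matrix.of fun i l => (nab D κ)^[(i : ℕ)] (f l)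

theorem reg_nm (P : Place k L) {D : Derivation k L L} (hD : D ≠ 0) (hv : vo P D = 0) {κ : L}
    (hκ : Ge P 0 κ) {n : ℕ} {f : Fin n → L} (hf : ∀ l, Ge P 0 (f l)) (i l : Fin n) :
    Ge P 0 (nm D κ f i l) := by
  have h1 : Ge P (((0 : ℕ) : ℤ)) (f l) := by simpa using hf l
  have h2 := ge_iter_nab P hD hv hκ h1 i
  change Ge P 0 ((nab D κ)^[(i : ℕ)] (f l))
  simpa using h2

theorem unit_nm (P : Place k L) {D : Derivation k L L} (hD : D ≠ 0) (hv : vo P D = 0) {κ : L}
    (hκ : Ge P 0 κ) {n : ℕ} {f : Fin n → L} (hf : ∀ l, Ge P 0 (f l))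
    (h : ∀ c : Fin n → k, c ≠ 0 → ¬ Ge P n (∑ l, algebraMap k L (c l) * f l)) :
    ¬ Ge P 1 (nm D κ f).det := by
  apply unit_det P (reg_nm P hD hv hκ hf)
  intro c hc
  set F : L := ∑ l, algebraMap k L (c l) * f l with hF
  have h1 := h c hc
  have hF0 : F ≠ 0 := fun h0 => h1 (Or.inl h0)
  have hFr : Ge P 0 F := Ge.sum _ _ fun l _ => (Ge.const (c l)).mul (hf l) |>.mono (by norm_num)
  have h2 := hFr.resolve_left hF0
  have h3 : P.ord F < n := by
    by_contra hcon
    exact h1 (Or.inr (not_lt.1 hcon))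
  obtain ⟨r, hr⟩ : ∃ r : ℕ, P.ord F = r := ⟨(P.ord F).toNat, by omega⟩
  have hrn : r < n := by omega
  refine ⟨⟨r, hrn⟩, ?_⟩
  have h4 : ∑ l, algebraMap k L (c l) * nm D κ f ⟨r, hrn⟩ l = (nab D κ)^[r] F := by
    rw [hF, iter_comb]
    rfl
  rw [h4]
  obtain ⟨h5, h6⟩ := ord_iter P hD hv hκ r hF0 hr
  rintro (h7 | h7)
  · exact h5 h7
  · rw [h6] at h7
    omega

theorem nonunit_nm (P : Place k L) {D : Derivation k L L} (hD : D ≠ 0) (hv : vo P D = 0) {κ : L}
    (hκ : Ge P 0 κ) {n : ℕ} {f : Fin n → L} (hf : ∀ l, Ge P 0 (f l)) {c : Fin n → k} (hc : c ≠ 0)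
    (h : Ge P n (∑ l, algebraMap k L (c l) * f l)) : Ge P 1 (nm D κ f).det := by
  apply nonunit_det P (reg_nm P hD hv hκ hf) hc
  intro i
  have h4 : ∑ l, algebraMap k L (c l) * nm D κ f i l =
      (nab D κ)^[(i : ℕ)] (∑ l, algebraMap k L (c l) * f l) := by
    rw [iter_comb]
    rfl
  rw [h4]
  have h5 : Ge P ((n : ℕ) : ℤ) (∑ l, algebraMap k L (c l) * f l) := h
  refine (ge_iter_nab P hD hv hκ h5 i).mono ?_
  have := i.2
  omega

omit [CharZero k] [IsFF k L] [IsAlgClosed k] in
theorem nm_zero (D : Derivation k L L) {n : ℕ} (f : Fin n → L) : (nm D 0 f).det = wr D f := by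
  unfold wr
  rw [← Matrix.det_transpose]
  congr 1
  ext i r
  have h1 : nab D 0 = ⇑D := by
    funext x
    unfold nab
    rw [zero_mul, add_zero]
  change (nab D 0)^[(r : ℕ)] (f i) = (⇑D)^[(r : ℕ)] (f i)
  rw [h1]

/-- logarithmic derivatives of quotients with order zero -/
theorem reg_ld (P : Place k L) {D : Derivation k L L} (hD : D ≠ 0) (hv : 0 ≤ vo P D) {A u : L}
    (hA : A ≠ 0) (hu : u ≠ 0) {e : ℕ} (he : P.ord A = e * P.ord u) :
    Ge P 0 (D A / A - e * (D u / u)) := by
  set B : L := A / u ^ e with hB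
  have hue : u ^ e ≠ 0 := pow_ne_zero _ hu
  have hB0 : B ≠ 0 := div_ne_zero hA hue
  have hBo : P.ord B = 0 := by
    rw [hB, P.ord_div hA hue, P.ord_pow, he]
    ring
  have h1 : Ge P 0 (D B / B) := by
    have h2 := (reg_der P hD hv (f := B) (Or.inr hBo.ge)).mul
      (Or.inr (by rw [P.ord_inv, hBo]; simp) : Ge P 0 B⁻¹)
    rw [← div_eq_mul_inv] at h2
    simpa using h2
  have hAB : A = B * u ^ e := by
    rw [hB, div_mul_cancel₀ _ hue]
  have h3 : D A / A - e * (D u / u) = D B / B := by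
    have h4 : D A = B * (e * u ^ (e - 1) * D u) + u ^ e * D B := by
      rw [hAB, D.leibniz, D.leibniz_pow]
      simp only [smul_eq_mul, nsmul_eq_mul]
      ring
    rw [h4, hAB]
    rcases Nat.eq_zero_or_pos e with rfl | he0
    · simp only [pow_zero, Nat.cast_zero, zero_mul, mul_zero, one_mul, mul_one, zero_add, sub_zero]
    · obtain ⟨e', rfl⟩ : ∃ e', e = e' + 1 := ⟨e - 1, by omega⟩
      rw [Nat.add_sub_cancel]
      field_simp
      ring
  rw [h3]
  exact h1

/-- the normalised connection -/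
noncomputable def lamW {n : ℕ} (D : Derivation k L L) (g : Fin n → L) : L :=
  -(D (wr D g) / wr D g / n)

theorem ge_lamW (P : Place k L) {D : Derivation k L L} (hD : D ≠ 0) {s : ℤ}
    (hs : 1 - vo P D ≤ s) {n : ℕ} {g : Fin n → L} (hg : LinearIndependent k g) :
    Ge P (-s) (lamW D g) := by
  unfold lamW
  have h1 := ge_ld P hD hs (wr_ne_zero hD g hg)
  have h2 : Ge P 0 ((n : L)⁻¹) := by
    have := Ge.const (P := P) ((n : k)⁻¹)
    rwa [map_inv₀, map_natCast] at this
  have h3 := (h1.mul h2).neg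
  rw [← div_eq_mul_inv] at h3
  simpa using h3

section good

variable {P : Place k L} {D : Derivation k L L} {n : ℕ} {g : Fin n → L} {m : ℤ}

/-- the order of the Wronskian at a good place -/
theorem good_ord (hD : D ≠ 0) (hv : vo P D = 0) (hg : LinearIndependent k g) (hm : ∀ l, Ge P m (g l))
    (hgood : ∀ c : Fin n → k, c ≠ 0 → ¬ Ge P (m + n) (∑ l, algebraMap k L (c l) * g l)) {u : L}
    (hu : u ≠ 0) (hum : P.ord u = m) : P.ord (wr D g) = n * P.ord u := by
  have hW := wr_ne_zero hD g hg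
  have hui : Ge P (-m) u⁻¹ := Or.inr (by rw [P.ord_inv, hum])
  have h1 : ∀ l, Ge P 0 (u⁻¹ * g l) := fun l => (hui.mul (hm l)).mono (by omega)
  have h2 := unit_nm P hD hv (κ := 0) Ge.zero h1 (fun c hc h3 => by
    apply hgood c hc
    have h4 : ∑ l, algebraMap k L (c l) * (u⁻¹ * g l) =
        u⁻¹ * ∑ l, algebraMap k L (c l) * g l := by
      rw [Finset.mul_sum]
      exact Finset.sum_congr rfl fun l _ => by ring
    rw [h4] at h3
    have h6 : Ge P m u := Or.inr hum.ge
    have h5 := h6.mul h3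
    rwa [← mul_assoc, mul_inv_cancel₀ hu, one_mul] at h5)
  rw [nm_zero] at h2
  have h3 := wr_change D 1 u⁻¹ g
  rw [one_smul] at h3
  simp only [one_pow, one_mul, Finset.prod_const, Finset.card_univ, Fintype.card_fin] at h3
  rw [h3] at h2
  have h4 : u⁻¹ ^ n * wr D g ≠ 0 := mul_ne_zero (pow_ne_zero _ (inv_ne_zero hu)) hW
  have h5 : P.ord (u⁻¹ ^ n * wr D g) = -(n * P.ord u) + P.ord (wr D g) := by
    rw [P.ord_mul (pow_ne_zero _ (inv_ne_zero hu)) hW, P.ord_pow, P.ord_inv]
    ring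
  have h6 : P.ord (u⁻¹ ^ n * wr D g) < 1 := by
    by_contra hcon
    exact h2 (Or.inr (not_lt.1 hcon))
  have h7 : 0 ≤ P.ord (u⁻¹ ^ n * wr D g) := by
    have h8 := reg_det P (reg_nm P hD hv (κ := 0) Ge.zero h1)
    rw [nm_zero, h3] at h8
    exact h8.resolve_left h4
  omega

theorem good_kappa (hn : 0 < n) (hD : D ≠ 0) (hv : vo P D = 0) (hg : LinearIndependent k g)
    (hm : ∀ l, Ge P m (g l))
    (hgood : ∀ c : Fin n → k, c ≠ 0 → ¬ Ge P (m + n) (∑ l, algebraMap k L (c l) * g l)) {u : L}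
    (hu : u ≠ 0) (hum : P.ord u = m) : Ge P 0 (lamW D g + D u / u) := by
  have hW := wr_ne_zero hD g hg
  have h1 := reg_ld P hD hv.ge hW hu (good_ord hD hv hg hm hgood hu hum)
  have h2 : Ge P 0 ((n : L)⁻¹) := by
    have := Ge.const (P := P) ((n : k)⁻¹)
    rwa [map_inv₀, map_natCast] at this
  have hL : CharZero L := charZero_of_injective_algebraMap (algebraMap k L).injective
  have hn0 : (n : L) ≠ 0 := Nat.cast_ne_zero.2 hn.ne'
  have h3 := (h1.mul h2).neg
  have h4 : -((D (wr D g) / wr D g - n * (D u / u)) * (n : L)⁻¹) = lamW D g + D u / u := by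
    unfold lamW
    field_simp
    ring
  rw [h4] at h3
  simpa using h3

/-- **Regularity of the coefficients at a good place.** -/
theorem good_coeff (hn : 0 < n) (hD : D ≠ 0) (hv : vo P D = 0) (hg : LinearIndependent k g)
    (hm : ∀ l, Ge P m (g l))
    (hgood : ∀ c : Fin n → k, c ≠ 0 → ¬ Ge P (m + n) (∑ l, algebraMap k L (c l) * g l)) {u : L}
    (hu : u ≠ 0) (hum : P.ord u = m) {b : Fin n → L}
    (hb : ∀ l, (nab D (lamW D g))^[n] (g l) = ∑ i, b i * (nab D (lamW D g))^[(i : ℕ)] (g l))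
    (i : Fin n) : Ge P 0 (b i) := by
  have hκ := good_kappa hn hD hv hg hm hgood hu hum
  have hui : Ge P (-m) u⁻¹ := Or.inr (by rw [P.ord_inv, hum])
  have h1 : ∀ l, Ge P 0 (u⁻¹ * g l) := fun l => (hui.mul (hm l)).mono (by omega)
  have h2 := unit_nm P hD hv hκ h1 (fun c hc h3 => by
    apply hgood c hc
    have h4 : ∑ l, algebraMap k L (c l) * (u⁻¹ * g l) =
        u⁻¹ * ∑ l, algebraMap k L (c l) * g l := by
      rw [Finset.mul_sum]
      exact Finset.sum_congr rfl fun l _ => by ring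
    rw [h4] at h3
    have h6 : Ge P m u := Or.inr hum.ge
    have h5 := h6.mul h3
    rwa [← mul_assoc, mul_inv_cancel₀ hu, one_mul] at h5)
  refine reg_of_vecMul P (reg_nm P hD hv hκ h1) h2 (fun l => ?_) i
  have h3 : ∀ r : ℕ, (nab D (lamW D g))^[r] (g l) =
      u * (nab D (lamW D g + D u / u))^[r] (u⁻¹ * g l) := by
    intro r
    rw [← iter_gauge D (lamW D g) hu, ← mul_assoc, mul_inv_cancel₀ hu, one_mul]
  have h4 : ∑ i, b i * nm D (lamW D g + D u / u) (fun l => u⁻¹ * g l) i l =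
      (nab D (lamW D g + D u / u))^[n] (u⁻¹ * g l) := by
    apply mul_left_cancel₀ hu
    rw [← h3, hb, Finset.mul_sum]
    refine Finset.sum_congr rfl fun i _ => ?_
    rw [h3]
    change u * (b i * (nab D (lamW D g + D u / u))^[(i : ℕ)] (u⁻¹ * g l)) = _
    ring
  rw [h4]
  have h5 : Ge P (((0 : ℕ) : ℤ)) (u⁻¹ * g l) := by simpa using h1 l
  have := ge_iter_nab P hD hv hκ h5 n
  simpa using this

end good

/-! ### Global bounds -/

/-- the sum of the absolute values of the orders of a derivation -/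
noncomputable def avo (D : Derivation k L L) : ℤ := ∑ᶠ P : Place k L, |vo P D|

omit [CharZero k] [IsFF k L] [IsAlgClosed k] in
theorem avo_finset {D : Derivation k L L} (T : Finset (Place k L))
    (hT : ∀ P, vo P D ≠ 0 → P ∈ T) : avo D = ∑ P ∈ T, |vo P D| := by
  unfold avo
  rw [finsum_eq_sum_of_support_subset (s := T)]
  intro P hP
  apply hT P
  intro h
  apply hP
  simp [h]

omit [CharZero k] [IsFF k L] [IsAlgClosed k] in
theorem avo_nonneg (D : Derivation k L L) : 0 ≤ avo D :=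
  finsum_nonneg fun _ => abs_nonneg _

/-- heights of derivatives -/
theorem hgt_der {D : Derivation k L L} (hD : D ≠ 0) (a : L) :
    hgt k (D a) ≤ 2 * hgt k a + 2 * avo D := by
  classical
  obtain ⟨T0, hT0⟩ := exists_supp (k := k) (Finset.univ : Finset (Fin 2)) ![a, D a]
  set T : Finset (Place k L) := T0 ∪ (vo_finite hD).toFinset with hT
  have h1 : ∀ P : Place k L, P.ord a ≠ 0 → P ∈ T := fun P hP =>
    Finset.mem_union_left _ (hT0 0 (Finset.mem_univ _) P hP)
  have h2 : ∀ P : Place k L, P.ord (D a) ≠ 0 → P ∈ T := fun P hP =>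
    Finset.mem_union_left _ (hT0 1 (Finset.mem_univ _) P hP)
  have h3 : ∀ P : Place k L, vo P D ≠ 0 → P ∈ T := fun P hP =>
    Finset.mem_union_right _ (by simpa using hP)
  rw [hgt_finset _ T h1, hgt_finset _ T h2, avo_finset T h3, Finset.mul_sum, Finset.mul_sum,
    ← Finset.sum_add_distrib]
  refine Finset.sum_le_sum fun P _ => ?_
  by_cases ha : D a = 0
  · rw [ha, P.ord_zero]
    have := le_max_right (-P.ord a) 0
    have := abs_nonneg (vo P D)
    have h4 : max (-(0 : ℤ)) 0 = 0 := by norm_num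
    rw [h4]
    linarith
  by_cases hv : vo P D = 0
  · by_cases h0 : 0 ≤ P.ord a
    · have h4 := (reg_der P hD hv.ge (f := a) (Or.inr h0)).resolve_left ha
      rw [hv, abs_zero]
      omega
    · have h4 := (ord_der P hD (f := a) (by omega)).2
      rw [hv, abs_zero]
      omega
  · have h4 := (ge_der P hD (s := 1 - vo P D) le_rfl (f := a) (Or.inr le_rfl)).resolve_left ha
    have h5 : 1 ≤ |vo P D| := Int.one_le_abs hv
    have h6 := neg_abs_le (vo P D)
    omega

/-- heights of functions with poles in a finite set -/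
theorem hgt_le_bad {D : Derivation k L L} (hD : D ≠ 0) {f : L} {N : ℕ} {B : Set (Place k L)}
    (hB : B.Finite) (h1 : ∀ P s, 1 - vo P D ≤ s → 0 ≤ s → Ge P (-(N * s)) f)
    (h2 : ∀ P, P ∉ B → vo P D = 0 → Ge P 0 f) : hgt k f ≤ N * (B.ncard + 2 * avo D) := by
  classical
  obtain ⟨T0, hT0⟩ := exists_supp (k := k) (Finset.univ : Finset (Fin 1)) ![f]
  set T : Finset (Place k L) := T0 ∪ (vo_finite hD).toFinset ∪ hB.toFinset with hT
  have h3 : ∀ P : Place k L, P.ord f ≠ 0 → P ∈ T := fun P hP =>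
    Finset.mem_union_left _ (Finset.mem_union_left _ (hT0 0 (Finset.mem_univ _) P hP))
  have h4 : ∀ P : Place k L, vo P D ≠ 0 → P ∈ T := fun P hP =>
    Finset.mem_union_left _ (Finset.mem_union_right _ (by simpa using hP))
  have h5 : ∑ P ∈ T, (if P ∈ B then (1 : ℤ) else 0) = B.ncard := by
    rw [← Finset.sum_filter, Finset.sum_const, Set.ncard_eq_toFinset_card _ hB]
    have h6 : T.filter (fun P => P ∈ B) = hB.toFinset := by
      ext P
      simp only [Finset.mem_filter, Set.Finite.mem_toFinset]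
      constructor
      · exact fun h => h.2
      · exact fun h => ⟨Finset.mem_union_right _ (by simpa using h), h⟩
    rw [h6]
    simp
  rw [hgt_finset _ T h3, avo_finset T h4, ← h5, Finset.mul_sum, ← Finset.sum_add_distrib,
    Finset.mul_sum]
  refine Finset.sum_le_sum fun P _ => ?_
  have hN : (0 : ℤ) ≤ N := Nat.cast_nonneg N
  have ha := abs_nonneg (vo P D)
  by_cases h6 : P ∉ B ∧ vo P D = 0
  · have h7 := h2 P h6.1 h6.2
    have h8 : max (-P.ord f) 0 = 0 := by
      rcases h7 with h7 | h7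
      · rw [h7, P.ord_zero]
        rfl
      · exact max_eq_right (by omega)
    rw [h8]
    refine mul_nonneg hN ?_
    split_ifs <;> linarith
  · have h7 := h1 P (1 + |vo P D|) (by
      have := neg_abs_le (vo P D)
      linarith) (by linarith)
    have h8 : max (-P.ord f) 0 ≤ N * (1 + |vo P D|) := by
      refine max_le ?_ (mul_nonneg hN (by linarith))
      rcases h7 with h7 | h7
      · rw [h7, P.ord_zero]
        have := mul_nonneg hN (by linarith : (0 : ℤ) ≤ 1 + |vo P D|)
        linarith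
      · linarith
    refine h8.trans (mul_le_mul_of_nonneg_left ?_ hN)
    by_cases h9 : P ∈ B
    · rw [if_pos h9]
      linarith
    · have h10 : vo P D ≠ 0 := fun h => h6 ⟨h9, h⟩
      have := Int.one_le_abs h10
      rw [if_neg h9]
      linarith

end Pool.Agent.N131.FV
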