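import Mathlib
import Pool.Agent.N131.FV.Good

/-!
The linear differential equation with the coordinates of a point, multiplied by a common factor,
among its solutions.
-/

set_option autoImplicit false

namespace Pool.Agent.N131.FV

open FF Pool.Agent.W603.LV

section mo

variable {k L : Type} [Field k] [Field L] [Algebra k L]

/-- the minimum of the orders of the nonzero coordinates -/
noncomputable def mo {ι : Type} (P : Place k L) (x : ι → L) : ℤ :=
  ⨅ c : {c // x c ≠ 0}, P.ord (x c.1)

theorem mo_le {ι : Type} [Finite ι] (P : Place k L) {x : ι → L} {c : ι} (hc : x c ≠ 0) :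
    mo P x ≤ P.ord (x c) :=
  ciInf_le (Set.finite_range fun c : {c // x c ≠ 0} => P.ord (x c.1)).bddBelow ⟨c, hc⟩

theorem exists_mo {ι : Type} [Finite ι] (P : Place k L) {x : ι → L} (hx : ∃ c, x c ≠ 0) :
    ∃ c, x c ≠ 0 ∧ P.ord (x c) = mo P x := by
  obtain ⟨c, hc⟩ := hx
  have : Nonempty {c // x c ≠ 0} := ⟨⟨c, hc⟩⟩
  obtain ⟨c', hc'⟩ := exists_eq_ciInf_of_finite (f := fun c : {c // x c ≠ 0} => P.ord (x c.1))
  exact ⟨c'.1, c'.2, hc'⟩

theorem ge_mo {ι : Type} [Finite ι] (P : Place k L) (x : ι → L) (c : ι) : Ge P (mo P x) (x c) := by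
  by_cases hc : x c = 0
  · exact Or.inl hc
  · exact Or.inr (mo_le P hc)

theorem mo_finite [CharZero k] [IsFF k L] {ι : Type} [Finite ι] {x : ι → L}
    (hx : ∃ c, x c ≠ 0) : {P : Place k L | mo P x ≠ 0}.Finite := by
  have h1 : (⋃ c : ι, {P : Place k L | P.ord (x c) ≠ 0}).Finite :=
    Set.finite_iUnion fun c => finite_support (x c)
  refine h1.subset fun P hP => ?_
  obtain ⟨c, hc, hcm⟩ := exists_mo P hx
  refine Set.mem_iUnion.2 ⟨c, ?_⟩
  show P.ord (x c) ≠ 0
  rw [hcm]
  exact hP

variable (k) in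
/-- The places at which an element of the linear system has an order which is larger than the
minimal order by the dimension of the system, or more. -/
def osc {ι : Type} (x : ι → L) : Set (Place k L) :=
  {P | ∃ v ∈ Submodule.span k (Set.range x), v ≠ 0 ∧
    mo P x + Module.finrank k (Submodule.span k (Set.range x)) ≤ P.ord v}

end mo

variable {k L : Type} [Field k] [Field L] [Algebra k L] [CharZero k] [IsFF k L] [IsAlgClosed k]

/-- the span of the coordinates -/
abbrev sp (k : Type) {L : Type} [Field k] [Field L] [Algebra k L] {ι : Type} (x : ι → L) :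
    Submodule k L := Submodule.span k (Set.range x)

omit [CharZero k] [IsFF k L] [IsAlgClosed k] in
theorem ge_sp {ι : Type} [Finite ι] (P : Place k L) (x : ι → L) {v : L} (hv : v ∈ sp k x) :
    Ge P (mo P x) v := by
  induction hv using Submodule.span_induction with
  | mem y hy =>
    obtain ⟨c, rfl⟩ := hy
    exact ge_mo P x c
  | zero => exact Ge.zero
  | add a b _ _ ha hb => exact ha.add hb
  | smul a b _ hb =>
    rw [Algebra.smul_def]
    exact ((Ge.const a).mul hb).mono (by omega)

omit [CharZero k] [IsFF k L] [IsAlgClosed k] in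
theorem exists_basis {N n : ℕ} {x : Fin (N + 1) → L} (hn : Module.finrank k (sp k x) = n) :
    ∃ g : Fin n → L, LinearIndependent k g ∧ (∀ l, g l ∈ sp k x) ∧
      ∀ v ∈ sp k x, ∃ c : Fin n → k, v = ∑ l, algebraMap k L (c l) * g l := by
  have hfin : Module.Finite k (sp k x) := Module.Finite.span_of_finite k (Set.finite_range x)
  let b := Module.finBasisOfFinrankEq k (sp k x) hn
  refine ⟨fun l => (b l : L), b.linearIndependent.map' (sp k x).subtype (Submodule.ker_subtype _),
    fun l => (b l).2, fun v hv => ⟨fun l => b.repr ⟨v, hv⟩ l, ?_⟩⟩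
  have h1 := b.sum_repr ⟨v, hv⟩
  have h2 := congrArg (sp k x).subtype h1
  rw [map_sum] at h2
  change _ = v at h2
  refine h2.symm.trans (Finset.sum_congr rfl fun l _ => ?_)
  rw [map_smul, Algebra.smul_def]
  rfl

omit [CharZero k] [IsFF k L] [IsAlgClosed k] in
theorem comb_ne {n : ℕ} {g : Fin n → L} (hg : LinearIndependent k g) {c : Fin n → k}
    (hc : c ≠ 0) : ∑ l, algebraMap k L (c l) * g l ≠ 0 := by
  intro h0
  apply hc
  funext l
  refine Fintype.linearIndependent_iff.1 hg c ?_ l
  rw [← h0]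
  exact Finset.sum_congr rfl fun l _ => Algebra.smul_def _ _

omit [CharZero k] [IsFF k L] [IsAlgClosed k] in
/-- good places -/
theorem good_of {N n : ℕ} {x : Fin (N + 1) → L} (hn : Module.finrank k (sp k x) = n)
    {g : Fin n → L} (hg : LinearIndependent k g) (hgx : ∀ l, g l ∈ sp k x) {P : Place k L}
    (hP : P ∉ osc k x) (c : Fin n → k) (hc : c ≠ 0) :
    ¬ Ge P (mo P x + n) (∑ l, algebraMap k L (c l) * g l) := by
  have h0 := comb_ne hg hc
  intro h1
  apply hP
  refine ⟨_, Submodule.sum_mem _ fun l _ => ?_, h0, ?_⟩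
  · rw [← Algebra.smul_def]
    exact Submodule.smul_mem _ _ (hgx l)
  · have h2 := h1.resolve_left h0
    have h3 : Module.finrank k (Submodule.span k (Set.range x)) = n := hn
    rw [h3]
    exact h2

/-- there are finitely many osculation places -/
theorem osc_finite {N : ℕ} {x : Fin (N + 1) → L} (hx : ∃ j, x j ≠ 0) : (osc k x).Finite := by
  obtain ⟨D, hD⟩ := exists_der (k := k) (K := L)
  obtain ⟨g, hg, hgx, hspan⟩ := exists_basis (k := k) (x := x) rfl
  have hW := wr_ne_zero hD g hg
  refine (((vo_finite hD).union (finite_support (k := k) (wr D g))).union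
    (mo_finite hx)).subset fun P hP => ?_
  by_contra hcon
  simp only [Set.mem_union, Set.mem_ofPred_eq, not_or, not_not] at hcon
  obtain ⟨⟨h1, h2⟩, h3⟩ := hcon
  obtain ⟨v, hv, hv0, hvo⟩ := hP
  obtain ⟨c, hc⟩ := hspan v hv
  have hc0 : c ≠ 0 := by
    rintro rfl
    apply hv0
    rw [hc]
    simp
  have h4 : ∀ l, Ge P 0 (g l) := fun l => by
    have := ge_sp P x (hgx l)
    rwa [h3] at this
  have h5 := nonunit_nm P hD h1 (κ := 0) Ge.zero h4 hc0 (by
    rw [← hc]
    right
    have h6 : mo P x + Module.finrank k (sp k x) ≤ P.ord v := hvo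
    omega)
  rw [nm_zero] at h5
  have := h5.resolve_left hW
  omega

/-- **The differential equation of a point.** -/
theorem package {E : Type} [Field E] [Algebra L E] [Algebra k E] [IsScalarTower k L E]
    [IsAlgClosed E] {D : Derivation k L L} (hD : D ≠ 0) {DE : Derivation k E E}
    (hDE : ∀ x : L, DE (algebraMap L E x) = algebraMap L E (D x)) {N : ℕ} {x : Fin (N + 1) → L}
    (hx : ∃ j, x j ≠ 0) {q : L} (hq : q ≠ 0) (d : ℕ) {n : ℕ}
    (hn : Module.finrank k (sp k x) = n) :
    0 < n ∧ ∃ (θ : E) (g : Fin n → L) (b : Fin n → L) (η : L) (c : Fin (N + 1) → Fin n → k),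
      θ ≠ 0 ∧ (∀ j, x j = ∑ l, algebraMap k L (c j l) * g l) ∧
      (Matrix.of fun i l : Fin n => (⇑DE)^[(i : ℕ)] (θ * algebraMap L E (g l))).det ≠ 0 ∧
      (∀ l, (⇑DE)^[n] (θ * algebraMap L E (g l)) =
        ∑ i : Fin n, algebraMap L E (b i) * (⇑DE)^[(i : ℕ)] (θ * algebraMap L E (g l))) ∧
      DE (θ ^ d * algebraMap L E q) = algebraMap L E η * (θ ^ d * algebraMap L E q) ∧
      (∀ i, hgt k (b i) ≤ n * ((osc k x).ncard + 2 * avo D)) ∧
      hgt k η ≤ (osc k x ∪ {P | P.ord q ≠ d * mo P x}).ncard + 2 * avo D := by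
  obtain ⟨g, hg, hgx, hspan⟩ := exists_basis (k := k) (x := x) hn
  have hn0 : 0 < n := by
    obtain ⟨j, hj⟩ := hx
    rcases Nat.eq_zero_or_pos n with rfl | h
    · exfalso
      obtain ⟨c, hc⟩ := hspan (x j) (Submodule.subset_span ⟨j, rfl⟩)
      apply hj
      rw [hc]
      simp
    · exact h
  refine ⟨hn0, ?_⟩
  have hW := wr_ne_zero hD g hg
  have hL : CharZero L := charZero_of_injective_algebraMap (algebraMap k L).injective
  have hE : CharZero E := charZero_of_injective_algebraMap (algebraMap L E).injective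
  obtain ⟨θ, hθ⟩ := IsAlgClosed.exists_pow_nat_eq (algebraMap L E (wr D g))⁻¹ hn0
  have hWE : algebraMap L E (wr D g) ≠ 0 := (map_ne_zero _).2 hW
  have hθ0 : θ ≠ 0 := by
    rintro rfl
    rw [zero_pow hn0.ne'] at hθ
    exact inv_ne_zero hWE hθ.symm
  have hnE : (n : E) ≠ 0 := Nat.cast_ne_zero.2 hn0.ne'
  -- the logarithmic derivative of `θ`
  have hθD : DE θ = algebraMap L E (lamW D g) * θ := by
    have h1 : θ ^ n * algebraMap L E (wr D g) = 1 := by
      rw [hθ, inv_mul_cancel₀ hWE]
    have h2 := congrArg DE h1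
    rw [DE.map_one_eq_zero, DE.leibniz, DE.leibniz_pow, hDE] at h2
    simp only [smul_eq_mul, nsmul_eq_mul] at h2
    obtain ⟨n', rfl⟩ : ∃ n', n = n' + 1 := ⟨n - 1, by omega⟩
    rw [Nat.add_sub_cancel] at h2
    have h3 : θ ^ (n' + 1) * (algebraMap L E (D (wr D g)) +
        ((n' + 1 : ℕ) : E) * algebraMap L E (wr D g) * (DE θ / θ)) = 0 := by
      rw [← h2]
      field_simp
      ring
    have h4 := (mul_eq_zero.1 h3).resolve_left (pow_ne_zero _ hθ0)
    unfold lamW
    rw [map_neg, map_div₀, map_div₀, map_natCast]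
    have h5 : DE θ / θ = -(algebraMap L E (D (wr D g)) / algebraMap L E (wr D g) /
        ((n' + 1 : ℕ) : E)) := by
      field_simp
      field_simp at h4
      linear_combination h4
    rw [← h5, div_mul_cancel₀ _ hθ0]
  have hiter : ∀ (r : ℕ) (f : L), (⇑DE)^[r] (θ * algebraMap L E f) =
      θ * algebraMap L E ((nab D (lamW D g))^[r] f) := by
    intro r f
    induction r with
    | zero => rfl
    | succ r ih =>
      rw [Function.iterate_succ_apply', ih, Function.iterate_succ_apply', DE.leibniz, hDE, hθD]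
      simp only [smul_eq_mul]
      unfold nab
      rw [map_add, map_mul]
      ring
  obtain ⟨c0, hc1, -, hc2, hc3⟩ := exists_op hD (lamW D g) n g
  have hb : ∀ l, (nab D (lamW D g))^[n] (g l) =
      ∑ i : Fin n, (-c0 i) * (nab D (lamW D g))^[(i : ℕ)] (g l) := by
    intro l
    have h1 := hc2 l
    rw [Finset.sum_range_succ, hc1, one_mul, Finset.sum_range] at h1
    simp only [neg_mul, Finset.sum_neg_distrib]
    linear_combination h1
  choose c hc using fun j => hspan (x j) (Submodule.subset_span ⟨j, rfl⟩)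
  have hgoodP : ∀ P, P ∉ osc k x → ∀ c : Fin n → k, c ≠ 0 →
      ¬ Ge P (mo P x + n) (∑ l, algebraMap k L (c l) * g l) := fun P hP => good_of hn hg hgx hP
  have hunif : ∀ P : Place k L, unif P ^ (mo P x) ≠ 0 ∧ P.ord (unif P ^ (mo P x)) = mo P x := by
    intro P
    have h1 := ord_unif P
    have h0 : unif P ≠ 0 := by
      intro h
      rw [h, P.ord_zero] at h1
      omega
    exact ⟨zpow_ne_zero _ h0, by rw [P.ord_zpow, h1, mul_one]⟩
  refine ⟨θ, g, fun i => -c0 i, d * lamW D g + D q / q, c, hθ0, hc, ?_, ?_, ?_, ?_, ?_⟩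
  · have h1 := wr_change DE 1 θ fun l => algebraMap L E (g l)
    rw [one_smul] at h1
    simp only [one_pow, one_mul, Finset.prod_const, Finset.card_univ, Fintype.card_fin] at h1
    have h2 : wr DE (fun l => algebraMap L E (g l)) = algebraMap L E (wr D g) := by
      unfold wr
      rw [RingHom.map_det]
      congr 1
      ext i r
      change (⇑DE)^[(r : ℕ)] (algebraMap L E (g i)) = algebraMap L E ((⇑D)^[(r : ℕ)] (g i))
      generalize (r : ℕ) = r
      induction r with
      | zero => rfl
      | succ r ih => rw [Function.iterate_succ_apply', ih, Function.iterate_succ_apply', hDE]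
    have h3 : (Matrix.of fun i l : Fin n => (⇑DE)^[(i : ℕ)] (θ * algebraMap L E (g l))).det =
        wr DE fun l => θ * algebraMap L E (g l) := by
      unfold wr
      rw [← Matrix.det_transpose]
      rfl
    rw [h3, h1, h2]
    exact mul_ne_zero (pow_ne_zero _ hθ0) hWE
  · intro l
    rw [hiter, hb, map_sum, Finset.mul_sum]
    refine Finset.sum_congr rfl fun i _ => ?_
    rw [hiter, map_mul]
    ring
  · have hqE : algebraMap L E q ≠ 0 := (map_ne_zero _).2 hq
    rw [DE.leibniz, DE.leibniz_pow, hθD, hDE, map_add, map_mul, map_natCast, map_div₀]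
    simp only [smul_eq_mul, nsmul_eq_mul]
    rcases Nat.eq_zero_or_pos d with rfl | hd
    · simp only [pow_zero, Nat.cast_zero]
      field_simp
      ring
    · obtain ⟨d', rfl⟩ : ∃ d', d = d' + 1 := ⟨d - 1, by omega⟩
      rw [Nat.add_sub_cancel]
      field_simp
      ring
  · intro i
    refine hgt_le_bad hD (osc_finite hx) (fun P s hs hs0 => ?_) (fun P hP hv => ?_)
    · refine (hc3 P s hs hs0 (ge_lamW P hD hs hg) i).neg.mono ?_
      have h1 : (((n : ℤ) - (i : ℕ)) * s) ≤ n * s := by
        have : (0 : ℤ) ≤ (i : ℕ) := Int.natCast_nonneg _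
        nlinarith
      linarith
    · exact good_coeff hn0 hD hv hg (fun l => ge_sp P x (hgx l)) (hgoodP P hP) (hunif P).1
        (hunif P).2 hb i
  · have hfin : (osc k x ∪ {P : Place k L | P.ord q ≠ d * mo P x}).Finite := by
      refine (osc_finite hx).union (((finite_support (k := k) q).union (mo_finite hx)).subset
        fun P hP => ?_)
      by_contra hcon
      simp only [Set.mem_union, Set.mem_ofPred_eq, not_or, not_not] at hcon
      apply hP
      rw [hcon.1, hcon.2, mul_zero]
    have h0 := hgt_le_bad (N := 1) hD (f := (d : L) * lamW D g + D q / q) hfin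
      (fun P s hs hs0 => ?_) (fun P hP hv => ?_)
    · rwa [Nat.cast_one, one_mul] at h0
    · rw [Nat.cast_one, one_mul]
      refine Ge.add ?_ (ge_ld P hD hs hq)
      exact ((Ge.natCast d).mul (ge_lamW P hD hs hg)).mono (by omega)
    · simp only [Set.mem_union, Set.mem_ofPred_eq, not_or, not_not] at hP
      obtain ⟨hP1, hP2⟩ := hP
      obtain ⟨hu, hum⟩ := hunif P
      set u := unif P ^ (mo P x) with hud
      have h1 := good_kappa hn0 hD hv hg (fun l => ge_sp P x (hgx l)) (hgoodP P hP1) hu hum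
      have h2 := reg_ld P hD hv.ge hq hu (e := d) (by rw [hum, hP2])
      have h3 := ((Ge.natCast (P := P) d).mul h1).mono (by omega : (0 : ℤ) ≤ 0 + 0)
      have h4 := h3.add h2
      have h5 : (d : L) * (lamW D g + D u / u) + (D q / q - d * (D u / u)) =
          d * lamW D g + D q / q := by ring
      rwa [h5] at h4

end Pool.Agent.N131.FV
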