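import Mathlib
import Pool.Agent.W603.PV.Disc
import Pool.Agent.N131.FV.Pkg

/-!
Heights and derivations on the finite extensions of a function field.
-/

set_option autoImplicit false

namespace Pool.Agent.N131.FV

open FF Pool.Agent.W603.LV Pool.Agent.W603.PV

section hgt

variable {k L : Type} [Field k] [Field L] [Algebra k L] [CharZero k] [IsFF k L]

theorem hgt_mul_le (a b : L) : hgt k (a * b) ≤ hgt k a + hgt k b := by
  by_cases ha : a = 0
  · rw [ha, zero_mul, hgt_zero]
    linarith [hgt_nonneg (k := k) b]
  by_cases hb : b = 0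
  · rw [hb, mul_zero, hgt_zero]
    linarith [hgt_nonneg (k := k) a]
  exact hgt_mul ha hb

theorem hgt_add_le (a b : L) : hgt k (a + b) ≤ hgt k a + hgt k b := by
  obtain ⟨T, hT⟩ := exists_supp (k := k) (Finset.univ : Finset (Fin 3)) ![a, b, a + b]
  have h1 : ∀ P : Place k L, P.ord a ≠ 0 → P ∈ T := fun P => hT 0 (Finset.mem_univ _) P
  have h2 : ∀ P : Place k L, P.ord b ≠ 0 → P ∈ T := fun P => hT 1 (Finset.mem_univ _) P
  have h3 : ∀ P : Place k L, P.ord (a + b) ≠ 0 → P ∈ T := fun P => hT 2 (Finset.mem_univ _) P
  rw [hgt_finset _ T h1, hgt_finset _ T h2, hgt_finset _ T h3, ← Finset.sum_add_distrib]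
  refine Finset.sum_le_sum fun P _ => ?_
  have h4 : Ge P (min (P.ord a) (P.ord b)) (a + b) :=
    Ge.add (Or.inr (min_le_left _ _)) (Or.inr (min_le_right _ _))
  rcases h4 with h4 | h4
  · rw [h4, P.ord_zero]
    have := le_max_right (-P.ord a) 0
    have := le_max_right (-P.ord b) 0
    have h5 : max (-(0 : ℤ)) 0 = 0 := by norm_num
    rw [h5]
    linarith
  · omega

end hgt

section ext

variable {k F : Type} [Field k] [IsAlgClosed k] [CharZero k] [Field F] [Algebra k F] [IsFF k F]

/-- the orders of a derivation on the finite extensions -/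
theorem avo_le {D : Derivation k F F} (hD : D ≠ 0) : ∃ C : ℕ, ∀ (L : Type) [Field L]
    [Algebra k L] [Algebra F L] [IsScalarTower k F L] [FiniteDimensional F L]
    (D' : Derivation k L L), (∀ x, D' (algebraMap F L x) = algebraMap F L (D x)) →
      D' ≠ 0 ∧ avo D' ≤ disc k F L + C * Module.finrank F L := by
  classical
  have hF : CharZero F := charZero_of_injective_algebraMap (algebraMap k F).injective
  set V : Finset (Place k F) := (vo_finite hD).toFinset with hV
  have hVmem : ∀ v, vo v D ≠ 0 → v ∈ V := fun v hv => by simp [hV, hv]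
  refine ⟨(∑ v ∈ V, |vo v D| * hgt k (unif v)).toNat, ?_⟩
  intro L _ _ _ _ _ D' hDD'
  have hL : IsFF k L := isFF_of_finite (F := F)
  have hD' : D' ≠ 0 := by
    rintro rfl
    apply hD
    ext x
    have := hDD' x
    rw [Derivation.coe_zero, Pi.zero_apply, eq_comm, map_eq_zero] at this
    rw [this]; rfl
  refine ⟨hD', ?_⟩
  set T : Finset (Place k L) := (vo_finite hD').toFinset ∪ (ram_finite (F := F)).toFinset ∪
    (finite_over_set (L := L) (vo_finite hD)).toFinset with hT
  have h1 := avo_finset (D := D') T fun P hP => by simp [hT, hP]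
  have h2 : disc k F L = ∑ P ∈ T, ((ram F P : ℤ) - 1) := by
    unfold disc
    rw [finsum_eq_sum_of_support_subset (s := T)]
    intro P hP
    have hP' : (ram F P : ℤ) - 1 ≠ 0 := hP
    simp only [hT, Finset.coe_union, Set.Finite.coe_toFinset, Set.mem_union, Set.mem_ofPred_eq]
    exact Or.inl (Or.inr hP')
  have h3 : avo D' ≤ ∑ P ∈ T, ((ram F P : ℤ) - 1) +
      ∑ P ∈ T, (ram F P : ℤ) * |vo (under F P) D| := by
    rw [h1, ← Finset.sum_add_distrib]
    refine Finset.sum_le_sum fun P _ => ?_
    rw [vo_under hD hD' hDD' P]
    have h4 := (ram_spec (F := F) P).1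
    have h5 := abs_sub ((ram F P : ℤ) * vo (under F P) D) ((ram F P : ℤ) - 1)
    rw [abs_mul, Nat.abs_cast, abs_of_nonneg (by omega : (0 : ℤ) ≤ (ram F P : ℤ) - 1)] at h5
    linarith
  have h5 : ∑ P ∈ T, (ram F P : ℤ) * |vo (under F P) D| ≤
      Module.finrank F L * ∑ v ∈ V, |vo v D| * hgt k (unif v) := by
    have h6 : ∑ P ∈ T, (ram F P : ℤ) * |vo (under F P) D| ≤
        ∑ P ∈ T.filter (fun P => under F P ∈ V), (ram F P : ℤ) * |vo (under F P) D| := by
      rw [Finset.sum_filter]
      refine Finset.sum_le_sum fun P _ => ?_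
      split_ifs with h
      · exact le_rfl
      · have h7 : vo (under F P) D = 0 := by
          by_contra hcon
          exact h (hVmem _ hcon)
        rw [h7]; simp
    refine h6.trans ?_
    rw [← Finset.sum_fiberwise_of_maps_to (t := V) (g := fun P => under F P)
      (fun P hP => (Finset.mem_filter.1 hP).2), Finset.mul_sum]
    refine Finset.sum_le_sum fun v _ => ?_
    have h9 : ∑ P ∈ (T.filter (fun P => under F P ∈ V)).filter (fun P => under F P = v),
        (ram F P : ℤ) * |vo (under F P) D| = (∑ P ∈ (T.filter (fun P => under F P ∈ V)).filter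
          (fun P => under F P = v), (ram F P : ℤ)) * |vo v D| := by
      rw [Finset.sum_mul]
      refine Finset.sum_congr rfl fun P hP => ?_
      rw [(Finset.mem_filter.1 hP).2]
    rw [h9]
    have h10 := sum_ram_le (L := L) v (ord_unif v) ((T.filter (fun P => under F P ∈ V)).filter
      (fun P => under F P = v)) fun P hP => (Finset.mem_filter.1 hP).2
    have h11 := mul_le_mul_of_nonneg_right h10 (abs_nonneg (vo v D))
    linarith
  have h12 : (0 : ℤ) ≤ ∑ v ∈ V, |vo v D| * hgt k (unif v) :=
    Finset.sum_nonneg fun v _ => mul_nonneg (abs_nonneg _) (hgt_nonneg _)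
  rw [Int.toNat_of_nonneg h12, h2]
  linarith

end ext

section der

variable {k F : Type} [Field k] [CharZero k] [Field F] [Algebra k F]

/-- derivations extend to algebraic extensions -/
theorem exists_ext {E : Type} [Field E] [Algebra k E] [Algebra F E] [IsScalarTower k F E]
    [Algebra.IsAlgebraic F E] (D : Derivation k F F) :
    ∃ D' : Derivation k E E, ∀ x, D' (algebraMap F E x) = algebraMap F E (D x) := by
  have hF : CharZero F := charZero_of_injective_algebraMap (algebraMap k F).injective
  have h1 : Algebra.FormallyEtale F E := Algebra.FormallyEtale.of_isSeparable F E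
  let e := KaehlerDifferential.tensorKaehlerEquivOfFormallyEtale k F E
  let l : Ω[F⁄k] →ₗ[F] E := (Algebra.linearMap F E).comp D.liftKaehlerDifferential
  let φ : Ω[E⁄k] →ₗ[E] E := (LinearMap.liftBaseChange E l).comp e.symm.toLinearMap
  refine ⟨φ.compDer (KaehlerDifferential.D k E), fun x => ?_⟩
  change (LinearMap.liftBaseChange E l) (e.symm (KaehlerDifferential.D k E (algebraMap F E x))) = _
  rw [KaehlerDifferential.tensorKaehlerEquivOfFormallyEtale_symm_D_algebraMap,
    LinearMap.liftBaseChange_tmul, one_smul]
  simp [l]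

/-- extensions of derivations to algebraic extensions are unique -/
theorem ext_unique {L E : Type} [Field L] [Field E] [Algebra k L] [Algebra F L]
    [IsScalarTower k F L] [Algebra k E] [Algebra L E] [IsScalarTower k L E]
    [Algebra.IsAlgebraic F L] {D : Derivation k F F} {DL : Derivation k L L}
    {DE : Derivation k E E} (h1 : ∀ x, DL (algebraMap F L x) = algebraMap F L (D x))
    (h2 : ∀ x : F, DE (algebraMap L E (algebraMap F L x)) = algebraMap L E (algebraMap F L (D x)))
    (x : L) : DE (algebraMap L E x) = algebraMap L E (DL x) := by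
  have hF : CharZero F := charZero_of_injective_algebraMap (algebraMap k F).injective
  let _ : Algebra F E := ((algebraMap L E).comp (algebraMap F L)).toAlgebra
  have hst : IsScalarTower F L E := IsScalarTower.of_algebraMap_eq fun x => rfl
  let f : L → E := fun x => DE (algebraMap L E x) - algebraMap L E (DL x)
  have hadd : ∀ a b, f (a + b) = f a + f b := fun a b => by
    simp only [f, map_add]
    ring
  have hmul : ∀ a b, f (a * b) = algebraMap L E a * f b + algebraMap L E b * f a := fun a b => by
    simp only [f, map_mul, Derivation.leibniz, smul_eq_mul, map_add]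
    ring
  have hF0 : ∀ a : F, f (algebraMap F L a) = 0 := fun a => by
    simp only [f]
    rw [h2, h1, sub_self]
  let Δ : Derivation F L E := Derivation.mk'
    { toFun := f
      map_add' := hadd
      map_smul' := fun c a => by
        rw [Algebra.smul_def, hmul, hF0, mul_zero, add_zero, RingHom.id_apply, Algebra.smul_def]
        rfl }
    (fun a b => by
      change f (a * b) = a • f b + b • f a
      rw [hmul, Algebra.smul_def, Algebra.smul_def])
  have hΔ : ∀ x, Δ x = f x := fun x => rfl
  have hint : IsIntegral F x := Algebra.IsIntegral.isIntegral x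
  have h3 : Δ (Polynomial.aeval x (minpoly F x)) = 0 := by
    rw [minpoly.aeval, map_zero]
  rw [Derivation.map_aeval] at h3
  have h4 : Polynomial.aeval x (Polynomial.derivative (minpoly F x)) ≠ 0 :=
    (minpoly.irreducible hint).separable.aeval_derivative_ne_zero (minpoly.aeval _ _)
  have h5 : f x = 0 := by
    rw [← hΔ]
    exact (smul_eq_zero.1 h3).resolve_left h4
  exact sub_eq_zero.1 h5

end der

section const

variable {k F : Type} [Field k] [IsAlgClosed k] [CharZero k] [Field F] [Algebra k F] [IsFF k F]
  {E : Type} [Field E] [Algebra k E] [Algebra F E] [IsScalarTower k F E]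
  [Algebra.IsAlgebraic F E]

omit [IsAlgClosed k] [Algebra.IsAlgebraic F E] in
theorem isFF_inter (L : IntermediateField F E) [FiniteDimensional F L] : IsFF k L :=
  isFF_of_finite (F := F)

/-- restriction of derivations to finite extensions -/
theorem exists_res {D : Derivation k F F} {DE : Derivation k E E}
    (hDE : ∀ x, DE (algebraMap F E x) = algebraMap F E (D x)) (L : IntermediateField F E)
    [FiniteDimensional F L] : ∃ DL : Derivation k L L,
      (∀ x, DL (algebraMap F L x) = algebraMap F L (D x)) ∧
      ∀ x : L, DE (x : E) = ((DL x : L) : E) := by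
  have hF : CharZero F := charZero_of_injective_algebraMap (algebraMap k F).injective
  obtain ⟨DL, hDL⟩ := exists_ext_der (k := k) (L := L) D
  have hst : IsScalarTower k L E := IsScalarTower.of_algebraMap_eq fun x => rfl
  refine ⟨DL, hDL, fun x => ?_⟩
  exact ext_unique (F := F) (D := D) (DL := DL) (DE := DE) hDL (fun x => hDE x) x

/-- the constants of the extension -/
theorem const_ext {D : Derivation k F F} (hD : D ≠ 0) {DE : Derivation k E E}
    (hDE : ∀ x, DE (algebraMap F E x) = algebraMap F E (D x)) {x : E} (hx : DE x = 0) :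
    ∃ c : k, x = algebraMap k E c := by
  have hint : IsIntegral F x := Algebra.IsIntegral.isIntegral x
  let L : IntermediateField F E := IntermediateField.adjoin F {x}
  have hfin : FiniteDimensional F L := IntermediateField.adjoin.finiteDimensional hint
  have hFF : IsFF k L := isFF_inter L
  obtain ⟨DL, h1, h2⟩ := exists_res hDE L
  have hDL : DL ≠ 0 := by
    rintro rfl
    apply hD
    ext y
    have := h1 y
    rw [Derivation.coe_zero, Pi.zero_apply, eq_comm, map_eq_zero] at this
    rw [this]; rfl
  have hxL : x ∈ L := IntermediateField.mem_adjoin_simple_self F x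
  have h3 := h2 ⟨x, hxL⟩
  have h4 : DL ⟨x, hxL⟩ = 0 := by
    apply Subtype.ext
    rw [← h3]
    exact hx
  obtain ⟨c, hc⟩ := const_of_der hDL h4
  exact ⟨c, congrArg (algebraMap L E) hc⟩

end const

end Pool.Agent.N131.FV
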