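import Mathlib
import Pool.Agent.N131.SU.Fld

/-!
The ultrapower of a field as an algebra over the complex numbers by means of an isomorphism
(after SU/Fld).
-/

set_option autoImplicit false

namespace Pool.Agent.N131.FV

open Filter
open Pool.Agent.Y377.IL (Cst)
open Pool.Agent.N131.SU (CS gc gc_surj gc_eq)

/-- the ultrapower of a field, as an algebra over the complex numbers by means of an
isomorphism -/
def KE (_σ : ℂ ≃+* CS) (E : Type) [Field E] : Type := Germ (hyperfilter ℕ : Filter ℕ) E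

variable {σ : ℂ ≃+* CS} {E : Type} [Field E]

noncomputable instance : Field (KE σ E) :=
  inferInstanceAs (Field (Germ (hyperfilter ℕ : Filter ℕ) E))

/-- the class of a sequence -/
noncomputable def ke (σ : ℂ ≃+* CS) : (ℕ → E) →+* KE σ E :=
  Germ.coeRingHom (hyperfilter ℕ : Filter ℕ)

theorem ke_surj (x : KE σ E) : ∃ c, ke σ c = x := by
  induction x using Germ.inductionOn with
  | _ f => exact ⟨f, rfl⟩

theorem ke_eq {a b : ℕ → E} :
    ke σ a = ke σ b ↔ ∀ᶠ k in (hyperfilter ℕ : Filter ℕ), a k = b k :=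
  Germ.coe_eq

theorem ke_zero {a : ℕ → E} : ke σ a = 0 ↔ ∀ᶠ k in (hyperfilter ℕ : Filter ℕ), a k = 0 := by
  rw [← map_zero (ke σ), ke_eq]
  rfl

theorem ke_inv (a : ℕ → E) : ke σ (fun n => (a n)⁻¹) = (ke σ a)⁻¹ := by
  by_cases h : ke σ a = 0
  · rw [h, inv_zero, ke_zero]
    rw [ke_zero] at h
    exact h.mono fun n hn => by rw [hn, inv_zero]
  · apply eq_inv_of_mul_eq_one_left
    rw [← map_mul, ← map_one (ke σ), ke_eq]
    have h1 : ∀ᶠ n in (hyperfilter ℕ : Filter ℕ), ¬ a n = 0 := by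
      rw [Ultrafilter.eventually_not]
      rwa [ke_zero] at h
    exact h1.mono fun n hn => inv_mul_cancel₀ hn

theorem ke_div (a b : ℕ → E) : ke σ (fun n => a n / b n) = ke σ a / ke σ b := by
  rw [div_eq_mul_inv, ← ke_inv, ← map_mul]
  congr 1
  funext n
  exact div_eq_mul_inv _ _

variable [Algebra ℂ E]

/-- the constants -/
noncomputable def ie (σ : ℂ ≃+* CS) (E : Type) [Field E] [Algebra ℂ E] : CS →+* KE σ E where
  toFun := Germ.map (algebraMap ℂ E)
  map_one' := by
    change Germ.map (algebraMap ℂ E) (gc 1) = ke σ 1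
    change ke σ (fun k => algebraMap ℂ E 1) = ke σ 1
    rw [map_one]
    rfl
  map_zero' := by
    change Germ.map (algebraMap ℂ E) (gc 0) = ke σ 0
    change ke σ (fun k => algebraMap ℂ E 0) = ke σ 0
    rw [map_zero]
    rfl
  map_add' x y := by
    obtain ⟨a, rfl⟩ := gc_surj x
    obtain ⟨b, rfl⟩ := gc_surj y
    rw [← map_add]
    change ke σ (fun k => algebraMap ℂ E (a k + b k)) =
      ke σ (fun k => algebraMap ℂ E (a k)) + ke σ (fun k => algebraMap ℂ E (b k))
    rw [← map_add]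
    congr 1
    funext k
    exact map_add _ _ _
  map_mul' x y := by
    obtain ⟨a, rfl⟩ := gc_surj x
    obtain ⟨b, rfl⟩ := gc_surj y
    rw [← map_mul]
    change ke σ (fun k => algebraMap ℂ E (a k * b k)) =
      ke σ (fun k => algebraMap ℂ E (a k)) * ke σ (fun k => algebraMap ℂ E (b k))
    rw [← map_mul]
    congr 1
    funext k
    exact map_mul _ _ _

theorem ie_gc (c : ℕ → ℂ) : ie σ E (gc c) = ke σ fun k => algebraMap ℂ E (c k) := rfl

noncomputable instance : Algebra ℂ (KE σ E) := ((ie σ E).comp σ.toRingHom).toAlgebra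

theorem algebraMap_ke (c : ℂ) : algebraMap ℂ (KE σ E) c = ie σ E (σ c) := rfl

theorem alg_of_gc {c : ℂ} {c' : ℕ → ℂ} (h : σ c = gc c') :
    algebraMap ℂ (KE σ E) c = ke σ fun k => algebraMap ℂ E (c' k) := by
  rw [algebraMap_ke, h, ie_gc]

theorem exists_gc (c : ℂ) : ∃ c' : ℕ → ℂ, σ c = gc c' := (gc_surj (σ c)).imp fun _ h => h.symm

theorem exists_of_gc (c' : ℕ → ℂ) : ∃ c : ℂ, σ c = gc c' := ⟨σ.symm (gc c'), by simp⟩

/-- the derivation -/
noncomputable def DK (σ : ℂ ≃+* CS) (D : Derivation ℂ E E) :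
    Derivation ℂ (KE σ E) (KE σ E) := by
  let f : KE σ E → KE σ E := Germ.map D
  have hf : ∀ a : ℕ → E, f (ke σ a) = ke σ fun k => D (a k) := fun a => rfl
  have hadd : ∀ x y, f (x + y) = f x + f y := by
    intro x y
    obtain ⟨a, rfl⟩ := ke_surj x
    obtain ⟨b, rfl⟩ := ke_surj y
    rw [← map_add, hf, hf, hf, ← map_add]
    congr 1
    funext k
    exact map_add D _ _
  have hmul : ∀ x y, f (x * y) = x * f y + y * f x := by
    intro x y
    obtain ⟨a, rfl⟩ := ke_surj x
    obtain ⟨b, rfl⟩ := ke_surj y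
    rw [← map_mul, hf, hf, hf, ← map_mul, ← map_mul, ← map_add]
    congr 1
    funext k
    exact D.leibniz _ _
  have hc : ∀ c : ℂ, f (algebraMap ℂ (KE σ E) c) = 0 := by
    intro c
    obtain ⟨c', hc'⟩ := exists_gc (σ := σ) c
    rw [alg_of_gc hc', hf, ke_zero]
    exact Eventually.of_forall fun k => D.map_algebraMap (c' k)
  exact Derivation.mk'
    { toFun := f
      map_add' := hadd
      map_smul' := fun c x => by
        rw [Algebra.smul_def, hmul, hc, mul_zero, add_zero, RingHom.id_apply, Algebra.smul_def] }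
    (fun x y => by
      change f (x * y) = x • f y + y • f x
      rw [hmul, smul_eq_mul, smul_eq_mul])

theorem DK_ke (D : Derivation ℂ E E) (a : ℕ → E) :
    DK σ D (ke σ a) = ke σ fun k => D (a k) := rfl

theorem DK_iter (D : Derivation ℂ E E) (a : ℕ → E) (r : ℕ) :
    (⇑(DK σ D))^[r] (ke σ a) = ke σ fun k => (⇑D)^[r] (a k) := by
  induction r with
  | zero => rfl
  | succ r ih =>
    rw [Function.iterate_succ_apply', ih, DK_ke]
    congr 1
    funext k
    rw [Function.iterate_succ_apply']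

theorem cst_DK {D : Derivation ℂ E E} (hC : Cst D) : Cst (DK σ D) := by
  intro x hx
  obtain ⟨a, rfl⟩ := ke_surj x
  rw [DK_ke, ke_zero] at hx
  have h1 : ∀ k, ∃ c : ℂ, D (a k) = 0 → a k = algebraMap ℂ E c := by
    intro k
    by_cases hk : D (a k) = 0
    · obtain ⟨c, hc⟩ := hC (a k) hk
      exact ⟨c, fun _ => hc⟩
    · exact ⟨0, fun h => absurd h hk⟩
  choose c' hc' using h1
  obtain ⟨c, hc⟩ := exists_of_gc (σ := σ) c'
  refine ⟨c, ?_⟩
  rw [alg_of_gc hc, ke_eq]
  exact hx.mono fun k hk => hc' k hk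

end Pool.Agent.N131.FV
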