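import Mathlib
import Pool.Agent.N131.FV.Hs
import Pool.Agent.N131.FV.Ke
import Pool.Agent.Y377.EL.Tower
import Pool.Agent.Y377.IL.MerA

/-!
The field of the classes of the sequences of small height, and its algebraic closure.
-/

set_option autoImplicit false

namespace Pool.Agent.N131.FV

open Filter FF Pool.Agent.W603.LV Pool.Agent.W603.PV
open Pool.Agent.Y377.IL (Cst GoodB goodB_field)
open Pool.Agent.Y377.EL (algC mem_algC alg_trans)
open Pool.Agent.N131.SU (CS gc)

/-- small sequences of integers -/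
def Sm (h : ℕ → ℤ) (b : ℕ → ℤ) : Prop :=
  ∀ m : ℕ, ∀ᶠ n in (hyperfilter ℕ : Filter ℕ), (m : ℤ) * b n ≤ h n

theorem Sm.add {h a b : ℕ → ℤ} (ha : Sm h a) (hb : Sm h b) : Sm h fun n => a n + b n := by
  intro m
  filter_upwards [ha (2 * m), hb (2 * m)] with n h1 h2
  push_cast at h1 h2
  linarith

theorem Sm.mono {h a b : ℕ → ℤ} (ha : Sm h a)
    (hab : ∀ᶠ n in (hyperfilter ℕ : Filter ℕ), b n ≤ a n) : Sm h b := by
  intro m
  filter_upwards [ha m, hab] with n h1 h2
  have := mul_le_mul_of_nonneg_left h2 (Int.natCast_nonneg m)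
  linarith

theorem Sm.mul {h a : ℕ → ℤ} (ha : Sm h a) (C : ℕ) : Sm h fun n => C * a n := by
  intro m
  filter_upwards [ha (m * C)] with n h1
  push_cast at h1
  linarith

theorem Sm.zero {h : ℕ → ℤ} (hh : ∀ n, 0 ≤ h n) : Sm h fun _ => 0 := by
  intro m
  exact Eventually.of_forall fun n => by simpa using hh n

theorem Sm.sum {h : ℕ → ℤ} (hh : ∀ n, 0 ≤ h n) {ι : Type} (s : Finset ι) {a : ι → ℕ → ℤ}
    (ha : ∀ i ∈ s, Sm h (a i)) : Sm h fun n => ∑ i ∈ s, a i n := by
  classical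
  induction s using Finset.induction_on with
  | empty => simpa using Sm.zero hh
  | insert i s hi ih =>
    have h1 := (ha i (Finset.mem_insert_self i s)).add
      (ih fun j hj => ha j (Finset.mem_insert_of_mem hj))
    simpa only [Finset.sum_insert hi] using h1

variable {F E : Type} [Field F] [Algebra ℂ F] [IsFF ℂ F] [Field E] [Algebra ℂ E] [Algebra F E]
  [IsScalarTower ℂ F E] [Algebra.IsAlgebraic F E]

/-- sequences of small height -/
def SmS (L : ℕ → IntermediateField F E) (h : ℕ → ℤ) (a : ∀ n, L n) : Prop :=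
  Sm h fun n => hgt ℂ (a n)

variable {L : ℕ → IntermediateField F E} [hL : ∀ n, FiniteDimensional F (L n)] {h : ℕ → ℤ}

omit [Algebra.IsAlgebraic F E] in
theorem SmS.add {a b : ∀ n, L n} (ha : SmS L h a) (hb : SmS L h b) :
    SmS L h fun n => a n + b n := by
  refine (Sm.add ha hb).mono (Eventually.of_forall fun n => ?_)
  have := isFF_inter (k := ℂ) (L n)
  exact hgt_add_le _ _

omit [Algebra.IsAlgebraic F E] in
theorem SmS.mul {a b : ∀ n, L n} (ha : SmS L h a) (hb : SmS L h b) :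
    SmS L h fun n => a n * b n := by
  refine (Sm.add ha hb).mono (Eventually.of_forall fun n => ?_)
  have := isFF_inter (k := ℂ) (L n)
  exact hgt_mul_le _ _

omit [Algebra.IsAlgebraic F E] in
theorem SmS.inv {a : ∀ n, L n} (ha : SmS L h a) : SmS L h fun n => (a n)⁻¹ := by
  refine Sm.mono ha (Eventually.of_forall fun n => ?_)
  have := isFF_inter (k := ℂ) (L n)
  exact (hgt_inv _).le

omit [Algebra.IsAlgebraic F E] in
theorem SmS.const (hh : ∀ n, 0 ≤ h n) (c : ℕ → ℂ) :
    SmS L h fun n => algebraMap ℂ (L n) (c n) := by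
  refine Sm.mono (Sm.zero hh) (Eventually.of_forall fun n => ?_)
  have := isFF_inter (k := ℂ) (L n)
  exact (hgt_algebraic (isAlgebraic_algebraMap _)).le

variable {σ : ℂ ≃+* CS}

/-- the class of a sequence of elements of the finite extensions -/
noncomputable def kl (σ : ℂ ≃+* CS) (L : ℕ → IntermediateField F E) : (∀ n, L n) →+* KE σ E where
  toFun a := ke σ fun n => (a n : E)
  map_one' := map_one (ke σ)
  map_zero' := map_zero (ke σ)
  map_add' a b := (ke σ).map_add (fun n => (a n : E)) fun n => (b n : E)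
  map_mul' a b := (ke σ).map_mul (fun n => (a n : E)) fun n => (b n : E)

omit [Algebra ℂ F] [IsFF ℂ F] [Algebra ℂ E] [IsScalarTower ℂ F E] [Algebra.IsAlgebraic F E] hL in
theorem kl_zero {a : ∀ n, L n} :
    kl σ L a = 0 ↔ ∀ᶠ n in (hyperfilter ℕ : Filter ℕ), a n = 0 := by
  change ke σ (fun n => (a n : E)) = 0 ↔ _
  rw [ke_zero]
  refine eventually_congr (Eventually.of_forall fun n => ?_)
  exact ZeroMemClass.coe_eq_zero

/-- **The field of the small sequences.** -/
noncomputable def SF (σ : ℂ ≃+* CS) (L : ℕ → IntermediateField F E)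
    [∀ n, FiniteDimensional F (L n)] {h : ℕ → ℤ} (hh : ∀ n, 0 ≤ h n) :
    IntermediateField ℂ (KE σ E) where
  carrier := {x | ∃ a : ∀ n, L n, SmS L h a ∧ kl σ L a = x}
  mul_mem' := by
    rintro _ _ ⟨a, ha, rfl⟩ ⟨b, hb, rfl⟩
    exact ⟨a * b, ha.mul hb, map_mul _ _ _⟩
  add_mem' := by
    rintro _ _ ⟨a, ha, rfl⟩ ⟨b, hb, rfl⟩
    exact ⟨a + b, ha.add hb, map_add _ _ _⟩
  algebraMap_mem' := fun c => by
    obtain ⟨c', hc'⟩ := exists_gc (σ := σ) c
    exact ⟨fun n => algebraMap ℂ (L n) (c' n), SmS.const hh c', (alg_of_gc hc').symm⟩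
  inv_mem' := by
    rintro _ ⟨a, ha, rfl⟩
    exact ⟨fun n => (a n)⁻¹, ha.inv, ke_inv (σ := σ) fun n => (a n : E)⟩

omit [Algebra.IsAlgebraic F E] in
theorem mem_SF {hh : ∀ n, 0 ≤ h n} {x : KE σ E} :
    x ∈ SF σ L hh ↔ ∃ a : ∀ n, L n, SmS L h a ∧ kl σ L a = x := Iff.rfl

/-- the field of the small sequences is stable under the derivation -/
theorem SF_stab {D : Derivation ℂ F F} (hD : D ≠ 0) {DE : Derivation ℂ E E}
    (hDE : ∀ x, DE (algebraMap F E x) = algebraMap F E (D x)) (hh : ∀ n, 0 ≤ h n)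
    (hd : Sm h fun n => disc ℂ F (L n)) (hf : Sm h fun n => Module.finrank F (L n))
    {x : KE σ E} (hx : x ∈ SF σ L hh) : DK σ DE x ∈ SF σ L hh := by
  obtain ⟨a, ha, rfl⟩ := hx
  choose DL hDL1 hDL2 using fun n => exists_res hDE (L n)
  obtain ⟨C, hC⟩ := avo_le hD
  refine ⟨fun n => DL n (a n), ?_, ?_⟩
  · refine Sm.mono ((Sm.mul ha 2).add ((hd.add (hf.mul C)).mul 2)) (Eventually.of_forall fun n => ?_)
    have := isFF_inter (k := ℂ) (L n)
    obtain ⟨h1, h2⟩ := hC (L n) (DL n) (hDL1 n)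
    have h3 := hgt_der h1 (a n)
    simp only
    push_cast
    linarith
  · change ke σ (fun n => ((DL n (a n) : L n) : E)) = DK σ DE (ke σ fun n => (a n : E))
    rw [DK_ke]
    congr 1
    funext n
    exact (hDL2 n (a n)).symm

/-- constant sequences -/
noncomputable def cs (σ : ℂ ≃+* CS) (E : Type) [Field E] : E →+* KE σ E :=
  (ke σ).comp (Pi.constRingHom ℕ E)

omit [Algebra.IsAlgebraic F E] in
theorem F_mem (hh : ∀ n, 0 ≤ h n) (hf : Sm h fun n => Module.finrank F (L n)) (c : F) :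
    cs σ E (algebraMap F E c) ∈ SF σ L hh := by
  refine ⟨fun n => algebraMap F (L n) c, ?_, rfl⟩
  refine Sm.mono (hf.mul (hgt ℂ c).toNat) (Eventually.of_forall fun n => ?_)
  have := isFF_inter (k := ℂ) (L n)
  have h1 := hgt_nonneg (k := ℂ) c
  simp only
  rw [hgt_algebraMap, Int.toNat_of_nonneg h1, mul_comm]

/-- the algebraic closure of the field of the small sequences -/
noncomputable def R0 (σ : ℂ ≃+* CS) (L : ℕ → IntermediateField F E)
    [∀ n, FiniteDimensional F (L n)] {h : ℕ → ℤ} (hh : ∀ n, 0 ≤ h n) :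
    IntermediateField ℂ (KE σ E) where
  toSubalgebra := algC (SF σ L hh).toSubalgebra
  inv_mem' := fun _ hx => IsAlgebraic.inv hx

omit [Algebra.IsAlgebraic F E] in
theorem mem_R0 {hh : ∀ n, 0 ≤ h n} {x : KE σ E} :
    x ∈ R0 σ L hh ↔ IsAlgebraic (SF σ L hh).toSubalgebra x := Iff.rfl

omit [Algebra.IsAlgebraic F E] in
theorem SF_le {hh : ∀ n, 0 ≤ h n} {x : KE σ E} (hx : x ∈ SF σ L hh) : x ∈ R0 σ L hh :=
  isAlgebraic_algebraMap (A := KE σ E) (⟨x, hx⟩ : (SF σ L hh).toSubalgebra)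

theorem E_mem (hh : ∀ n, 0 ≤ h n) (hf : Sm h fun n => Module.finrank F (L n)) (c : E) :
    cs σ E c ∈ R0 σ L hh := by
  rw [mem_R0]
  let ι : F →+* (SF σ L hh).toSubalgebra :=
    ((cs σ E).comp (algebraMap F E)).codRestrict _ fun a => F_mem hh hf a
  have hint : IsIntegral F c := Algebra.IsIntegral.isIntegral c
  refine ⟨(minpoly F c).map ι, ?_, ?_⟩
  · rw [Polynomial.map_ne_zero_iff ι.injective]
    exact minpoly.ne_zero hint
  · rw [Polynomial.aeval_def, Polynomial.eval₂_map]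
    have h1 : (algebraMap (SF σ L hh).toSubalgebra (KE σ E)).comp ι =
        (cs σ E).comp (algebraMap F E) := rfl
    rw [h1, ← Polynomial.hom_eval₂]
    have h2 := minpoly.aeval F c
    rw [Polynomial.aeval_def] at h2
    rw [h2, map_zero]

/-- derivatives of algebraic elements -/
theorem stab_alg {K : Type} [Field K] [Algebra ℂ K] {D : Derivation ℂ K K}
    {S : IntermediateField ℂ K} (hS : ∀ x ∈ S, D x ∈ S) {x : K}
    (hx : IsAlgebraic S.toSubalgebra x) : IsAlgebraic S.toSubalgebra (D x) := by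
  let dS : Derivation ℂ S S := Derivation.mk'
    { toFun := fun a => ⟨D a, hS a a.2⟩
      map_add' := fun a b => Subtype.ext (map_add D (a : K) (b : K))
      map_smul' := fun c a => Subtype.ext (D.map_smul c (a : K)) }
    (fun a b => Subtype.ext (D.leibniz (a : K) (b : K)))
  let A : IntermediateField S K := algebraicClosure S K
  have hst : IsScalarTower ℂ A K := IsScalarTower.of_algebraMap_eq fun x => rfl
  have hst2 : IsScalarTower ℂ S A := IsScalarTower.of_algebraMap_eq fun x => rfl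
  have halg : Algebra.IsAlgebraic S A := inferInstance
  obtain ⟨DA, hDA⟩ := exists_ext (E := A) dS
  have hxA : x ∈ A := mem_algebraicClosure_iff.2 hx
  have h1 := ext_unique (F := S) (L := A) (E := K) (D := dS) (DL := DA) (DE := D) hDA
    (fun y => rfl) ⟨x, hxA⟩
  have h2 : D x = ((DA ⟨x, hxA⟩ : A) : K) := h1
  rw [h2]
  exact mem_algebraicClosure_iff.1 (DA ⟨x, hxA⟩).2

/-- the algebraic closure is a good base of towers -/
theorem R0_good {D : Derivation ℂ F F} (hD : D ≠ 0) {DE : Derivation ℂ E E}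
    (hDE : ∀ x, DE (algebraMap F E x) = algebraMap F E (D x)) (hh : ∀ n, 0 ≤ h n)
    (hd : Sm h fun n => disc ℂ F (L n)) (hf : Sm h fun n => Module.finrank F (L n)) :
    GoodB (DK σ DE) (R0 σ L hh).toSubalgebra :=
  goodB_field _ fun _ hx => stab_alg (fun _ hy => SF_stab hD hDE hh hd hf hy) hx

/-- **Algebraic sequences are small.** -/
theorem small_of_alg (hh : ∀ n, 0 ≤ h n) {z : ∀ n, L n}
    (hz : IsAlgebraic (R0 σ L hh).toSubalgebra (kl σ L z)) : SmS L h z := by
  have h1 : IsAlgebraic (SF σ L hh).toSubalgebra (kl σ L z) :=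
    alg_trans (fun x hx => SF_le hx) (fun x hx => hx) hz
  obtain ⟨p, hp0, hp⟩ := h1
  have h2 : ∀ i, ∃ a : ∀ n, L n, SmS L h a ∧ kl σ L a = p.coeff i := fun i => (p.coeff i).2
  choose e he1 he2 using h2
  set N := p.natDegree with hN
  have h3 : kl σ L (∑ i ∈ Finset.range (N + 1), e i * z ^ i) = 0 := by
    rw [map_sum, ← hp, Polynomial.aeval_eq_sum_range]
    refine Finset.sum_congr rfl fun i _ => ?_
    rw [map_mul, map_pow, he2, Algebra.smul_def]
    rfl
  rw [kl_zero] at h3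
  have h4 : ∀ᶠ n in (hyperfilter ℕ : Filter ℕ), e N n ≠ 0 := by
    have h5 : ¬ kl σ L (e N) = 0 := by
      rw [he2]
      intro h6
      exact hp0 (Polynomial.leadingCoeff_eq_zero.1 (Subtype.ext h6))
    rw [kl_zero] at h5
    exact Ultrafilter.eventually_not.2 h5
  have h6 : Sm h fun n => hgt ℂ (e N n) + ∑ i ∈ Finset.range N, hgt ℂ (e i n) :=
    Sm.add (he1 N) (Sm.sum hh _ fun i _ => he1 i)
  refine h6.mono ?_
  filter_upwards [h3, h4] with n h7 h8
  have := isFF_inter (k := ℂ) (L n)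
  refine hgt_root (fun i => e i n) h8 (z n) ?_
  rw [← h7, Finset.sum_apply]
  rfl

end Pool.Agent.N131.FV
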