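import Mathlib
import Pool.Agent.Y377.IL.StmA

/-!
Homogeneous coordinates for curves of the punctured line in the complement of `Q = 0`, over an
arbitrary field (after Y988/IL/Logp).
-/

set_option autoImplicit false

namespace Pool.Agent.N131.FV

open MvPolynomial

/-- homogeneity -/
theorem hom_smul {k0 : Type} [Field k0] {N d : ℕ} {Q : MvPolynomial (Fin (N + 1)) k0}
    (hQ : Q.IsHomogeneous d) {K : Type} [CommRing K] [Algebra k0 K] (v : Fin (N + 1) → K) (g : K) :
    aeval (fun j => g * v j) Q = g ^ d * aeval v Q := by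
  rw [aeval_def, aeval_def, eval₂_eq', eval₂_eq', Finset.mul_sum]
  refine Finset.sum_congr rfl fun s hs => ?_
  have h1 : ∑ i, s i = d := by
    have := hQ (mem_support_iff.1 hs)
    rw [← this, Finsupp.weight_apply, Finsupp.sum_fintype]
    · simp
    · simp
  simp only [mul_pow, Finset.prod_mul_distrib, Finset.prod_pow_eq_pow_sum, h1]
  ring

/-- homogeneous coordinates of punctured rational curves -/
theorem logp {k0 : Type} [Field k0] {N d : ℕ} {Q : MvPolynomial (Fin (N + 1)) k0} (hd : 0 < d)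
    (hQ : Q.IsHomogeneous d) {M : Type} [Field M] [Algebra k0 M] (v : Fin (N + 1) → RatFunc M)
    (w : RatFunc M) (l : Fin (N + 1)) (hl : v l = 1) (hw : aeval v Q * w = 1)
    (hα : ∀ α : Fin (N + 1) →₀ ℕ, (∑ j, α j = d) → ∃ (p : Polynomial M) (k : ℕ),
      (∏ j, v j ^ α j) * w * RatFunc.X ^ k = algebraMap (Polynomial M) (RatFunc M) p) :
    ∃ (P : Fin (N + 1) → Polynomial M) (g : RatFunc M), g ≠ 0 ∧
      (∀ j, algebraMap (Polynomial M) (RatFunc M) (P j) = g * v j) ∧
      ∃ (c : M) (k : ℕ), c ≠ 0 ∧ aeval P Q = Polynomial.C c * Polynomial.X ^ k := by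
  classical
  obtain ⟨φ, hφ⟩ : ∃ φ : Polynomial M →+* RatFunc M, φ = algebraMap _ _ := ⟨_, rfl⟩
  have hinj : Function.Injective φ := by
    rw [hφ]
    exact RatFunc.algebraMap_injective M
  have hX : φ Polynomial.X = RatFunc.X := by rw [hφ]; exact RatFunc.algebraMap_X
  have hX0 : (RatFunc.X : RatFunc M) ≠ 0 := RatFunc.X_ne_zero
  have hw0 : w ≠ 0 := by
    rintro rfl
    rw [mul_zero] at hw
    exact zero_ne_one hw
  rw [← hφ]
  rw [← hφ] at hα
  have sg : ∀ (i : Fin (N + 1)) (a : ℕ), ∑ x, (Finsupp.single i a : Fin (N + 1) →₀ ℕ) x = a := by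
    intro i a
    rw [Finset.sum_eq_single i]
    · simp
    · intro b _ hb
      exact Finsupp.single_eq_of_ne hb
    · simp
  -- the polynomials R_j
  have h1 : ∀ j, ∃ (p : Polynomial M) (k : ℕ), v j * w * RatFunc.X ^ k = φ p := by
    intro j
    obtain ⟨p, k, h⟩ := hα (Finsupp.single j 1 + Finsupp.single l (d - 1)) (by
      simp only [Finsupp.add_apply, Finset.sum_add_distrib]
      rw [sg, sg]
      omega)
    refine ⟨p, k, ?_⟩
    rw [← h]
    congr 2
    simp only [Finsupp.add_apply, pow_add, Finset.prod_mul_distrib]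
    have e1 : ∏ i, v i ^ (Finsupp.single j 1 : Fin (N + 1) →₀ ℕ) i = v j := by
      rw [Finset.prod_eq_single j]
      · simp
      · intro b _ hb
        rw [Finsupp.single_eq_of_ne hb, pow_zero]
      · simp
    have e2 : ∏ i, v i ^ (Finsupp.single l (d - 1) : Fin (N + 1) →₀ ℕ) i = 1 := by
      refine Finset.prod_eq_one fun i _ => ?_
      by_cases hi : i = l
      · rw [hi, hl, one_pow]
      · rw [Finsupp.single_eq_of_ne hi, pow_zero]
    rw [e1, e2, mul_one]
  choose p k hp using h1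
  obtain ⟨m, hm⟩ : ∃ m, m = ∑ j, k j := ⟨_, rfl⟩
  have hk : ∀ j, k j ≤ m := fun j => by
    rw [hm]
    exact Finset.single_le_sum (fun _ _ => Nat.zero_le _) (Finset.mem_univ j)
  obtain ⟨R, hR⟩ : ∃ R : Fin (N + 1) → Polynomial M, ∀ j, R j = p j * Polynomial.X ^ (m - k j) :=
    ⟨_, fun _ => rfl⟩
  have hR1 : ∀ j, φ (R j) = v j * w * RatFunc.X ^ m := by
    intro j
    rw [hR, map_mul, map_pow, hX, ← hp, mul_assoc, ← pow_add, Nat.add_sub_cancel' (hk j)]
  have hRl : R l ≠ 0 := by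
    intro h
    have := hR1 l
    rw [h, map_zero, hl, one_mul] at this
    exact mul_ne_zero hw0 (pow_ne_zero _ hX0) this.symm
  obtain ⟨g0, hg0⟩ : ∃ g0, g0 = Submodule.IsPrincipal.generator (Ideal.span (Set.range R)) :=
    ⟨_, rfl⟩
  have hspan : Ideal.span (Set.range R) = Ideal.span {g0} := by
    rw [hg0, Ideal.span_singleton_generator]
  have hdv : ∀ j, g0 ∣ R j := by
    intro j
    rw [← Ideal.mem_span_singleton, ← hspan]
    exact Ideal.subset_span ⟨j, rfl⟩
  choose P hP using hdv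
  have hg00 : g0 ≠ 0 := by
    rintro rfl
    rw [hP l, zero_mul] at hRl
    exact hRl rfl
  have hone : Ideal.span (Set.range P) = ⊤ := by
    rw [Ideal.eq_top_iff_one]
    have h2 : g0 ∈ Ideal.span (Set.range R) := by
      rw [hspan]
      exact Ideal.mem_span_singleton_self g0
    rw [Ideal.mem_span_range_iff_exists_fun] at h2 ⊢
    obtain ⟨c, hc⟩ := h2
    refine ⟨c, ?_⟩
    refine mul_left_cancel₀ hg00 ?_
    rw [mul_one, Finset.mul_sum]
    conv_rhs => rw [← hc]
    refine Finset.sum_congr rfl fun i _ => ?_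
    rw [hP i]
    ring
  have hφg : φ g0 ≠ 0 := (map_ne_zero_iff φ hinj).2 hg00
  obtain ⟨g, hg⟩ : ∃ g : RatFunc M, g = w * RatFunc.X ^ m / φ g0 := ⟨_, rfl⟩
  have hgne : g ≠ 0 := by
    rw [hg]
    exact div_ne_zero (mul_ne_zero hw0 (pow_ne_zero _ hX0)) hφg
  have hPg : ∀ j, φ (P j) = g * v j := by
    intro j
    have h2 := hR1 j
    rw [hP j, map_mul, mul_comm] at h2
    rw [hg]
    field_simp
    rw [h2]
    ring
  have hQP : φ (aeval P Q) = g ^ d * aeval v Q := by
    rw [← hom_smul hQ]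
    have h2 : (fun j => g * v j) = fun j => φ (P j) := funext fun j => (hPg j).symm
    rw [h2, hφ]
    have := MvPolynomial.aeval_algebraMap_apply (A := Polynomial M) (RatFunc M) P Q
    rw [← this]
    rfl
  refine ⟨P, g, hgne, hPg, ?_⟩
  have h3 : ∀ j, ∃ (q : Polynomial M) (n : ℕ), P j ^ d * Polynomial.X ^ n = aeval P Q * q := by
    intro j
    obtain ⟨q, n, h⟩ := hα (Finsupp.single j d) (sg j d)
    refine ⟨q, n, hinj ?_⟩
    have e1 : ∏ i, v i ^ (Finsupp.single j d : Fin (N + 1) →₀ ℕ) i = v j ^ d := by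
      rw [Finset.prod_eq_single j]
      · simp
      · intro b _ hb
        rw [Finsupp.single_eq_of_ne hb, pow_zero]
      · simp
    rw [e1] at h
    rw [map_mul, map_mul, map_pow, map_pow, hX, hPg, hQP, ← h, mul_pow]
    calc g ^ d * v j ^ d * RatFunc.X ^ n = g ^ d * 1 * (v j ^ d * RatFunc.X ^ n) := by ring
      _ = _ := by rw [← hw]; ring
  choose q n hq using h3
  obtain ⟨K, hK⟩ : ∃ K, K = ∑ j, n j := ⟨_, rfl⟩
  have hnK : ∀ j, n j ≤ K := fun j => by
    rw [hK]
    exact Finset.single_le_sum (fun _ _ => Nat.zero_le _) (Finset.mem_univ j)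
  have h4 : ∀ x ∈ Ideal.span ((fun x => x ^ d) '' Set.range P),
      aeval P Q ∣ x * Polynomial.X ^ K := by
    intro x hx
    induction hx using Submodule.span_induction with
    | mem x h =>
      obtain ⟨_, ⟨j, rfl⟩, rfl⟩ := h
      refine ⟨q j * Polynomial.X ^ (K - n j), ?_⟩
      rw [← mul_assoc, ← hq, mul_assoc, ← pow_add, Nat.add_sub_cancel' (hnK j)]
    | zero => rw [zero_mul]; exact dvd_zero _
    | add x y _ _ hx hy => rw [add_mul]; exact dvd_add hx hy
    | smul a x _ hx => rw [smul_eq_mul, mul_assoc]; exact Dvd.dvd.mul_left hx a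
  have h5 := h4 1 (by
    rw [Ideal.span_pow_eq_top _ hone d]
    exact Submodule.mem_top)
  rw [one_mul] at h5
  obtain ⟨i, _, u, hu⟩ := (dvd_prime_pow Polynomial.prime_X K).1 h5
  obtain ⟨c, hc, hcu⟩ := Polynomial.isUnit_iff.1 u.isUnit
  refine ⟨c⁻¹, i, inv_ne_zero hc.ne_zero, ?_⟩
  rw [← hu, ← hcu, mul_comm (aeval P Q), ← mul_assoc, ← Polynomial.C_mul, inv_mul_cancel₀ hc.ne_zero,
    Polynomial.C_1, one_mul]

end Pool.Agent.N131.FV
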