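import Mathlib
import Pool.Agent.Y43.IL.Cn
import Pool.Agent.Y297.IL.Ce

/-!
Families of rational curves which are constant on the kernel of the derivation.
-/

set_option autoImplicit false

namespace Pool.Agent.N131.FV

open Pool.Agent.Y377.EL Pool.Agent.Y377.IL Pool.Agent.Y297.IL

theorem cn' (hEXP : S_EXP) {K : Type} [Field K] [Algebra ℂ K] (δ : Derivation ℂ K K)
    (S : Subalgebra ℂ K) (hS : ∀ s ∈ S, ∃ k : ℕ, (en δ ^ k) s = 0) :
    ∃ φ : frac S →ₐ[ℂ] RatFunc K,
      (∀ (x : frac S) (c : K), φ x = algebraMap K (RatFunc K) c → δ (x : K) = 0) ∧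
      (∀ x : frac S, (x : K) ∈ S → ∃ p : Polynomial K,
        φ x = algebraMap (Polynomial K) (RatFunc K) p) ∧
      ∀ x : frac S, δ (x : K) = 0 → φ x = algebraMap K (RatFunc K) x := by
  have hch : CharZero K := charZero_of_injective_algebraMap (algebraMap ℂ K).injective
  obtain ⟨e, he, -⟩ := hEXP K δ
  have hcoe : ∀ (x : K) (n : ℕ), PowerSeries.coeff n (e x) = (en δ ^ n) x / (n.factorial : K) := by
    intro x n
    rw [he, expD, PowerSeries.coeff_mk]
  have hpol : ∀ s : S, ∃ p : Polynomial K, (p : PowerSeries K) = e (s : K) := by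
    intro s
    obtain ⟨k, hk⟩ := hS s s.2
    refine ⟨PowerSeries.trunc k (e (s : K)), ?_⟩
    ext n
    rw [Polynomial.coeff_coe, PowerSeries.coeff_trunc]
    split_ifs with h
    · rfl
    · rw [hcoe]
      obtain ⟨m, rfl⟩ : ∃ m, n = m + k := ⟨n - k, by omega⟩
      rw [pow_add, Module.End.mul_apply, hk, map_zero, zero_div]
  choose g hg using hpol
  have hginj : ∀ p q : Polynomial K, (p : PowerSeries K) = q → p = q :=
    fun p q h => Polynomial.coe_injective K h
  let G : S →ₐ[ℂ] Polynomial K :=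
    { toFun := g
      map_one' := hginj _ _ (by rw [hg, OneMemClass.coe_one, map_one, Polynomial.coe_one])
      map_mul' := fun a b => hginj _ _ (by
        rw [hg, MulMemClass.coe_mul, map_mul, Polynomial.coe_mul, hg, hg])
      map_zero' := hginj _ _ (by rw [hg, ZeroMemClass.coe_zero, map_zero, Polynomial.coe_zero])
      map_add' := fun a b => hginj _ _ (by
        rw [hg, AddMemClass.coe_add, map_add, Polynomial.coe_add, hg, hg])
      commutes' := fun c => hginj _ _ (by
        rw [hg, Subalgebra.coe_algebraMap, AlgHom.commutes,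
          IsScalarTower.algebraMap_apply ℂ K (Polynomial K), Polynomial.algebraMap_eq,
          Polynomial.coe_C, IsScalarTower.algebraMap_apply ℂ K (PowerSeries K)]
        rfl) }
  have hG : ∀ s : S, (G s : PowerSeries K) = e (s : K) := hg
  have hGinj : Function.Injective G := by
    intro a b h
    have h1 : e (a : K) = e (b : K) := by rw [← hG, ← hG, h]
    exact Subtype.ext (e.toRingHom.injective h1)
  let Gr : S →ₐ[ℂ] RatFunc K := (IsScalarTower.toAlgHom ℂ (Polynomial K) (RatFunc K)).comp G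
  have hGr : ∀ s : S, Gr s = algebraMap (Polynomial K) (RatFunc K) (G s) := fun s => rfl
  have hGrinj : Function.Injective Gr := fun a b h =>
    hGinj (RatFunc.algebraMap_injective K h)
  let _ : Algebra S (frac S) := (Subalgebra.inclusion
    (show S ≤ (frac S).toSubalgebra from fun x hx => le_frac S hx)).toRingHom.toAlgebra
  have hcoe' : ∀ s : S, ((algebraMap S (frac S) s : frac S) : K) = s := fun s => rfl
  have : IsScalarTower ℂ S (frac S) := IsScalarTower.of_algebraMap_eq fun c => rfl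
  have : IsFractionRing S (frac S) := by
    refine { map_units := ?_, surj := ?_, exists_of_eq := ?_ }
    · rintro ⟨y, hy⟩
      have hy0 : y ≠ 0 := nonZeroDivisors.ne_zero hy
      refine IsUnit.mk0 _ ?_
      intro h
      apply hy0
      apply Subtype.ext
      have h1 : ((algebraMap S (frac S) y : frac S) : K) = ((0 : frac S) : K) :=
        congrArg (fun z : frac S => (z : K)) h
      exact h1
    · rintro ⟨x, hx⟩
      obtain ⟨r, hr, hr0, hrx⟩ := hx
      refine ⟨(⟨r * x, hrx⟩, ⟨⟨r, hr⟩, ?_⟩), ?_⟩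
      · exact mem_nonZeroDivisors_of_ne_zero (fun h => hr0 (congrArg Subtype.val h))
      · apply Subtype.ext
        change x * r = r * x
        ring
    · intro x y h
      refine ⟨1, ?_⟩
      have h1 : ((algebraMap S (frac S) x : frac S) : K) = ((algebraMap S (frac S) y : frac S) : K) :=
        congrArg (fun z : frac S => (z : K)) h
      have h2 : x = y := Subtype.ext h1
      rw [h2]
  refine ⟨IsFractionRing.liftAlgHom (g := Gr) hGrinj, ?_, ?_, ?_⟩
  · intro x c hxc
    obtain ⟨r, hr, hr0, hrx⟩ := x.2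
    have h1 : algebraMap S (frac S) ⟨r, hr⟩ * x = algebraMap S (frac S) ⟨r * x, hrx⟩ :=
      Subtype.ext rfl
    have h2 := congrArg (IsFractionRing.liftAlgHom (g := Gr) hGrinj) h1
    rw [map_mul, hxc, IsFractionRing.liftAlgHom_apply, IsFractionRing.liftAlgHom_apply,
      IsFractionRing.lift_algebraMap, IsFractionRing.lift_algebraMap] at h2
    have h3 : G ⟨r, hr⟩ * Polynomial.C c = G ⟨r * x, hrx⟩ := by
      apply RatFunc.algebraMap_injective K
      rw [map_mul, ← Polynomial.algebraMap_eq, ← IsScalarTower.algebraMap_apply]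
      exact h2
    have h4 := congrArg (fun p : Polynomial K => (p : PowerSeries K)) h3
    simp only [Polynomial.coe_mul, hG, Polynomial.coe_C] at h4
    rw [map_mul] at h4
    have hr0' : e r ≠ 0 := (map_ne_zero_iff e.toRingHom e.toRingHom.injective).2 hr0
    have h5 : PowerSeries.C c = e (x : K) := mul_left_cancel₀ hr0' h4
    have h6 := hcoe (x : K) 1
    rw [← h5, PowerSeries.coeff_C, if_neg one_ne_zero, pow_one, Nat.factorial_one, Nat.cast_one,
      div_one] at h6
    exact h6.symm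
  · intro x hx
    refine ⟨G ⟨x, hx⟩, ?_⟩
    have h1 : x = algebraMap S (frac S) ⟨x, hx⟩ := Subtype.ext rfl
    conv_lhs => rw [h1]
    rw [IsFractionRing.liftAlgHom_apply, IsFractionRing.lift_algebraMap]
    rfl
  · intro x hx0
    obtain ⟨r, hr, hr0, hrx⟩ := x.2
    have h1 : algebraMap S (frac S) ⟨r, hr⟩ * x = algebraMap S (frac S) ⟨r * x, hrx⟩ :=
      Subtype.ext rfl
    have hC : e (x : K) = PowerSeries.C (x : K) := by
      ext n
      rw [hcoe, PowerSeries.coeff_C]
      split_ifs with hn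
      · subst hn
        simp
      · obtain ⟨m, rfl⟩ : ∃ m, n = m + 1 := ⟨n - 1, by omega⟩
        rw [pow_succ, Module.End.mul_apply]
        change (en δ ^ m) (δ (x : K)) / _ = 0
        rw [hx0, map_zero, zero_div]
    have h3 : G ⟨r, hr⟩ * Polynomial.C (x : K) = G ⟨r * x, hrx⟩ := by
      apply hginj
      rw [Polynomial.coe_mul, Polynomial.coe_C, hG, hG, ← hC]
      exact (map_mul e _ _).symm
    have h2 := congrArg (IsFractionRing.liftAlgHom (g := Gr) hGrinj) h1
    have hlift : ∀ s : S, IsFractionRing.liftAlgHom (g := Gr) hGrinj (algebraMap S (frac S) s) =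
        Gr s := fun s => IsFractionRing.lift_algebraMap hGrinj s
    rw [map_mul, hlift, hlift] at h2
    have h4 : Gr ⟨r, hr⟩ ≠ 0 := by
      rw [Ne, map_eq_zero_iff Gr hGrinj]
      intro h0
      exact hr0 (congrArg Subtype.val h0)
    apply mul_left_cancel₀ h4
    refine Eq.trans h2 ?_
    change Gr _ = _
    rw [hGr, hGr, ← h3, map_mul]
    rfl

theorem ce' {K : Type} [Field K] [Algebra ℂ K] (δ : Derivation ℂ K K) (S : Subalgebra ℂ K)
    (h : ∀ s ∈ S, s ∈ ⨆ q : ℚ, Subalgebra.toSubmodule S ⊓ (en δ).eigenspace (q : ℂ))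
    (t : Finset K) (ht : ∀ x ∈ t, x ∈ frac S) :
      ∃ (S0 : Subalgebra ℂ K) (φ : frac S0 →ₐ[ℂ] RatFunc K), S0 ≤ S ∧ (∀ x ∈ t, x ∈ frac S0) ∧
        (∀ x ∈ t, x ∈ S → x ∈ S0) ∧
        (∀ (x : frac S0) (c : K), φ x = algebraMap K (RatFunc K) c → δ (x : K) = 0) ∧
        (∀ x : frac S0, (x : K) ∈ S0 → ∃ (p : Polynomial K) (k : ℕ),
          φ x * RatFunc.X ^ k = algebraMap (Polynomial K) (RatFunc K) p) ∧
        (∀ x ∈ S, δ x = 0 → x ∈ S0) ∧
        ∀ x : frac S0, (x : K) ∈ S → δ (x : K) = 0 → φ x = algebraMap K (RatFunc K) x := by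
  obtain ⟨N, hN, hN'⟩ := exists_den_fin h t ht
  obtain ⟨φ, hφ⟩ := exists_phi (δ := δ) (S := S) hN
  have hker : ∀ x ∈ S, δ x = 0 → x ∈ V δ S N 0 := fun x hx h0 => mem_V.2 ⟨hx, by
    rw [h0]
    unfold ev
    simp⟩
  refine ⟨S0 δ S N, φ, S0_le N, fun x hx => (hN' x hx).1,
    fun x hx => (hN' x hx).2, ?_, ?_, fun x hx h0 => V_le_S0 (hker x hx h0), ?_⟩
  · rintro ⟨x, hx⟩ c hc
    obtain ⟨r, ⟨g, hg⟩, hr0, ⟨f, hf⟩⟩ := hx
    have hg' : sg (g : AddMonoidAlgebra K ℤ) = r := hg
    have hf' : sg (f : AddMonoidAlgebra K ℤ) = r * x := hf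
    have hx' : x ∈ frac (S0 δ S N) := ⟨r, ⟨g, hg⟩, hr0, ⟨f, hf⟩⟩
    have m1 : sg (g : AddMonoidAlgebra K ℤ) ∈ frac (S0 δ S N) := le_frac _ ⟨g, rfl⟩
    have m2 : sg (f : AddMonoidAlgebra K ℤ) ∈ frac (S0 δ S N) := le_frac _ ⟨f, rfl⟩
    have e1 : (⟨sg (f : AddMonoidAlgebra K ℤ), m2⟩ : frac (S0 δ S N)) =
        ⟨sg (g : AddMonoidAlgebra K ℤ), m1⟩ * ⟨x, hx'⟩ := by
      apply Subtype.ext
      show sg (f : AddMonoidAlgebra K ℤ) = sg (g : AddMonoidAlgebra K ℤ) * x
      rw [hf', hg']
    have e2 : th (f : AddMonoidAlgebra K ℤ) =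
        th (g : AddMonoidAlgebra K ℤ) * algebraMap K (RatFunc K) c := by
      have := congrArg φ e1
      rw [map_mul, hφ _ f.2, hφ _ g.2] at this
      rw [this]
      congr 1
    have e3 : (f : AddMonoidAlgebra K ℤ) = c • (g : AddMonoidAlgebra K ℤ) := by
      apply th_inj
      rw [e2, map_smul, Algebra.smul_def, mul_comm]
    have e4 : ∀ m, (f : AddMonoidAlgebra K ℤ).coeff m =
        c * (g : AddMonoidAlgebra K ℤ).coeff m := by
      intro m
      rw [e3, AddMonoidAlgebra.coeff_smul_apply, smul_eq_mul]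
    have hsub : (f : AddMonoidAlgebra K ℤ).coeff.support ⊆
        (g : AddMonoidAlgebra K ℤ).coeff.support := by
      intro m hm
      rw [Finsupp.mem_support_iff] at hm ⊢
      intro h0
      apply hm
      rw [e4, h0, mul_zero]
    obtain ⟨a1, a2⟩ := delta_sg f.2 hsub
    obtain ⟨b1, b2⟩ := delta_sg g.2 (Finset.Subset.refl _)
    have c1 : sg (f : AddMonoidAlgebra K ℤ) = c * sg (g : AddMonoidAlgebra K ℤ) := by
      rw [a1, b1, Finset.mul_sum]
      exact Finset.sum_congr rfl fun m _ => e4 m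
    have c2 : δ (sg (f : AddMonoidAlgebra K ℤ)) = c * δ (sg (g : AddMonoidAlgebra K ℤ)) := by
      rw [a2, b2, Finset.mul_sum]
      refine Finset.sum_congr rfl fun m _ => ?_
      rw [e4 m, Algebra.smul_def, Algebra.smul_def]
      ring
    rw [hf', hg'] at c1 c2
    have hcx : x = c := by
      rw [mul_comm c] at c1
      exact mul_left_cancel₀ hr0 c1
    rw [δ.leibniz, hcx] at c2
    simp only [smul_eq_mul] at c2
    have c3 : r * δ c = 0 := by linear_combination c2
    show δ x = 0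
    rw [hcx]
    exact (mul_eq_zero.1 c3).resolve_left hr0
  · rintro ⟨x, hx⟩ hx0
    obtain ⟨f, hf⟩ := hx0
    have hf' : sg (f : AddMonoidAlgebra K ℤ) = x := hf
    subst hf'
    rw [hφ _ f.2]
    obtain ⟨p, k, h1, _⟩ := th_poly (f : AddMonoidAlgebra K ℤ)
    exact ⟨p, k, h1⟩
  · rintro ⟨x, hx⟩ hxS hx0
    have h0 := hker x hxS hx0
    have hf : AddMonoidAlgebra.single (0 : ℤ) x ∈ GG δ S N := by
      classical
      intro m'
      rw [AddMonoidAlgebra.coeff_single, Finsupp.single_apply]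
      split_ifs with h
      · rw [← h]
        exact h0
      · exact Submodule.zero_mem _
    have hsg : sg (AddMonoidAlgebra.single (0 : ℤ) x) = x := by
      unfold sg
      rw [AddMonoidAlgebra.lift_single]
      simp
    have h1 := hφ _ hf (by rw [hsg]; exact hx)
    have h2 : (⟨sg (AddMonoidAlgebra.single (0 : ℤ) x), by rw [hsg]; exact hx⟩ : frac (S0 δ S N)) =
        ⟨x, hx⟩ := Subtype.ext hsg
    rw [h2] at h1
    rw [h1]
    unfold th
    rw [AddMonoidAlgebra.lift_single]
    change x • pw (Multiplicative.ofAdd 0) = _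
    rw [ofAdd_zero, map_one, Algebra.smul_def, mul_one]

end Pool.Agent.N131.FV
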