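import Mathlib
import Pool.Agent.Y377.IL.All
import Pool.Agent.N131.FV.Sp
import Pool.Agent.N131.FV.Cn

/-!
The induction over towers of linear differential equations, relative to the base.
-/

set_option autoImplicit false

namespace Pool.Agent.N131.FV

open Pool.Agent.Y377.EL Pool.Agent.Y377.IL

variable {K : Type} [Field K] [Algebra ℂ K]

/-- a family of rational curves through the elements of the finite set `t` of `frac S`, which is
constant on the base `R0` -/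
def RatR (R0 S : Subalgebra ℂ K) (t : Finset K) : Prop :=
  ∃ (S0 : Subalgebra ℂ K) (φ : frac S0 →ₐ[ℂ] RatFunc K), S0 ≤ S ∧ (∀ x ∈ t, x ∈ frac S0) ∧
    (∀ x ∈ t, x ∈ S → x ∈ S0) ∧
    (∃ x : frac S0, (x : K) ∈ t ∧ ∀ c : K, φ x ≠ algebraMap K (RatFunc K) c) ∧
    (∀ x : frac S0, (x : K) ∈ S0 → ∃ (p : Polynomial K) (k : ℕ),
      φ x * RatFunc.X ^ k = algebraMap (Polynomial K) (RatFunc K) p) ∧
    R0 ≤ S0 ∧ ∀ x : frac S0, (x : K) ∈ R0 → φ x = algebraMap K (RatFunc K) x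

theorem LTow.le' {D : Derivation ℂ K K} {R0 R : Subalgebra ℂ K} (h : LTow D R0 R) : R0 ≤ R := by
  induction h with
  | base => exact le_rfl
  | step _ _ ih => exact ih.trans (le_mat _ _ _)

/-- **The induction over the tower.** -/
theorem tow_main {D : Derivation ℂ K K} (hC : Cst D)
    {R0 R : Subalgebra ℂ K} (h0 : GoodB D R0) (h : LTow D R0 R) :
    ∀ S : Subalgebra ℂ K, R ≤ S → Stab D S → FGmod R S →
      ∀ t : Finset K, (∀ x ∈ t, x ∈ frac S) → (∃ x ∈ t, ¬ IsAlgebraic R0 x) →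
        RatR R0 S t := by
  classical
  induction h with
  | base =>
    intro S hRS hS hfg t ht ⟨x, hx, hxc⟩
    exact absurd (frac_alg (fun y hy => (fgmod_alg hRS hfg hy).isAlgebraic) (ht x hx)) hxc
  | @step R n X Y M hR hF ih =>
    intro S hRS hS hfg t ht hne
    obtain ⟨hRst, hRsim, hRnoe⟩ := LTow.good hyp.noe hyp.rng hC h0 hR
    obtain ⟨hRst', hRsim', hRnoe'⟩ := LTow.good hyp.noe hyp.rng hC h0 (LTow.step hR hF)
    have hSint : ∀ x ∈ S, IsIntegral (mat R X Y) x := fun x hx => fgmod_alg hRS hfg hx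
    have hSsim : DSimple D S := hRsim'.alg hRS hRst' fun x hx => (hSint x hx).isAlgebraic
    by_cases hall : ∀ x ∈ t, IsAlgebraic R x
    · -- everything is algebraic over the previous ring
      have hle : R ≤ S ⊓ algC R := le_inf ((le_mat R X Y).trans hRS) fun x hx => alg_of_mem hx
      have hst : Stab D (S ⊓ algC R) := fun x hx => ⟨hS x hx.1, alg_der hRst hx.2⟩
      have hfg1 : FGmod R (S ⊓ algC R) :=
        hyp.fb K D R (mat R X Y) S (le_mat R X Y) hRS hRst hRst' hS hRsim' hRnoe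
          (hyp.fa K D R hRst hRsim hRnoe n X Y M hF) hfg
      have ht1 : ∀ x ∈ t, x ∈ frac (S ⊓ algC R) := by
        intro x hx
        obtain ⟨r, hr, hr0, hrx⟩ := hyp.fr K D R S ((le_mat R X Y).trans hRS) hRst hS hSsim x
          (ht x hx) (hall x hx)
        exact ⟨r, hle hr, hr0, hrx, (alg_of_mem hr).mul (hall x hx)⟩
      obtain ⟨S0, φ, h1, h2, h3, h4, h5, h6, h7⟩ := ih _ hle hst hfg1 t ht1 hne
      exact ⟨S0, φ, h1.trans inf_le_left, h2, fun x hx hxS =>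
        h3 x hx ⟨hxS, hall x hx⟩, h4, h5, h6, h7⟩
    · push Not at hall
      obtain ⟨x, hx, hxt⟩ := hall
      have hxa : IsAlgebraic (mat R X Y) x :=
        frac_alg (fun y hy => (hSint y hy).isAlgebraic) (ht x hx)
      obtain ⟨δ, ξ, hδ1, hδ2, hδ3⟩ := hyp.der K D hC R hRst n X Y M hF x hxa hxt
      obtain ⟨-, -, -, hN4⟩ := hyp.noe K D R n X Y M hF
      obtain ⟨hY, hst, hcom⟩ := hN4 δ hδ1 ξ hδ3
      have hge := hyp.ge K δ R n X Y ξ hδ1 hδ3 hY
      obtain ⟨δ', hst', hcom', hx', hker, hor⟩ := sp' Pool.Agent.Y407.IL.t_GR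
        Pool.Agent.Y151.IL.t_EXT D δ (mat R X Y) hRst' hst (hcom hRst) hge x hxa hδ2
      have hR0 : ∀ r ∈ R0, δ' r = 0 := fun r hr =>
        hker r ((le_mat R X Y) (LTow.le' hR hr)) (hδ1 r (LTow.le' hR hr))
      have hR0S : R0 ≤ S := (LTow.le' hR).trans ((le_mat R X Y).trans hRS)
      obtain ⟨hstS, -⟩ := hyp.com K D δ' (mat R X Y) S hRS hRst' hS hSsim hfg hst' hcom'
      rcases hor with hnil | hss
      · obtain ⟨φ, h1, h2, h3⟩ := cn' Pool.Agent.Y858.IL.t_EXP δ' S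
          (hyp.apn K δ' (mat R X Y) S hRS hfg hst' hstS hnil)
        refine ⟨S, φ, le_rfl, ht, fun y _ hy => hy, ⟨⟨x, ht x hx⟩, hx, fun c hc =>
          hx' (h1 ⟨x, ht x hx⟩ c hc)⟩, fun y hy => ?_, hR0S, fun y hy => h3 y (hR0 _ hy)⟩
        obtain ⟨p, hp⟩ := h2 y hy
        exact ⟨p, 0, by rw [pow_zero, mul_one, hp]⟩
      · obtain ⟨S0, φ, h1, h2, h3, h4, h5, h6, h7⟩ := ce' δ' S
          (hyp.ape K δ' (mat R X Y) S hRS hfg hst' hstS hss) t ht
        exact ⟨S0, φ, h1, h2, h3, ⟨⟨x, h2 x hx⟩, hx, fun c hc =>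
          hx' (h4 ⟨x, h2 x hx⟩ c hc)⟩, h5, fun r hr => h6 r (hR0S hr) (hR0 r hr),
          fun y hy => h7 y (hR0S hy) (hR0 _ hy)⟩

/-- the main theorem on towers -/
theorem tow_rat {D : Derivation ℂ K K} (hC : Cst D) {R0 R : Subalgebra ℂ K} (h0 : GoodB D R0)
    (hR : LTow D R0 R) {t : Finset K} (ht : ∀ x ∈ t, x ∈ frac R)
    (hne : ∃ x ∈ t, ¬ IsAlgebraic R0 x) : RatR R0 R t :=
  tow_main hC h0 hR R le_rfl (hR.good hyp.noe hyp.rng hC h0).st (fgmod_self R) t ht hne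

end Pool.Agent.N131.FV
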