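import Mathlib
import Pool.Agent.Y377.IL.Rc
import Pool.Agent.N131.FV.Rel
import Pool.Agent.N131.FV.Logp

/-!
Homogeneous coordinates for families of punctured lines, over a field of coefficients which is
contained in the base of the tower (after Y814/IL/PF).
-/

set_option autoImplicit false

namespace Pool.Agent.N131.FV

open MvPolynomial Pool.Agent.Y377.EL Pool.Agent.Y377.IL

variable {N d : ℕ} {k0 : Type} [Field k0] {K : Type} [Field K] [Algebra ℂ K] [Algebra k0 K]

/-- families of punctured lines -/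
def PFamK (x : Fin (N + 1) → K) (Q : MvPolynomial (Fin (N + 1)) k0) : Prop :=
  ∃ P : Fin (N + 1) → Polynomial K,
    (∀ G : MvPolynomial (Fin (N + 1)) k0, (∃ e, G.IsHomogeneous e) →
      (aeval P G = 0 ↔ aeval x G = 0)) ∧
    (∃ (c : K) (k : ℕ), c ≠ 0 ∧ aeval P Q = Polynomial.C c * Polynomial.X ^ k) ∧
    ∃ j k, Polynomial.derivative (P j) * P k ≠ P j * Polynomial.derivative (P k)

/-- the constants of the base in the field of fractions -/
theorem exists_alg {R0 S0 : Subalgebra ℂ K} (hk : ∀ c : k0, algebraMap k0 K c ∈ R0)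
    (h6 : R0 ≤ S0) {φ : frac S0 →ₐ[ℂ] RatFunc K}
    (h7 : ∀ x : frac S0, (x : K) ∈ R0 → φ x = algebraMap K (RatFunc K) x) :
    ∃ (_ : Algebra k0 (frac S0)) (ψ : frac S0 →ₐ[k0] RatFunc K) (v : frac S0 →ₐ[k0] K),
      (∀ x, ψ x = φ x) ∧ ∀ x, v x = (x : K) := by
  let i0 : k0 →+* frac S0 :=
    { toFun := fun c => ⟨algebraMap k0 K c, le_frac _ (h6 (hk c))⟩
      map_one' := Subtype.ext (map_one _)
      map_mul' := fun a b => Subtype.ext (map_mul _ a b)
      map_zero' := Subtype.ext (map_zero _)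
      map_add' := fun a b => Subtype.ext (map_add _ a b) }
  let _ : Algebra k0 (frac S0) := i0.toAlgebra
  refine ⟨i0.toAlgebra, { φ.toRingHom with commutes' := fun c => ?_ },
    { (frac S0).val.toRingHom with commutes' := fun c => rfl }, fun x => rfl, fun x => rfl⟩
  change φ (i0 c) = _
  rw [h7 (i0 c) (hk c)]
  rfl

theorem pf_pos {R0 S : Subalgebra ℂ K} {t : Finset K} (hk : ∀ c : k0, algebraMap k0 K c ∈ R0)
    {Q : MvPolynomial (Fin (N + 1)) k0} (hd : 0 < d) (hQ : Q.IsHomogeneous d)
    {x : Fin (N + 1) → K} {l : Fin (N + 1)} (hl : x l ≠ 0) (hQx : aeval x Q ≠ 0)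
    (hF : RatR R0 S t)
    (ht : ∀ a ∈ t, (∃ j, a = x j / x l) ∨
      ∃ α : Fin (N + 1) →₀ ℕ, ∑ j, α j = d ∧ a = (∏ j, x j ^ α j) / aeval x Q)
    (hxt : ∀ j, x j / x l ∈ t)
    (hαt : ∀ α : Fin (N + 1) →₀ ℕ, ∑ j, α j = d →
      (∏ j, x j ^ α j) / aeval x Q ∈ t ∧ (∏ j, x j ^ α j) / aeval x Q ∈ S) : PFamK x Q := by
  classical
  obtain ⟨S0, φ, -, h2, h3, ⟨a, ha, hac⟩, h5, h6, h7⟩ := hF
  obtain ⟨iA, ψ, v, hψ, hv⟩ := exists_alg hk h6 h7
  have hM : CharZero K := charZero_of_injective_algebraMap (algebraMap ℂ K).injective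
  let y : Fin (N + 1) → frac S0 := fun j => ⟨x j / x l, h2 _ (hxt j)⟩
  have hα0 : ∑ j, (Finsupp.single l d) j = d := by
    rw [Finset.sum_eq_single l]
    · simp
    · intro j _ hj
      simp [hj.symm]
    · intro h
      exact absurd (Finset.mem_univ _) h
  have hprod0 : ∏ j, x j ^ (Finsupp.single l d) j = x l ^ d := by
    rw [Finset.prod_eq_single l]
    · simp
    · intro j _ hj
      simp [hj.symm]
    · intro h
      exact absurd (Finset.mem_univ _) h
  have huu0 : x l ^ d / aeval x Q ∈ frac S0 := by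
    rw [← hprod0]
    exact h2 _ (hαt _ hα0).1
  let uu : frac S0 := ⟨x l ^ d / aeval x Q, huu0⟩
  have hyl : y l = 1 := Subtype.ext (div_self hl)
  -- values of forms over the fraction field
  have e4 : ∀ (e : ℕ) (G : MvPolynomial (Fin (N + 1)) k0), G.IsHomogeneous e →
      aeval x G = x l ^ e * aeval (fun j => x j / x l) G := by
    intro e G hG
    rw [← hom_smul hG]
    congr 2
    funext j
    rw [mul_div_cancel₀ _ hl]
  have e5 : ∀ G : MvPolynomial (Fin (N + 1)) k0,
      ((aeval y G : frac S0) : K) = aeval (fun j => x j / x l) G := by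
    intro G
    rw [← hv]
    have := MvPolynomial.comp_aeval_apply (f := y) v G
    rw [this]
    congr 2
    funext j
    exact hv _
  have hQu : aeval y Q * uu = 1 := by
    apply Subtype.ext
    have h6 : ((aeval y Q * uu : frac S0) : K) =
        ((aeval y Q : frac S0) : K) * (x l ^ d / aeval x Q) := rfl
    rw [h6, e5]
    have h7 := e4 d Q hQ
    have h8 : ((1 : frac S0) : K) = 1 := rfl
    rw [h8]
    have h9 : aeval (fun j => x j / x l) Q * (x l ^ d / aeval x Q) =
        (x l ^ d * aeval (fun j => x j / x l) Q) / aeval x Q := by ring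
    rw [h9, ← h7, div_self hQx]
  have hφe : ∀ G : MvPolynomial (Fin (N + 1)) k0,
      aeval (fun j => φ (y j)) G = φ (aeval y G) := by
    intro G
    rw [← hψ, MvPolynomial.comp_aeval_apply (f := y) ψ G]
    congr 2
    funext j
    exact (hψ _).symm
  have hQw : aeval (fun j => φ (y j)) Q * φ uu = 1 := by
    rw [hφe, ← map_mul, hQu, map_one]
  have hmon : ∀ α : Fin (N + 1) →₀ ℕ, ∑ j, α j = d →
      (((∏ j, y j ^ α j) * uu : frac S0) : K) = (∏ j, x j ^ α j) / aeval x Q := by
    intro α hα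
    have h6 : (((∏ j, y j ^ α j) * uu : frac S0) : K) =
        ((∏ j, y j ^ α j : frac S0) : K) * (x l ^ d / aeval x Q) := rfl
    have h7 : ((∏ j, y j ^ α j : frac S0) : K) = ∏ j, (x j / x l) ^ α j := by
      have := map_prod (frac S0).val (fun j => y j ^ α j) Finset.univ
      exact this.trans (Finset.prod_congr rfl fun j _ => map_pow (frac S0).val (y j) (α j))
    have h8 : ∏ j, (x j / x l) ^ α j = (∏ j, x j ^ α j) / x l ^ d := by
      simp only [div_pow]
      rw [Finset.prod_div_distrib, Finset.prod_pow_eq_pow_sum, hα]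
    rw [h6, h7, h8]
    have h9 : x l ^ d ≠ 0 := pow_ne_zero _ hl
    field_simp
  obtain ⟨P, g, hg, hPg, hcQ⟩ := logp hd hQ (fun j => φ (y j)) (φ uu) l
    (by rw [hyl, map_one]) hQw (by
      intro α hα
      obtain ⟨hb1, hb2⟩ := hαt α hα
      have hb3 := h3 _ hb1 hb2
      obtain ⟨p, k, hp⟩ := h5 ((∏ j, y j ^ α j) * uu) (by rw [hmon α hα]; exact hb3)
      refine ⟨p, k, ?_⟩
      rw [← hp, map_mul, map_prod]
      simp only [map_pow])
  have hPl : P l ≠ 0 := by
    intro h0
    have h6 := hPg l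
    rw [h0, map_zero, hyl, map_one, mul_one] at h6
    exact hg h6.symm
  refine ⟨P, ?_, hcQ, ?_⟩
  · rintro G ⟨e, hG⟩
    have e1 : algebraMap (Polynomial K) (RatFunc K) (aeval P G) = g ^ e * φ (aeval y G) := by
      have e2 : algebraMap (Polynomial K) (RatFunc K) (aeval P G) =
          aeval (fun j => algebraMap (Polynomial K) (RatFunc K) (P j)) G := by
        have := MvPolynomial.comp_aeval_apply (f := P)
          (IsScalarTower.toAlgHom k0 (Polynomial K) (RatFunc K)) G
        exact this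
      rw [e2]
      have e3 : (fun j => algebraMap (Polynomial K) (RatFunc K) (P j)) =
          fun j => g * (fun j => φ (y j)) j := funext hPg
      rw [e3, hom_smul hG, hφe]
    rw [← map_eq_zero_iff _ (RatFunc.algebraMap_injective K), e1, mul_eq_zero,
      or_iff_right (pow_ne_zero _ hg), map_eq_zero_iff φ φ.injective, e4 e G hG, mul_eq_zero,
      or_iff_right (pow_ne_zero _ hl), ← e5]
    exact Subtype.ext_iff
  · by_contra hno
    push Not at hno
    have hex : ∀ j, ∃ c : K, φ (y j) = algebraMap K (RatFunc K) c := by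
      intro j
      obtain ⟨c, hc⟩ := prop_of_wronskian hPl (hno j l)
      refine ⟨c, ?_⟩
      have e7 := hPg j
      have e9 := hPg l
      rw [hyl, map_one, mul_one] at e9
      rw [hc, map_mul, e9] at e7
      have e8 : algebraMap (Polynomial K) (RatFunc K) (Polynomial.C c) =
          algebraMap K (RatFunc K) c := rfl
      rw [e8, mul_comm] at e7
      exact (mul_left_cancel₀ hg e7).symm
    choose cc hcc using hex
    rcases ht _ ha with ⟨j, hj⟩ | ⟨α, hα, haα⟩
    · apply hac (cc j)
      have e6 : a = y j := Subtype.ext hj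
      rw [e6]
      exact hcc j
    · have h6 : aeval (fun j => φ (y j)) Q = algebraMap K (RatFunc K) (aeval cc Q) := by
        have h7 : (fun j => φ (y j)) = fun j => algebraMap K (RatFunc K) (cc j) := funext hcc
        rw [h7]
        have := MvPolynomial.comp_aeval_apply (f := cc)
          (IsScalarTower.toAlgHom k0 K (RatFunc K)) Q
        exact this.symm
      have h7 : φ uu = algebraMap K (RatFunc K) (aeval cc Q)⁻¹ := by
        rw [h6] at hQw
        rw [map_inv₀]
        exact eq_inv_of_mul_eq_one_right hQw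
      apply hac ((∏ j, cc j ^ α j) * (aeval cc Q)⁻¹)
      have e6 : a = (∏ j, y j ^ α j) * uu := Subtype.ext (by rw [hmon α hα]; exact haα)
      rw [e6, map_mul, map_prod, map_mul, map_prod, h7]
      simp only [map_pow, hcc]

theorem pf_zero {R0 S : Subalgebra ℂ K} {t : Finset K} (hk : ∀ c : k0, algebraMap k0 K c ∈ R0)
    {b : k0} (hb : b ≠ 0) {x : Fin (N + 1) → K} {l : Fin (N + 1)} (hl : x l ≠ 0)
    (hF : RatR R0 S t) (ht : ∀ a ∈ t, ∃ j, a = x j / x l) (hxt : ∀ j, x j / x l ∈ t) :
    PFamK x (C b : MvPolynomial (Fin (N + 1)) k0) := by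
  classical
  obtain ⟨S0, φ, -, h2, h3, ⟨a, ha, hac⟩, h5, h6, h7⟩ := hF
  obtain ⟨iA, ψ, v, hψ, hv⟩ := exists_alg hk h6 h7
  have hM : CharZero K := charZero_of_injective_algebraMap (algebraMap ℂ K).injective
  let y : Fin (N + 1) → frac S0 := fun j => ⟨x j / x l, h2 _ (hxt j)⟩
  have hyl : y l = 1 := Subtype.ext (div_self hl)
  have e4 : ∀ (e : ℕ) (G : MvPolynomial (Fin (N + 1)) k0), G.IsHomogeneous e →
      aeval x G = x l ^ e * aeval (fun j => x j / x l) G := by
    intro e G hG
    rw [← hom_smul hG]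
    congr 2
    funext j
    rw [mul_div_cancel₀ _ hl]
  have e5 : ∀ G : MvPolynomial (Fin (N + 1)) k0,
      ((aeval y G : frac S0) : K) = aeval (fun j => x j / x l) G := by
    intro G
    rw [← hv]
    have := MvPolynomial.comp_aeval_apply (f := y) v G
    rw [this]
    congr 2
    funext j
    exact hv _
  have hφe : ∀ G : MvPolynomial (Fin (N + 1)) k0,
      aeval (fun j => φ (y j)) G = φ (aeval y G) := by
    intro G
    rw [← hψ, MvPolynomial.comp_aeval_apply (f := y) ψ G]
    congr 2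
    funext j
    exact (hψ _).symm
  obtain ⟨g0, hg0⟩ := IsLocalization.exist_integer_multiples
    (nonZeroDivisors (Polynomial K)) Finset.univ fun j => φ (y j)
  have hint : ∀ j, ∃ p : Polynomial K, algebraMap (Polynomial K) (RatFunc K) p =
      (g0 : Polynomial K) • φ (y j) := fun j => hg0 j (Finset.mem_univ j)
  choose P hP using hint
  set g : RatFunc K := algebraMap (Polynomial K) (RatFunc K) g0 with hgd
  have hg : g ≠ 0 := by
    rw [hgd, Ne, map_eq_zero_iff _ (RatFunc.algebraMap_injective K)]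
    exact nonZeroDivisors.ne_zero g0.2
  have hPg : ∀ j, algebraMap (Polynomial K) (RatFunc K) (P j) = g * φ (y j) := by
    intro j
    rw [hP, Algebra.smul_def]
  have hPl : P l ≠ 0 := by
    intro h0
    have h6 := hPg l
    rw [h0, map_zero, hyl, map_one, mul_one] at h6
    exact hg h6.symm
  refine ⟨P, ?_, ⟨algebraMap k0 K b, 0, (map_ne_zero_iff _ (algebraMap k0 K).injective).2 hb, ?_⟩,
    ?_⟩
  · rintro G ⟨e, hG⟩
    have e1 : algebraMap (Polynomial K) (RatFunc K) (aeval P G) = g ^ e * φ (aeval y G) := by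
      have e2 : algebraMap (Polynomial K) (RatFunc K) (aeval P G) =
          aeval (fun j => algebraMap (Polynomial K) (RatFunc K) (P j)) G := by
        have := MvPolynomial.comp_aeval_apply (f := P)
          (IsScalarTower.toAlgHom k0 (Polynomial K) (RatFunc K)) G
        exact this
      rw [e2]
      have e3 : (fun j => algebraMap (Polynomial K) (RatFunc K) (P j)) =
          fun j => g * (fun j => φ (y j)) j := funext hPg
      rw [e3, hom_smul hG, hφe]
    rw [← map_eq_zero_iff _ (RatFunc.algebraMap_injective K), e1, mul_eq_zero,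
      or_iff_right (pow_ne_zero _ hg), map_eq_zero_iff φ φ.injective, e4 e G hG, mul_eq_zero,
      or_iff_right (pow_ne_zero _ hl), ← e5]
    exact Subtype.ext_iff
  · rw [aeval_C, pow_zero, mul_one]
    rfl
  · by_contra hno
    push Not at hno
    have hex : ∀ j, ∃ c : K, φ (y j) = algebraMap K (RatFunc K) c := by
      intro j
      obtain ⟨c, hc⟩ := prop_of_wronskian hPl (hno j l)
      refine ⟨c, ?_⟩
      have e7 := hPg j
      have e9 := hPg l
      rw [hyl, map_one, mul_one] at e9
      rw [hc, map_mul, e9] at e7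
      have e8 : algebraMap (Polynomial K) (RatFunc K) (Polynomial.C c) =
          algebraMap K (RatFunc K) c := rfl
      rw [e8, mul_comm] at e7
      exact (mul_left_cancel₀ hg e7).symm
    choose cc hcc using hex
    obtain ⟨j, hj⟩ := ht _ ha
    apply hac (cc j)
    have e6 : a = y j := Subtype.ext hj
    rw [e6]
    exact hcc j

/-- **Families of punctured lines relative to the base.** -/
theorem fam_or {D : Derivation ℂ K K} {F R : Subalgebra ℂ K} (hC : Cst D) (hg : GoodB D F)
    (hT : LTow D F R) {x : Fin (N + 1) → K} {l : Fin (N + 1)} (hm : ∀ j, x j ∈ R) (hl : x l ≠ 0)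
    (hk : ∀ c : k0, algebraMap k0 K c ∈ F) {Q : MvPolynomial (Fin (N + 1)) k0}
    (hQ : Q.IsHomogeneous d) (hQx : aeval x Q ≠ 0)
    (hreg : ∀ β : Fin (N + 1) →₀ ℕ, ∑ j, β j = d → (∏ j, x j ^ β j) / aeval x Q ∈ R) :
    (∀ j, IsAlgebraic F (x j / x l)) ∨ PFamK x Q := by
  classical
  by_cases hall : ∀ j, IsAlgebraic F (x j / x l)
  · exact Or.inl hall
  right
  push Not at hall
  obtain ⟨j0, hj0⟩ := hall
  rcases Nat.eq_zero_or_pos d with hd | hd
  · subst hd
    obtain ⟨b, rfl⟩ : ∃ b : k0, Q = C b := ⟨coeff 0 Q,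
      totalDegree_eq_zero_iff_eq_C.1 (Nat.le_zero.1 hQ.totalDegree_le)⟩
    have hb : b ≠ 0 := by
      rintro rfl
      apply hQx
      rw [map_zero, map_zero]
    refine pf_zero (t := Finset.univ.image fun j => x j / x l) (S := R) (R0 := F) hk hb hl
      (tow_rat hC hg hT (fun a ha => ?_) ⟨x j0 / x l, Finset.mem_image.2
        ⟨j0, Finset.mem_univ j0, rfl⟩, hj0⟩) (fun a ha => ?_)
      (fun j => Finset.mem_image.2 ⟨j, Finset.mem_univ j, rfl⟩)
    · obtain ⟨j, -, rfl⟩ := Finset.mem_image.1 ha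
      exact (frac R).div_mem (le_frac R (hm j)) (le_frac R (hm l))
    · obtain ⟨j, -, rfl⟩ := Finset.mem_image.1 ha
      exact ⟨j, rfl⟩
  · let A : Finset (Fin (N + 1) →₀ ℕ) := Finset.univ.finsuppAntidiag d
    have hA : ∀ β : Fin (N + 1) →₀ ℕ, β ∈ A ↔ ∑ j, β j = d := by
      intro β
      rw [Finset.mem_finsuppAntidiag]
      exact ⟨fun h1 => h1.1, fun h1 => ⟨h1, Finset.subset_univ _⟩⟩
    let t : Finset K := (Finset.univ.image fun j => x j / x l) ∪
      A.image fun β => (∏ j, x j ^ β j) / aeval x Q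
    refine pf_pos (t := t) (S := R) (R0 := F) hk hd hQ hl hQx (tow_rat hC hg hT (fun a ha => ?_)
      ⟨x j0 / x l, Finset.mem_union_left _ (Finset.mem_image.2 ⟨j0, Finset.mem_univ j0, rfl⟩),
        hj0⟩) (fun a ha => ?_)
      (fun j => Finset.mem_union_left _ (Finset.mem_image.2 ⟨j, Finset.mem_univ j, rfl⟩))
      (fun β hβ => ⟨Finset.mem_union_right _ (Finset.mem_image.2 ⟨β, (hA β).2 hβ, rfl⟩),
        hreg β hβ⟩)
    · rcases Finset.mem_union.1 ha with h1 | h1
      · obtain ⟨j, -, rfl⟩ := Finset.mem_image.1 h1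
        exact (frac R).div_mem (le_frac R (hm j)) (le_frac R (hm l))
      · obtain ⟨β, hβ, rfl⟩ := Finset.mem_image.1 h1
        exact le_frac R (hreg β ((hA β).1 hβ))
    · rcases Finset.mem_union.1 ha with h1 | h1
      · obtain ⟨j, -, rfl⟩ := Finset.mem_image.1 h1
        exact Or.inl ⟨j, rfl⟩
      · obtain ⟨β, hβ, rfl⟩ := Finset.mem_image.1 h1
        exact Or.inr ⟨β, (hA β).1 hβ, rfl⟩

end Pool.Agent.N131.FV
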