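import Mathlib
import Pool.Agent.N131.FV.Cl
import Pool.Agent.N131.FV.Pf

/-!
Sequences of points of large height: families of punctured lines.
-/

set_option autoImplicit false

namespace Pool.Agent.N131.FV

open Filter FF MvPolynomial Pool.Agent.W603.LV Pool.Agent.W603.PV
open Pool.Agent.Y377.IL (Cst GoodB goodB_field Fund LTow mat le_mat mem_mat_left)
open Pool.Agent.N131.SU (CS gc)

theorem uf_const {f : ℕ → ℕ} {B : ℕ} (hf : ∀ n, f n ≤ B) :
    ∃ c, ∀ᶠ n in (hyperfilter ℕ : Filter ℕ), f n = c := by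
  by_contra hcon
  push Not at hcon
  have h1 : ∀ c, ∀ᶠ n in (hyperfilter ℕ : Filter ℕ), ¬ f n = c := fun c => hcon c
  have h2 : ∀ᶠ n in (hyperfilter ℕ : Filter ℕ), ∀ c ∈ Finset.range (B + 1), ¬ f n = c :=
    (Finset.eventually_all _).2 fun c _ => h1 c
  obtain ⟨n, hn⟩ := h2.exists
  exact hn (f n) (Finset.mem_range.2 (Nat.lt_succ_of_le (hf n))) rfl

theorem uf_exists {N : ℕ} {p : ℕ → Fin (N + 1) → Prop} (h : ∀ n, ∃ j, p n j) :
    ∃ j, ∀ᶠ n in (hyperfilter ℕ : Filter ℕ), p n j := by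
  by_contra hcon
  push Not at hcon
  have h1 : ∀ c, ∀ᶠ n in (hyperfilter ℕ : Filter ℕ), ¬ p n c := fun c => hcon c
  obtain ⟨n, hn⟩ := (eventually_all.2 h1).exists
  obtain ⟨j, hj⟩ := h n
  exact hn j hj

/-- minus the sum of the minimal orders of the coordinates -/
noncomputable def hp (k : Type) {L : Type} [Field k] [Field L] [Algebra k L] {ι : Type}
    (x : ι → L) : ℤ := -∑ᶠ P : Place k L, mo P x

theorem hp_le {k L : Type} [Field k] [Field L] [Algebra k L] [CharZero k] [IsFF k L]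
    [IsAlgClosed k] {N : ℕ} {x : Fin (N + 1) → L} {l : Fin (N + 1)} (hl : x l ≠ 0) :
    hp k x ≤ ∑ j, hgt k (x j / x l) := by
  classical
  have hx : ∃ c, x c ≠ 0 := ⟨l, hl⟩
  obtain ⟨T0, hT0⟩ := exists_supp (k := k) (Finset.univ : Finset (Option (Fin (N + 1))))
    (fun a => Option.elim a (x l) fun j => x j / x l)
  set T : Finset (Place k L) := T0 ∪ (mo_finite hx).toFinset with hT
  have h1 : ∀ P : Place k L, P.ord (x l) ≠ 0 → P ∈ T := fun P hP =>
    Finset.mem_union_left _ (hT0 none (Finset.mem_univ _) P hP)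
  have h2 : ∀ j, ∀ P : Place k L, P.ord (x j / x l) ≠ 0 → P ∈ T := fun j P hP =>
    Finset.mem_union_left _ (hT0 (some j) (Finset.mem_univ _) P hP)
  have h3 : ∀ P : Place k L, mo P x ≠ 0 → P ∈ T := fun P hP =>
    Finset.mem_union_right _ (by simpa using hP)
  have h4 : hp k x = -∑ P ∈ T, mo P x := by
    unfold hp
    rw [finsum_eq_sum_of_support_subset (s := T)]
    intro P hP
    exact h3 P hP
  have h5 := sum_ord_finset (x l) T h1
  rw [h4, Finset.sum_congr rfl fun j _ => hgt_finset (x j / x l) T (h2 j), Finset.sum_comm]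
  have h6 : -∑ P ∈ T, mo P x = ∑ P ∈ T, (P.ord (x l) - mo P x) := by
    rw [Finset.sum_sub_distrib, h5, zero_sub]
  rw [h6]
  refine Finset.sum_le_sum fun P _ => ?_
  obtain ⟨c, hc, hcm⟩ := exists_mo P hx
  have h7 : max (-P.ord (x c / x l)) 0 ≤ ∑ j, max (-P.ord (x j / x l)) 0 :=
    Finset.single_le_sum (f := fun j => max (-P.ord (x j / x l)) 0)
      (fun _ _ => le_max_right _ _) (Finset.mem_univ c)
  rw [P.ord_div hc hl, hcm] at h7
  have := le_max_left (-(mo P x - P.ord (x l))) 0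
  linarith

variable {F E : Type} [Field F] [Algebra ℂ F] [IsFF ℂ F] [Field E] [Algebra ℂ E] [Algebra F E]
  [IsScalarTower ℂ F E] [Algebra.IsAlgebraic F E]

section val

variable {k0 : Type} [Field k0] [Algebra k0 E] {σ : ℂ ≃+* CS} {N : ℕ}

/-- values of forms in the ultrapower -/
theorem aeval_ke [Algebra k0 (KE σ E)]
    (hk : ∀ c : k0, algebraMap k0 (KE σ E) c = cs σ E (algebraMap k0 E c))
    (a : Fin (N + 1) → ℕ → E) (G : MvPolynomial (Fin (N + 1)) k0) :
    aeval (fun j => ke σ (a j)) G =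
      ke σ fun n => aeval (fun j => a j n) (MvPolynomial.map (algebraMap k0 E) G) := by
  let f : MvPolynomial (Fin (N + 1)) k0 →+* (ℕ → E) := RingHom.pi fun n =>
    ((aeval fun j => a j n : MvPolynomial (Fin (N + 1)) E →ₐ[E] E) :
      MvPolynomial (Fin (N + 1)) E →+* E).comp (MvPolynomial.map (algebraMap k0 E))
  have h1 : ((aeval fun j => ke σ (a j) : MvPolynomial (Fin (N + 1)) k0 →ₐ[k0] KE σ E) :
      MvPolynomial (Fin (N + 1)) k0 →+* KE σ E) = (ke σ).comp f := by
    apply MvPolynomial.ringHom_ext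
    · intro c
      rw [RingHom.coe_coe, aeval_C, hk, RingHom.comp_apply]
      change ke σ _ = ke σ _
      congr 1
      funext n
      change algebraMap k0 E c = aeval _ (MvPolynomial.map _ (C c))
      rw [map_C, aeval_C]
      rfl
    · intro j
      rw [RingHom.coe_coe, aeval_X, RingHom.comp_apply]
      congr 1
      funext n
      change a j n = aeval _ (MvPolynomial.map _ (X j))
      rw [map_X, aeval_X]
  exact RingHom.congr_fun h1 G

omit [Algebra ℂ F] [IsFF ℂ F] [Algebra ℂ E] [IsScalarTower ℂ F E] [Algebra.IsAlgebraic F E]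
  [Algebra F E] [Field F] in
theorem aeval_scale' {d : ℕ} {G : MvPolynomial (Fin (N + 1)) E} (hG : G.IsHomogeneous d) (θ : E)
    (x : Fin (N + 1) → E) : aeval (fun j => θ * x j) G = θ ^ d * aeval x G := hom_smul hG x θ

end val

/-- **Families of punctured lines from sequences of points of large height.** -/
theorem key [IsAlgClosed E] {L : ℕ → IntermediateField F E} [hL : ∀ n, FiniteDimensional F (L n)]
    {N d : ℕ} {x : ∀ n, Fin (N + 1) → L n} (hx : ∀ n, ∃ j, x n j ≠ 0) {h : ℕ → ℤ}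
    (hpos : ∀ n, 0 < h n) (hhp : ∀ n, h n ≤ hp ℂ (x n)) (hd : Sm h fun n => disc ℂ F (L n))
    (hf : Sm h fun n => Module.finrank F (L n)) {QF : MvPolynomial (Fin (N + 1)) F}
    (hQx : ∀ n, aeval (x n) QF ≠ 0) (ho : Sm h fun n => ((osc ℂ (x n)).ncard : ℤ))
    (hq : Sm h fun n => ({P : Place ℂ (L n) | P.ord (aeval (x n) QF) ≠ d * mo P (x n)}.ncard : ℤ))
    {k0 : Type} [Field k0] [Algebra k0 E] {Q0 : MvPolynomial (Fin (N + 1)) k0}
    (hQ0 : Q0.IsHomogeneous d)
    (hQ : MvPolynomial.map (algebraMap k0 E) Q0 = MvPolynomial.map (algebraMap F E) QF)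
    (σ : ℂ ≃+* CS) [Algebra k0 (KE σ E)]
    (hk : ∀ c : k0, algebraMap k0 (KE σ E) c = cs σ E (algebraMap k0 E c)) :
    ∃ xt : Fin (N + 1) → KE σ E,
      (∀ G : MvPolynomial (Fin (N + 1)) k0, (∃ e, G.IsHomogeneous e) →
        (aeval xt G = 0 ↔ ∀ᶠ n in (hyperfilter ℕ : Filter ℕ),
          aeval (fun j => (x n j : E)) (MvPolynomial.map (algebraMap k0 E) G) = 0)) ∧
      PFamK xt Q0 := by
  classical
  obtain ⟨D, hD⟩ := exists_der (k := ℂ) (K := F)
  obtain ⟨DE, hDE⟩ := exists_ext (E := E) D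
  obtain ⟨C, hC⟩ := avo_le hD
  choose DL hDL1 hDL2 using fun n => exists_res hDE (L n)
  have hFF : ∀ n, IsFF ℂ (L n) := fun n => isFF_inter (L n)
  have hst : ∀ n, IsScalarTower ℂ (L n) E := fun n => IsScalarTower.of_algebraMap_eq fun x => rfl
  have hh : ∀ n, 0 ≤ h n := fun n => (hpos n).le
  have hdim : ∀ n, Module.finrank ℂ (sp ℂ (x n)) ≤ N + 1 := fun n => by
    have := finrank_range_le_card (R := ℂ) (x n)
    simpa [Set.finrank] using this
  obtain ⟨m, hm⟩ := uf_const hdim
  obtain ⟨l, hl⟩ := uf_exists hx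
  have hDn : ∀ n, DL n ≠ 0 := fun n => (hC (L n) (DL n) (hDL1 n)).1
  have hpk : ∀ᶠ n in (hyperfilter ℕ : Filter ℕ),
      ∃ t : E × (Fin m → L n) × (Fin m → L n) × L n × (Fin (N + 1) → Fin m → ℂ),
      0 < m ∧ t.1 ≠ 0 ∧ (∀ j, x n j = ∑ i, algebraMap ℂ (L n) (t.2.2.2.2 j i) * t.2.1 i) ∧
      (Matrix.of fun i j : Fin m => (⇑DE)^[(i : ℕ)] (t.1 * algebraMap (L n) E (t.2.1 j))).det ≠ 0 ∧
      (∀ j, (⇑DE)^[m] (t.1 * algebraMap (L n) E (t.2.1 j)) =
        ∑ i : Fin m, algebraMap (L n) E (t.2.2.1 i) *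
          (⇑DE)^[(i : ℕ)] (t.1 * algebraMap (L n) E (t.2.1 j))) ∧
      DE (t.1 ^ d * algebraMap (L n) E (aeval (x n) QF)) = algebraMap (L n) E (t.2.2.2.1) *
        (t.1 ^ d * algebraMap (L n) E (aeval (x n) QF)) ∧
      (∀ i, hgt ℂ (t.2.2.1 i) ≤ m * ((osc ℂ (x n)).ncard + 2 * avo (DL n))) ∧
      hgt ℂ (t.2.2.2.1) ≤ (osc ℂ (x n) ∪
        {P : Place ℂ (L n) | P.ord (aeval (x n) QF) ≠ d * mo P (x n)}).ncard +
          2 * avo (DL n) := by
    refine hm.mono fun n hn => ?_
    obtain ⟨h0, θ, g, b, η, c, h1, h2, h3, h4, h5, h6, h7⟩ := package (E := E) (hDn n) (hDL2 n)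
      (hx n) (hQx n) d hn
    exact ⟨⟨θ, g, b, η, c⟩, h0, h1, h2, h3, h4, h5, h6, h7⟩
  obtain ⟨t, ht⟩ := Filter.skolem.1 hpk
  let θ : ℕ → E := fun n => (t n).1
  let g : ∀ n, Fin m → L n := fun n => (t n).2.1
  let b : ∀ n, Fin m → L n := fun n => (t n).2.2.1
  let η : ∀ n, L n := fun n => (t n).2.2.2.1
  let c : ℕ → Fin (N + 1) → Fin m → ℂ := fun n => (t n).2.2.2.2
  have hm0 : 0 < m := by
    obtain ⟨n, hn⟩ := ht.exists
    exact hn.1
  have hθ0 : ∀ᶠ n in (hyperfilter ℕ : Filter ℕ), θ n ≠ 0 := ht.mono fun n hn => hn.2.1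
  -- small coefficients
  have hav : Sm h fun n => avo (DL n) :=
    (hd.add (hf.mul C)).mono (Eventually.of_forall fun n => (hC (L n) (DL n) (hDL1 n)).2)
  have hb : ∀ i, SmS L h fun n => b n i := fun i => by
    refine Sm.mono ((ho.add (hav.mul 2)).mul m) (ht.mono fun n hn => ?_)
    have h1 := hn.2.2.2.2.2.2.1 i
    simpa using h1
  have hη : SmS L h fun n => η n := by
    refine Sm.mono ((ho.add hq).add (hav.mul 2)) (ht.mono fun n hn => ?_)
    have h1 := hn.2.2.2.2.2.2.2
    have h2 : ((osc ℂ (x n) ∪ {P : Place ℂ (L n) | P.ord (aeval (x n) QF) ≠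
        d * mo P (x n)}).ncard : ℤ) ≤ (osc ℂ (x n)).ncard +
          {P : Place ℂ (L n) | P.ord (aeval (x n) QF) ≠ d * mo P (x n)}.ncard := by
      exact_mod_cast Set.ncard_union_le _ _
    refine h1.trans ?_
    push_cast
    linarith
  -- the fundamental matrix
  let Xs : Matrix (Fin m) (Fin m) (ℕ → E) :=
    Matrix.of fun i j n => (⇑DE)^[(i : ℕ)] (θ n * (g n j : E))
  let XX : Matrix (Fin m) (Fin m) (KE σ E) := Xs.map (ke σ)
  have hX : ∀ i j, XX i j = (⇑(DK σ DE))^[(i : ℕ)] (ke σ fun n => θ n * (g n j : E)) :=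
    fun i j => (DK_iter DE (fun n => θ n * (g n j : E)) i).symm
  have hdet : XX.det ≠ 0 := by
    have h1 : XX.det = ke σ Xs.det :=
      (RingHom.map_det (ke σ : (ℕ → E) →+* KE σ E) Xs).symm
    rw [h1, Ne, ke_zero, ← Ultrafilter.eventually_not]
    refine ht.mono fun n hn => ?_
    have h2 : Xs.det n = (Matrix.of fun i j : Fin m =>
        (⇑DE)^[(i : ℕ)] (θ n * (g n j : E))).det :=
      RingHom.map_det (Pi.evalRingHom (fun _ : ℕ => E) n) Xs
    rw [h2]
    exact hn.2.2.2.1
  let YY : Matrix (Fin m) (Fin m) (KE σ E) := XX⁻¹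
  have hXY : XX * YY = 1 := Matrix.mul_nonsing_inv XX (isUnit_iff_ne_zero.2 hdet)
  let MM : Matrix (Fin m) (Fin m) (KE σ E) := Matrix.of fun i j =>
    if (i : ℕ) + 1 < m then (if (j : ℕ) = i + 1 then 1 else 0) else kl σ L fun n => b n j
  have hF1 : Fund (DK σ DE) (R0 σ L hh).toSubalgebra XX YY MM := by
    refine ⟨hXY, fun i j => ?_, fun i j => ?_⟩
    · change (if (i : ℕ) + 1 < m then (if (j : ℕ) = i + 1 then 1 else 0)
        else kl σ L fun n => b n j) ∈ (R0 σ L hh).toSubalgebra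
      split_ifs
      · exact Subalgebra.one_mem _
      · exact Subalgebra.zero_mem _
      · exact SF_le ⟨_, hb j, rfl⟩
    · have h1 : DK σ DE (XX i j) =
          (⇑(DK σ DE))^[(i : ℕ) + 1] (ke σ fun n => θ n * (g n j : E)) := by
        rw [hX, Function.iterate_succ_apply']
      rw [h1]
      by_cases hi : (i : ℕ) + 1 < m
      · rw [Finset.sum_eq_single (⟨(i : ℕ) + 1, hi⟩ : Fin m)]
        · have h2 : MM i ⟨(i : ℕ) + 1, hi⟩ = 1 := by
            change (if (i : ℕ) + 1 < m then (if (i : ℕ) + 1 = i + 1 then (1 : KE σ E) else 0)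
              else _) = 1
            rw [if_pos hi, if_pos rfl]
          rw [h2, one_mul, hX]
        · intro k _ hk'
          have h2 : MM i k = 0 := by
            change (if (i : ℕ) + 1 < m then (if (k : ℕ) = i + 1 then (1 : KE σ E) else 0)
              else _) = 0
            rw [if_pos hi, if_neg fun h3 => hk' (Fin.ext h3)]
          rw [h2, zero_mul]
        · intro h2
          exact absurd (Finset.mem_univ _) h2
      · have hi' : (i : ℕ) + 1 = m := by
          have := i.2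
          omega
        have h2 : ∀ k, MM i k = kl σ L fun n => b n k := by
          intro k
          change (if (i : ℕ) + 1 < m then (if (k : ℕ) = i + 1 then (1 : KE σ E) else 0)
            else _) = _
          rw [if_neg hi]
        rw [hi', DK_iter]
        have h3 : ∑ k, MM i k * XX k j =
            ke σ (∑ k : Fin m, (fun n => (b n k : E)) * Xs k j) := by
          rw [map_sum]
          refine Finset.sum_congr rfl fun k _ => ?_
          rw [h2, map_mul]
          rfl
        rw [h3, ke_eq]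
        refine ht.mono fun n hn => ?_
        rw [Finset.sum_apply]
        exact hn.2.2.2.2.1 j
  -- the second step
  let R1 : Subalgebra ℂ (KE σ E) := mat (R0 σ L hh).toSubalgebra XX YY
  let μ : KE σ E := ke σ fun n => θ n ^ d * ((aeval (x n) QF : L n) : E)
  have hμ0 : μ ≠ 0 := by
    rw [Ne, ke_zero, ← Ultrafilter.eventually_not]
    refine hθ0.mono fun n hn => ?_
    refine mul_ne_zero (pow_ne_zero _ hn) fun h0 => hQx n ?_
    exact Subtype.ext h0
  have hμD : DK σ DE μ = kl σ L η * μ := by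
    change ke σ (fun n => DE (θ n ^ d * ((aeval (x n) QF : L n) : E))) =
      ke σ (fun n => (η n : E)) * ke σ fun n => θ n ^ d * ((aeval (x n) QF : L n) : E)
    rw [← map_mul, ke_eq]
    exact ht.mono fun n hn => hn.2.2.2.2.2.1
  let X2 : Matrix (Fin 1) (Fin 1) (KE σ E) := Matrix.of fun _ _ => μ⁻¹
  let Y2 : Matrix (Fin 1) (Fin 1) (KE σ E) := Matrix.of fun _ _ => μ
  let M2 : Matrix (Fin 1) (Fin 1) (KE σ E) := Matrix.of fun _ _ => -kl σ L η
  have hηR : kl σ L η ∈ (R0 σ L hh).toSubalgebra := SF_le ⟨_, hη, rfl⟩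
  have hF2 : Fund (DK σ DE) R1 X2 Y2 M2 := by
    refine ⟨?_, fun i j => ?_, fun i j => ?_⟩
    · ext i j
      rw [Matrix.mul_apply, Fin.sum_univ_one, Subsingleton.elim i j, Matrix.one_apply_eq]
      exact inv_mul_cancel₀ hμ0
    · exact R1.neg_mem (le_mat _ _ _ hηR)
    · rw [Fin.sum_univ_one]
      change DK σ DE μ⁻¹ = -kl σ L η * μ⁻¹
      rw [Derivation.leibniz_inv, hμD]
      simp only [smul_eq_mul]
      field_simp
  let R : Subalgebra ℂ (KE σ E) := mat R1 X2 Y2
  have hT : LTow (DK σ DE) (R0 σ L hh).toSubalgebra R := LTow.step (LTow.step LTow.base hF1) hF2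
  -- the coordinates
  let xt : Fin (N + 1) → KE σ E := fun j => ke σ fun n => θ n * (x n j : E)
  have hxt : ∀ j, xt j ∈ R := by
    intro j
    refine le_mat _ _ _ ?_
    choose cc hcc using fun i => exists_of_gc (σ := σ) fun n => c n j i
    have h1 : xt j = ∑ i, algebraMap ℂ (KE σ E) (cc i) * XX ⟨0, hm0⟩ i := by
      have h2 : ∑ i, algebraMap ℂ (KE σ E) (cc i) * XX ⟨0, hm0⟩ i =
          ke σ (∑ i : Fin m, (fun n => algebraMap ℂ E (c n j i)) * Xs ⟨0, hm0⟩ i) := by
        rw [map_sum]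
        refine Finset.sum_congr rfl fun i _ => ?_
        rw [alg_of_gc (hcc i), map_mul]
        rfl
      rw [h2]
      change ke σ _ = ke σ _
      rw [ke_eq]
      refine ht.mono fun n hn => ?_
      rw [Finset.sum_apply]
      have h3 := congrArg (algebraMap (L n) E) (hn.2.2.1 j)
      rw [map_sum] at h3
      change θ n * algebraMap (L n) E (x n j) = _
      rw [h3, Finset.mul_sum]
      refine Finset.sum_congr rfl fun i _ => ?_
      rw [map_mul]
      change θ n * (algebraMap ℂ E (c n j i) * (g n i : E)) =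
        algebraMap ℂ E (c n j i) * (θ n * (g n i : E))
      ring
    rw [h1]
    exact Subalgebra.sum_mem _ fun i _ => Subalgebra.mul_mem _ (Subalgebra.algebraMap_mem _ _)
      (mem_mat_left _ _ _ _ _)
  have hval : ∀ (e : ℕ) (G : MvPolynomial (Fin (N + 1)) k0), G.IsHomogeneous e →
      aeval xt G = ke σ fun n => θ n ^ e * aeval (fun j => (x n j : E))
        (MvPolynomial.map (algebraMap k0 E) G) := by
    intro e G hG
    have h1 := aeval_ke hk (fun j n => θ n * (x n j : E)) G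
    refine h1.trans ?_
    congr 1
    funext n
    exact aeval_scale' (hG.map _) (θ n) fun j => (x n j : E)
  have hxQ : aeval xt Q0 = μ := by
    rw [hval d Q0 hQ0]
    change ke σ _ = ke σ _
    congr 1
    funext n
    congr 1
    rw [hQ, aeval_map_algebraMap]
    exact (MvPolynomial.aeval_algebraMap_apply E (x n) QF)
  have hxl : xt l ≠ 0 := by
    change ke σ _ ≠ 0
    rw [Ne, ke_zero, ← Ultrafilter.eventually_not]
    filter_upwards [hθ0, hl] with n h1 h2
    exact mul_ne_zero h1 fun h0 => h2 (Subtype.ext h0)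
  refine ⟨xt, fun G hG => ?_, ?_⟩
  · obtain ⟨e, he⟩ := hG
    rw [hval e G he, ke_zero]
    constructor
    · intro h1
      filter_upwards [hθ0, h1] with n h2 h3
      exact (mul_eq_zero.1 h3).resolve_left (pow_ne_zero _ h2)
    · intro h1
      exact h1.mono fun n hn => by rw [hn, mul_zero]
  · have hCst : Cst (DK σ DE) := cst_DK fun y hy => const_ext hD hDE hy
    rcases fam_or hCst (R0_good hD hDE hh hd hf) hT (x := xt) (l := l) hxt hxl
      (fun c' => by
        rw [hk]
        exact E_mem hh hf _) hQ0 (by rw [hxQ]; exact hμ0) (fun β _ => by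
        rw [hxQ, div_eq_mul_inv]
        refine Subalgebra.mul_mem _ (Subalgebra.prod_mem _ fun j _ =>
          Subalgebra.pow_mem _ (hxt j) _) ?_
        exact mem_mat_left R1 X2 Y2 0 0) with h1 | h1
    · exfalso
      have h2 : ∀ j, SmS L h fun n => x n j / x n l := by
        intro j
        apply small_of_alg (σ := σ) hh
        have h3 : kl σ L (fun n => x n j / x n l) = xt j / xt l := by
          change ke σ (fun n => (x n j : E) / (x n l : E)) =
            ke σ (fun n => θ n * (x n j : E)) / ke σ fun n => θ n * (x n l : E)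
          rw [← ke_div, ke_eq]
          refine hθ0.mono fun n hn => ?_
          rw [mul_div_mul_left _ _ hn]
        rw [h3]
        exact h1 j
      have h3 := Sm.sum hh Finset.univ fun j _ => h2 j
      obtain ⟨n, h4, h5⟩ := ((h3 2).and hl).exists
      have h6 := hp_le (k := ℂ) h5
      have h7 := hhp n
      have h8 := hpos n
      have h9 : ((2 : ℕ) : ℤ) * ∑ j, hgt ℂ (x n j / x n l) ≤ h n := h4
      push_cast at h9
      linarith
    · exact h1

end Pool.Agent.N131.FV
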