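import Mathlib
import Pool.Agent.N131.FV.Key

/-!
Places at which the value of a form is smaller than expected (after Y731/GO/Ff).
-/

set_option autoImplicit false

namespace Pool.Agent.N131.FV

open FF MvPolynomial Pool.Agent.W603.LV Pool.Agent.W603.PV

variable {k F : Type} [Field k] [IsAlgClosed k] [CharZero k] [Field F] [Algebra k F] [IsFF k F]
  {L : Type} [Field L] [Algebra k L] [Algebra F L] [IsScalarTower k F L] [IsFF k L]

/-- the sum of the negative parts of the orders of the coefficients -/
noncomputable def cneg {M : ℕ} (P : Place k L) (E : MvPolynomial (Fin M) F) : ℤ :=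
  ∑ α ∈ E.support, max (-P.ord (algebraMap F L (coeff α E))) 0

omit [IsAlgClosed k] [CharZero k] [Algebra k F] [IsFF k F] [IsScalarTower k F L] [IsFF k L] in
theorem cneg_nonneg {M : ℕ} (P : Place k L) (E : MvPolynomial (Fin M) F) : 0 ≤ cneg P E :=
  Finset.sum_nonneg fun _ _ => le_max_right _ _

omit [IsAlgClosed k] [CharZero k] [Algebra k F] [IsFF k F] [IsScalarTower k F L] [IsFF k L] in
/-- the order of a value is bounded below -/
theorem ord_aeval_ge {M : ℕ} (P : Place k L) {E : MvPolynomial (Fin M) F} {d : ℕ}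
    (hE : E.IsHomogeneous d) {x : Fin M → L} (hEx : aeval x E ≠ 0) :
    d * mo P x - cneg P E ≤ P.ord (aeval x E) := by
  classical
  have h1 : Ge P (d * mo P x - cneg P E) (aeval x E) := by
    rw [aeval_def, eval₂_eq']
    refine Ge.sum _ _ fun α hα => ?_
    have hd : ∑ c, α c = d := by
      have := hE (mem_support_iff.1 hα)
      rw [← this, Finsupp.weight_apply, Finsupp.sum_fintype _ _ (by simp)]
      simp
    have h2 : Ge P (-cneg P E) (algebraMap F L (coeff α E)) := by
      right
      have h3 : max (-P.ord (algebraMap F L (coeff α E))) 0 ≤ cneg P E :=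
        Finset.single_le_sum (f := fun α => max (-P.ord (algebraMap F L (coeff α E))) 0)
          (fun _ _ => le_max_right _ _) hα
      have := le_max_left (-P.ord (algebraMap F L (coeff α E))) 0
      omega
    have h3 : Ge P (∑ c, (α c : ℤ) * mo P x) (∏ c, x c ^ α c) := by
      refine Ge.prod _ _ _ fun c _ => ?_
      exact Ge.pow (ge_mo P x c) _
    have h4 : ∑ c, (α c : ℤ) * mo P x = d * mo P x := by
      rw [← Finset.sum_mul, ← hd]
      push_cast
      rfl
    rw [h4] at h3
    have h5 := h2.mul h3
    refine Ge.mono (by linarith) h5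
  exact h1.resolve_left hEx

theorem sum_cneg_le [FiniteDimensional F L] {M : ℕ} (T : Finset (Place k L))
    (E : MvPolynomial (Fin M) F) :
    ∑ P ∈ T, cneg P E ≤ Module.finrank F L * ∑ α ∈ E.support, hgt k (coeff α E) := by
  classical
  unfold cneg
  rw [Finset.sum_comm, Finset.mul_sum]
  refine Finset.sum_le_sum fun α _ => ?_
  rw [← hgt_algebraMap (L := L) (coeff α E)]
  obtain ⟨T0, hT0⟩ := exists_supp (k := k) (Finset.univ : Finset (Fin 1))
    ![algebraMap F L (coeff α E)]
  have hT1 : ∀ P : Place k L, P.ord (algebraMap F L (coeff α E)) ≠ 0 → P ∈ T ∪ T0 := fun P hP =>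
    Finset.mem_union_right _ (hT0 0 (Finset.mem_univ _) P hP)
  rw [hgt_finset _ (T ∪ T0) hT1]
  exact Finset.sum_le_sum_of_subset_of_nonneg Finset.subset_union_left
    fun _ _ _ => le_max_right _ _

/-- the places at which the value of a form does not have the expected order -/
theorem q_finite {N d : ℕ} {x : Fin (N + 1) → L} (hx : ∃ j, x j ≠ 0) (q : L) :
    {P : Place k L | P.ord q ≠ d * mo P x}.Finite := by
  refine ((finite_support (k := k) q).union (mo_finite hx)).subset fun P hP => ?_
  by_contra hcon
  simp only [Set.mem_union, Set.mem_ofPred_eq, not_or, not_not] at hcon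
  apply hP
  rw [hcon.1, hcon.2, mul_zero]

/-- **The number of the places at which the value of a form does not have the expected order.** -/
theorem q_card [FiniteDimensional F L] {N d : ℕ} {Q : MvPolynomial (Fin (N + 1)) F}
    (hQ : Q.IsHomogeneous d) {x : Fin (N + 1) → L} (hx : ∃ j, x j ≠ 0) (hQx : aeval x Q ≠ 0)
    (S : Finset (Place k F)) :
    ({P : Place k L | P.ord (aeval x Q) ≠ d * mo P x}.ncard : ℤ) ≤
      {P : Place k L | under F P ∉ S ∧ d * mo P x < P.ord (aeval x Q)}.ncard +
        (∑ α ∈ Q.support, hgt k (coeff α Q) + ∑ v ∈ S, hgt k (unif v)) *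
          Module.finrank F L := by
  classical
  have hfin := q_finite (k := k) (d := d) hx (aeval x Q)
  have hS : {P : Place k L | under F P ∈ S}.Finite := finite_over_set (Finset.finite_toSet S)
  have h2 : {P : Place k L | P.ord (aeval x Q) < d * mo P x}.Finite :=
    hfin.subset fun P hP => (ne_of_lt hP)
  have h1 : {P : Place k L | under F P ∉ S ∧ d * mo P x < P.ord (aeval x Q)}.Finite :=
    hfin.subset fun P hP => (ne_of_gt hP.2)
  have h3 : {P : Place k L | P.ord (aeval x Q) ≠ d * mo P x} ⊆
      ({P : Place k L | under F P ∉ S ∧ d * mo P x < P.ord (aeval x Q)} ∪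
        {P : Place k L | P.ord (aeval x Q) < d * mo P x}) ∪
        {P : Place k L | under F P ∈ S} := by
    intro P hP
    by_cases h4 : under F P ∈ S
    · exact Or.inr h4
    · rcases lt_or_gt_of_ne hP with h5 | h5
      · exact Or.inl (Or.inr h5)
      · exact Or.inl (Or.inl ⟨h4, h5⟩)
  have h4 := Set.ncard_le_ncard h3 ((h1.union h2).union hS)
  have h5 := Set.ncard_union_le ({P : Place k L | under F P ∉ S ∧ d * mo P x <
    P.ord (aeval x Q)} ∪ {P : Place k L | P.ord (aeval x Q) < d * mo P x})
      {P : Place k L | under F P ∈ S}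
  have h6 := Set.ncard_union_le {P : Place k L | under F P ∉ S ∧ d * mo P x <
    P.ord (aeval x Q)} {P : Place k L | P.ord (aeval x Q) < d * mo P x}
  have h7 : (({P : Place k L | under F P ∈ S}.ncard : ℕ) : ℤ) ≤
      Module.finrank F L * ∑ v ∈ S, hgt k (unif v) := card_over_le S
  have h8 : (({P : Place k L | P.ord (aeval x Q) < d * mo P x}.ncard : ℕ) : ℤ) ≤
      Module.finrank F L * ∑ α ∈ Q.support, hgt k (coeff α Q) := by
    rw [Set.ncard_eq_toFinset_card _ h2, Finset.card_eq_sum_ones]
    push_cast
    refine le_trans (Finset.sum_le_sum fun P hP => ?_) (sum_cneg_le h2.toFinset Q)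
    have h9 := ord_aeval_ge P hQ hQx
    have h10 : P.ord (aeval x Q) < d * mo P x := (Set.Finite.mem_toFinset h2).1 hP
    linarith
  have h9 : ({P : Place k L | P.ord (aeval x Q) ≠ d * mo P x}.ncard : ℤ) ≤
      {P : Place k L | under F P ∉ S ∧ d * mo P x < P.ord (aeval x Q)}.ncard +
      {P : Place k L | P.ord (aeval x Q) < d * mo P x}.ncard +
      {P : Place k L | under F P ∈ S}.ncard := by
    exact_mod_cast h4.trans (h5.trans (Nat.add_le_add_right h6 _))
  nlinarith

/-- the number of the osculation places -/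
theorem osc_card [FiniteDimensional F L] {N : ℕ} {x : Fin (N + 1) → L} (hx : ∃ j, x j ≠ 0)
    (S : Finset (Place k F)) :
    ((osc k x).ncard : ℤ) ≤ {P : Place k L | under F P ∉ S ∧ P ∈ osc k x}.ncard +
      (∑ v ∈ S, hgt k (unif v)) * Module.finrank F L := by
  classical
  have hfin := osc_finite (k := k) hx
  have hS : {P : Place k L | under F P ∈ S}.Finite := finite_over_set (Finset.finite_toSet S)
  have h1 : {P : Place k L | under F P ∉ S ∧ P ∈ osc k x}.Finite :=
    hfin.subset fun P hP => hP.2
  have h3 : osc k x ⊆ {P : Place k L | under F P ∉ S ∧ P ∈ osc k x} ∪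
        {P : Place k L | under F P ∈ S} := by
    intro P hP
    by_cases h4 : under F P ∈ S
    · exact Or.inr h4
    · exact Or.inl ⟨h4, hP⟩
  have h4 := Set.ncard_le_ncard h3 (h1.union hS)
  have h5 := Set.ncard_union_le {P : Place k L | under F P ∉ S ∧ P ∈ osc k x}
      {P : Place k L | under F P ∈ S}
  have h7 : (({P : Place k L | under F P ∈ S}.ncard : ℕ) : ℤ) ≤
      Module.finrank F L * ∑ v ∈ S, hgt k (unif v) := card_over_le S
  have h9 : ((osc k x).ncard : ℤ) ≤ {P : Place k L | under F P ∉ S ∧ P ∈ osc k x}.ncard +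
      {P : Place k L | under F P ∈ S}.ncard := by
    exact_mod_cast h4.trans h5
  linarith

end Pool.Agent.N131.FV
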