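import Mathlib
import Pool.Agent.TH143.GT.Sec

/-!
Extension of the field of definition of a family of punctured lines (after SU/Ext), over an
arbitrary field.
-/

set_option autoImplicit false

namespace Pool.Agent.N131.FV

open Set Filter MvPolynomial
open Pool.Agent.W602.GT (IsForm)

variable {N : ℕ} {k0 : Type} [Field k0] {E : Type} [Field E] [Algebra k0 E]

/-- an ultrafilter on the natural numbers -/
noncomputable abbrev U : Ultrafilter ℕ := hyperfilter ℕ

/-- the ultrapower of a field -/
def ES (E : Type) [Field E] : Type := Germ (U : Filter ℕ) E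

noncomputable instance : Field (ES E) := inferInstanceAs (Field (Germ (U : Filter ℕ) E))

/-- the class of a sequence -/
noncomputable def ge (E : Type) [Field E] : (ℕ → E) →+* ES E := Germ.coeRingHom (U : Filter ℕ)

theorem ge_surj (x : ES E) : ∃ c, ge E c = x := by
  induction x using Germ.inductionOn with
  | _ f => exact ⟨f, rfl⟩

theorem ge_eq {a b : ℕ → E} : ge E a = ge E b ↔ ∀ᶠ k in (U : Filter ℕ), a k = b k :=
  Germ.coe_eq

theorem ge_zero {a : ℕ → E} : ge E a = 0 ↔ ∀ᶠ k in (U : Filter ℕ), a k = 0 := by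
  rw [← map_zero (ge E), ge_eq]
  rfl

/-- the constant sequences -/
noncomputable def de (E : Type) [Field E] : E →+* ES E := (ge E).comp (Pi.constRingHom ℕ E)

noncomputable instance : Algebra E (ES E) := (de E).toAlgebra

theorem algebraMap_ES (c : E) : algebraMap E (ES E) c = ge E fun _ => c := rfl

/-- **Specialization.** -/
theorem spec [IsAlgClosed k0] [Countable k0] {V : Type} [Finite V] {A : Type} [CommRing A]
    [IsDomain A] (ρ : MvPolynomial V k0 →+* A) :
    ∃ v : ℕ → V → k0, ∀ h : MvPolynomial V k0, (ρ h = 0 → ∀ m, eval (v m) h = 0) ∧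
      (ρ h ≠ 0 → ∀ᶠ m in atTop, eval (v m) h ≠ 0) := by
  classical
  have hcount : Countable (MvPolynomial V k0) := by
    have h1 : Cardinal.mk (MvPolynomial V k0) ≤ Cardinal.aleph0 := by
      refine MvPolynomial.cardinalMk_le_max.trans ?_
      refine max_le (max_le ?_ ?_) le_rfl
      · exact Cardinal.mk_le_aleph0
      · exact Cardinal.mk_le_aleph0
    exact Cardinal.mk_le_aleph0_iff.1 h1
  have hne : Nonempty {h : MvPolynomial V k0 // ρ h ≠ 0} := ⟨⟨1, by rw [map_one]; exact one_ne_zero⟩⟩
  obtain ⟨g, hg⟩ := exists_surjective_nat {h : MvPolynomial V k0 // ρ h ≠ 0}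
  let P : Ideal (MvPolynomial V k0) := RingHom.ker ρ
  have hP : P.IsPrime := RingHom.ker_isPrime ρ
  have h1 : ∀ m : ℕ, ∃ v : V → k0, (∀ h, ρ h = 0 → eval v h = 0) ∧
      ∀ i ≤ m, eval v (g i).1 ≠ 0 := by
    intro m
    by_contra hcon
    push Not at hcon
    have h2 : (∏ i ∈ Finset.range (m + 1), (g i).1) ∈ vanishingIdeal k0 (zeroLocus k0 P) := by
      rw [mem_vanishingIdeal_iff]
      intro x hx
      obtain ⟨i, hi, h3⟩ := hcon x (fun h hh => by
        have h4 := hx h hh
        rwa [aeval_eq_eval] at h4)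
      rw [aeval_eq_eval]
      rw [map_prod]
      exact Finset.prod_eq_zero (Finset.mem_range.2 (by omega)) h3
    rw [IsPrime.vanishingIdeal_zeroLocus] at h2
    have h3 : ρ (∏ i ∈ Finset.range (m + 1), (g i).1) = 0 := h2
    rw [map_prod, Finset.prod_eq_zero_iff] at h3
    obtain ⟨i, -, hi⟩ := h3
    exact (g i).2 hi
  choose v hv1 hv2 using h1
  refine ⟨v, fun h => ⟨fun h0 m => hv1 m h h0, fun h0 => ?_⟩⟩
  obtain ⟨i, hi⟩ := hg ⟨h, h0⟩
  filter_upwards [eventually_ge_atTop i] with m hm
  have h2 := hv2 m i hm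
  rwa [hi] at h2

/-- coefficientwise application of a linear map -/
noncomputable def pr (φ : E →ₗ[k0] k0) (G : MvPolynomial (Fin (N + 1)) E) :
    MvPolynomial (Fin (N + 1)) k0 := ∑ β ∈ G.support, monomial β (φ (coeff β G))

theorem coeff_pr (φ : E →ₗ[k0] k0) (G : MvPolynomial (Fin (N + 1)) E) (β : Fin (N + 1) →₀ ℕ) :
    coeff β (pr φ G) = φ (coeff β G) := by
  classical
  unfold pr
  rw [coeff_sum]
  by_cases hβ : β ∈ G.support
  · rw [Finset.sum_eq_single β]
    · rw [coeff_monomial, if_pos rfl]
    · intro γ _ hγ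
      rw [coeff_monomial, if_neg hγ]
    · intro h1
      exact absurd hβ h1
  · rw [notMem_support_iff.1 hβ, map_zero]
    apply Finset.sum_eq_zero
    intro γ hγ
    rw [coeff_monomial, if_neg]
    intro h2
    exact hβ (h2 ▸ hγ)

theorem pr_hom {φ : E →ₗ[k0] k0} {G : MvPolynomial (Fin (N + 1)) E} {m : ℕ}
    (hG : G.IsHomogeneous m) : (pr φ G).IsHomogeneous m := by
  intro β hβ
  apply hG
  intro h0
  apply hβ
  rw [coeff_pr, h0, map_zero]

/-- polynomials are recovered from their coordinates -/
theorem mem_of_pr {ι : Type} (b : Module.Basis ι k0 E) {p : Ideal (MvPolynomial (Fin (N + 1)) E)}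
    {G : MvPolynomial (Fin (N + 1)) E}
    (h : ∀ i, MvPolynomial.map (algebraMap k0 E) (pr (b.coord i) G) ∈ p) : G ∈ p := by
  classical
  let s : Finset ι := G.support.biUnion fun β => (b.repr (coeff β G)).support
  have h1 : G = ∑ i ∈ s, C (b i) * MvPolynomial.map (algebraMap k0 E) (pr (b.coord i) G) := by
    ext β
    rw [coeff_sum]
    simp only [coeff_C_mul, coeff_map, coeff_pr]
    have h2 : ∑ i ∈ s, b i * algebraMap k0 E ((b.coord i) (coeff β G)) =
        ∑ i ∈ s, (b.repr (coeff β G)) i • b i := by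
      apply Finset.sum_congr rfl
      intro i _
      rw [Algebra.smul_def, mul_comm]
      rfl
    rw [h2]
    by_cases hβ : β ∈ G.support
    · conv_lhs => rw [← b.linearCombination_repr (coeff β G)]
      rw [Finsupp.linearCombination_apply, Finsupp.sum]
      apply Finset.sum_subset (Finset.subset_biUnion_of_mem
        (fun β => (b.repr (coeff β G)).support) hβ)
      intro i _ hi
      rw [Finsupp.notMem_support_iff.1 hi, zero_smul]
    · rw [notMem_support_iff.1 hβ]
      symm
      apply Finset.sum_eq_zero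
      intro i _
      rw [map_zero, Finsupp.zero_apply, zero_smul]
  rw [h1]
  exact Ideal.sum_mem _ fun i _ => p.mul_mem_left _ (h i)

section univ

variable {V : Type} (D : ℕ)

/-- the universal family -/
noncomputable def Pu (k0 : Type) [Field k0] (N D : ℕ) (j : Fin (N + 1)) :
    Polynomial (MvPolynomial (Fin (N + 1) × Fin (D + 1)) k0) :=
  ∑ i : Fin (D + 1), Polynomial.C (X (j, i)) * Polynomial.X ^ (i : ℕ)

theorem map_Pu {A : Type} [CommRing A] (ρ : MvPolynomial (Fin (N + 1) × Fin (D + 1)) k0 →+* A)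
    {P : Fin (N + 1) → Polynomial A} (hD : ∀ j, (P j).natDegree ≤ D)
    (hρ : ∀ j (i : Fin (D + 1)), ρ (X (j, i)) = (P j).coeff i) (j : Fin (N + 1)) :
    (Pu k0 N D j).map ρ = P j := by
  unfold Pu
  rw [Polynomial.map_sum]
  have h1 : (P j) = ∑ i ∈ Finset.range (D + 1), Polynomial.C ((P j).coeff i) *
      Polynomial.X ^ i := by
    exact Polynomial.as_sum_range_C_mul_X_pow' (P j) (Nat.lt_succ_of_le (hD j))
  conv_rhs => rw [h1, Finset.sum_range]
  apply Finset.sum_congr rfl
  intro i _
  rw [Polynomial.map_mul, Polynomial.map_C, Polynomial.map_pow, Polynomial.map_X, hρ]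

/-- coefficients of forms along families -/
theorem coeff_fam {A B : Type} [CommRing A] [CommRing B] [Algebra E B] (ψ : A →+* B)
    (P : Fin (N + 1) → Polynomial A) (G : MvPolynomial (Fin (N + 1)) E) (s : ℕ) :
    (aeval (fun j => (P j).map ψ) G : Polynomial B).coeff s =
      ∑ β ∈ G.support, algebraMap E B (coeff β G) * ψ ((∏ j, P j ^ β j).coeff s) := by
  rw [aeval_def, eval₂_eq', Polynomial.finsetSum_coeff]
  apply Finset.sum_congr rfl
  intro β _
  have h1 : algebraMap E (Polynomial B) (coeff β G) = Polynomial.C (algebraMap E B (coeff β G)) :=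
    rfl
  have h2 : ∏ j, (P j).map ψ ^ β j = (∏ j, P j ^ β j).map ψ := by
    rw [Polynomial.map_prod]
    simp only [Polynomial.map_pow]
  rw [h1, Polynomial.coeff_C_mul, h2, Polynomial.coeff_map]

/-- forms along families -/
theorem map_fam {A B : Type} [CommRing A] [CommRing B] [Algebra E B]
    [Algebra k0 A] (ψ : A →+* B)
    (hψ : ψ.comp (algebraMap k0 A) = (algebraMap E B).comp (algebraMap k0 E))
    (P : Fin (N + 1) → Polynomial A) (G : MvPolynomial (Fin (N + 1)) k0) :
    (aeval (fun j => (P j).map ψ) (MvPolynomial.map (algebraMap k0 E) G) : Polynomial B) =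
      (aeval P G : Polynomial A).map ψ := by
  rw [aeval_def, eval₂_map, aeval_def]
  have h1 := MvPolynomial.hom_eval₂ G (algebraMap k0 (Polynomial A)) (Polynomial.mapRingHom ψ) P
  change _ = Polynomial.mapRingHom ψ _
  rw [h1]
  have h2 : (algebraMap E (Polynomial B)).comp (algebraMap k0 E) =
      (Polynomial.mapRingHom ψ).comp (algebraMap k0 (Polynomial A)) := by
    ext c
    have h3 : algebraMap k0 (Polynomial A) c = Polynomial.C (algebraMap k0 A c) := rfl
    have h4 : ∀ c : E, algebraMap E (Polynomial B) c = Polynomial.C (algebraMap E B c) :=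
      fun c => rfl
    have h5 := RingHom.congr_fun hψ c
    rw [RingHom.comp_apply, RingHom.comp_apply] at h5
    rw [RingHom.comp_apply, RingHom.comp_apply, h3, h4, Polynomial.coe_mapRingHom,
      Polynomial.map_C, h5]
  rw [h2]
  rfl

/-- forms along families, over the small field -/
theorem map_fam0 {A B : Type} [CommRing A] [CommRing B] [Algebra k0 B] [Algebra k0 A] (ψ : A →+* B)
    (hψ : ψ.comp (algebraMap k0 A) = algebraMap k0 B)
    (P : Fin (N + 1) → Polynomial A) (G : MvPolynomial (Fin (N + 1)) k0) :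
    (aeval (fun j => (P j).map ψ) G : Polynomial B) = (aeval P G : Polynomial A).map ψ := by
  rw [aeval_def, aeval_def]
  have h1 := MvPolynomial.hom_eval₂ G (algebraMap k0 (Polynomial A)) (Polynomial.mapRingHom ψ) P
  change _ = Polynomial.mapRingHom ψ _
  rw [h1]
  have h2 : algebraMap k0 (Polynomial B) =
      (Polynomial.mapRingHom ψ).comp (algebraMap k0 (Polynomial A)) := by
    ext c
    have h3 : algebraMap k0 (Polynomial A) c = Polynomial.C (algebraMap k0 A c) := rfl
    have h4 : algebraMap k0 (Polynomial B) c = Polynomial.C (algebraMap k0 B c) := rfl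
    have h5 := RingHom.congr_fun hψ c
    rw [RingHom.comp_apply] at h5
    rw [RingHom.comp_apply, h3, h4, Polynomial.coe_mapRingHom, Polynomial.map_C, h5]
  rw [h2]
  rfl

end univ

/-- **Extension of the field of definition.** -/
theorem ext_fam [IsAlgClosed k0] [Countable k0] {p : Ideal (MvPolynomial (Fin (N + 1)) E)}
    {T : Set (MvPolynomial (Fin (N + 1)) k0)}
    (hp : ∀ G ∈ p, IsForm G → G ∈ Ideal.span (MvPolynomial.map (algebraMap k0 E) '' T))
    (hT : ∀ H ∈ T, IsForm H ∧ MvPolynomial.map (algebraMap k0 E) H ∈ p)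
    {M : Type} [Field M] [Algebra k0 M] {P : Fin (N + 1) → Polynomial M}
    (hP : ∀ G : MvPolynomial (Fin (N + 1)) k0, IsForm G →
      (aeval P G = 0 ↔ MvPolynomial.map (algebraMap k0 E) G ∈ p))
    {Q : MvPolynomial (Fin (N + 1)) k0} {c : M} {k : ℕ} (hc : c ≠ 0)
    (hQ : aeval P Q = Polynomial.C c * Polynomial.X ^ k)
    {j1 j2 : Fin (N + 1)} (hW : Polynomial.derivative (P j1) * P j2 ≠
      P j1 * Polynomial.derivative (P j2)) :
    ∃ P' : Fin (N + 1) → Polynomial (ES E),
      (∀ G : MvPolynomial (Fin (N + 1)) E, IsForm G → (aeval P' G = 0 ↔ G ∈ p)) ∧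
      (∃ c' : (ES E), c' ≠ 0 ∧ aeval P' (MvPolynomial.map (algebraMap k0 E) Q) =
        Polynomial.C c' * Polynomial.X ^ k) ∧
      Polynomial.derivative (P' j1) * P' j2 ≠ P' j1 * Polynomial.derivative (P' j2) := by
  classical
  obtain ⟨D, hD⟩ : ∃ D, ∀ j, (P j).natDegree ≤ D := ⟨∑ j, (P j).natDegree, fun j =>
    Finset.single_le_sum (f := fun j => (P j).natDegree) (fun _ _ => Nat.zero_le _)
      (Finset.mem_univ j)⟩
  let ρ : MvPolynomial (Fin (N + 1) × Fin (D + 1)) k0 →+* M :=
    eval₂Hom (algebraMap k0 M) fun i => (P i.1).coeff i.2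
  have hρP : (fun j => (Pu k0 N D j).map ρ) = P := by
    funext j
    exact map_Pu D ρ hD (fun j i => by simp [ρ]) j
  have hρc : ρ.comp (algebraMap k0 _) = algebraMap k0 M := by
    ext c
    have h1 : algebraMap k0 (MvPolynomial (Fin (N + 1) × Fin (D + 1)) k0) c = C c := rfl
    rw [RingHom.comp_apply, h1]
    simp [ρ]
  obtain ⟨v, hv⟩ := spec ρ
  let θ' : MvPolynomial (Fin (N + 1) × Fin (D + 1)) k0 →+* (ℕ → E) :=
    RingHom.pi fun m => (algebraMap k0 E).comp (eval (v m))
  let θ : MvPolynomial (Fin (N + 1) × Fin (D + 1)) k0 →+* (ES E) := (ge E).comp θ'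
  have hθ' : ∀ h m, θ' h m = algebraMap k0 E (eval (v m) h) := fun h m => rfl
  have hθ : ∀ h, θ h = 0 ↔ ρ h = 0 := by
    intro h
    have h1 : θ h = 0 ↔ ∀ᶠ m in (U : Filter ℕ), eval (v m) h = 0 := by
      change (ge E) (θ' h) = 0 ↔ _
      rw [← map_zero (ge E), ge_eq]
      refine eventually_congr (Eventually.of_forall fun m => ?_)
      rw [hθ']
      exact map_eq_zero_iff _ (algebraMap k0 E).injective
    rw [h1]
    constructor
    · intro h2
      by_contra h3
      have h4 := Nat.hyperfilter_le_atTop ((hv h).2 h3)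
      obtain ⟨m, h5, h6⟩ := (h2.and h4).exists
      exact h6 h5
    · intro h2
      exact Eventually.of_forall ((hv h).1 h2)
  have hθc : θ.comp (algebraMap k0 _) = (algebraMap E (ES E)).comp (algebraMap k0 E) := by
    ext c
    have h1 : algebraMap k0 (MvPolynomial (Fin (N + 1) × Fin (D + 1)) k0) c = C c := rfl
    rw [RingHom.comp_apply, h1]
    change (ge E) (θ' (C c)) = (ge E) _
    congr 1
    funext m
    rw [hθ', eval_C]
    rfl
  have hpoly : ∀ q : Polynomial (MvPolynomial (Fin (N + 1) × Fin (D + 1)) k0),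
      q.map θ = 0 ↔ q.map ρ = 0 := by
    intro q
    rw [Polynomial.ext_iff, Polynomial.ext_iff]
    simp only [Polynomial.coeff_map, Polynomial.coeff_zero, hθ]
  have hk0 : ∀ G : MvPolynomial (Fin (N + 1)) k0,
      ((aeval (fun j => (Pu k0 N D j).map θ) (MvPolynomial.map (algebraMap k0 E) G) :
        Polynomial (ES E)) = 0 ↔ aeval P G = 0) := by
    intro G
    rw [map_fam θ hθc, hpoly, ← map_fam0 ρ hρc, hρP]
  refine ⟨fun j => (Pu k0 N D j).map θ, fun G hG => ⟨fun h0 => ?_, fun h0 => ?_⟩, ?_, ?_⟩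
  · -- the coordinates
    obtain ⟨m0, hm0⟩ := hG
    let b := Module.Basis.ofVectorSpace k0 E
    apply mem_of_pr b
    intro i
    rw [← hP _ ⟨m0, pr_hom hm0⟩, ← hk0]
    ext s
    rw [Polynomial.coeff_zero, coeff_fam]
    have h1 := congrArg (fun q => Polynomial.coeff q s) h0
    simp only [Polynomial.coeff_zero] at h1
    rw [coeff_fam] at h1
    have h2 : (ge E) (fun m => ∑ β ∈ G.support, coeff β G *
        algebraMap k0 E (eval (v m) ((∏ j, Pu k0 N D j ^ β j).coeff s))) = 0 := by
      rw [← h1]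
      have h3 : (fun m => ∑ β ∈ G.support, coeff β G *
          algebraMap k0 E (eval (v m) ((∏ j, Pu k0 N D j ^ β j).coeff s))) =
          ∑ β ∈ G.support, (Pi.constRingHom ℕ E (coeff β G)) *
            θ' ((∏ j, Pu k0 N D j ^ β j).coeff s) := by
        funext m
        rw [Finset.sum_apply]
        rfl
      rw [h3, map_sum]
      apply Finset.sum_congr rfl
      intro β _
      rw [map_mul]
      rfl
    rw [← map_zero (ge E), ge_eq] at h2
    have h4 : (∑ β ∈ (MvPolynomial.map (algebraMap k0 E) (pr (b.coord i) G)).support,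
        algebraMap E (ES E) (coeff β (MvPolynomial.map (algebraMap k0 E) (pr (b.coord i) G))) *
          θ ((∏ j, Pu k0 N D j ^ β j).coeff s)) =
        (ge E) (fun m => algebraMap k0 E (b.coord i (∑ β ∈ G.support, coeff β G *
          algebraMap k0 E (eval (v m) ((∏ j, Pu k0 N D j ^ β j).coeff s))))) := by
      have h5 : (fun m => algebraMap k0 E (b.coord i (∑ β ∈ G.support, coeff β G *
          algebraMap k0 E (eval (v m) ((∏ j, Pu k0 N D j ^ β j).coeff s))))) =
          ∑ β ∈ G.support, (Pi.constRingHom ℕ E (algebraMap k0 E (b.coord i (coeff β G)))) *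
            θ' ((∏ j, Pu k0 N D j ^ β j).coeff s) := by
        funext m
        rw [Finset.sum_apply, map_sum, map_sum]
        apply Finset.sum_congr rfl
        intro β _
        rw [mul_comm, ← Algebra.smul_def, map_smul, smul_eq_mul, map_mul, mul_comm]
        rfl
      rw [h5, map_sum]
      apply Finset.sum_subset_zero_on_sdiff
      · intro β hβ
        rw [MvPolynomial.mem_support_iff, coeff_map, coeff_pr] at hβ
        rw [MvPolynomial.mem_support_iff]
        intro h6
        apply hβ
        rw [h6, map_zero, map_zero]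
      · intro β hβ
        have h6 := (Finset.mem_sdiff.1 hβ).2
        rw [MvPolynomial.notMem_support_iff, coeff_map, coeff_pr] at h6
        rw [h6, map_zero, map_mul, map_zero, zero_mul]
      · intro β _
        rw [map_mul, coeff_map, coeff_pr]
        rfl
    rw [h4, ← map_zero (ge E), ge_eq]
    filter_upwards [h2] with m hm
    rw [hm]
    simp
  · -- the generators
    have h1 : Ideal.span (MvPolynomial.map (algebraMap k0 E) '' T) ≤
        RingHom.ker (aeval (fun j => (Pu k0 N D j).map θ) :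
          MvPolynomial (Fin (N + 1)) E →ₐ[E] Polynomial (ES E)).toRingHom := by
      apply Ideal.span_le.2
      rintro _ ⟨H, hH, rfl⟩
      obtain ⟨h2, h3⟩ := hT H hH
      exact (hk0 H).2 ((hP H h2).2 h3)
    exact h1 (hp G h0 hG)
  · refine ⟨θ ((aeval (Pu k0 N D) Q : Polynomial _).coeff k), ?_, ?_⟩
    · rw [Ne, hθ, ← Polynomial.coeff_map, ← map_fam0 ρ hρc, hρP, hQ]
      simpa using hc
    · ext s
      rw [map_fam θ hθc, Polynomial.coeff_map, Polynomial.coeff_C_mul, Polynomial.coeff_X_pow]
      by_cases hs : s = k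
      · rw [if_pos hs, mul_one, hs]
      · rw [if_neg hs, mul_zero, hθ, ← Polynomial.coeff_map, ← map_fam0 ρ hρc, hρP, hQ,
          Polynomial.coeff_C_mul, Polynomial.coeff_X_pow, if_neg hs, mul_zero]
  · intro h0
    apply hW
    have h1 : (Polynomial.derivative (Pu k0 N D j1) * Pu k0 N D j2 -
        Pu k0 N D j1 * Polynomial.derivative (Pu k0 N D j2)).map θ = 0 := by
      rw [Polynomial.map_sub, Polynomial.map_mul, Polynomial.map_mul, ← Polynomial.derivative_map,
        ← Polynomial.derivative_map, h0, sub_self]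
    rw [hpoly, Polynomial.map_sub, Polynomial.map_mul, Polynomial.map_mul,
      ← Polynomial.derivative_map, ← Polynomial.derivative_map, sub_eq_zero] at h1
    have h2 := congrFun hρP j1
    have h3 := congrFun hρP j2
    rw [h2, h3] at h1
    exact h1

end Pool.Agent.N131.FV
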