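import Mathlib
import Pool.Agent.TH143.GT.Sec
import Pool.Agent.Y377.IL.StmC

/-!
Varieties over an arbitrary field of characteristic zero which are covered by images of the punctured
line are not of logarithmic general type (after TH143/GT/Desc and Y405/IL/Lgt).
-/

set_option autoImplicit false

namespace Pool.Agent.N131.FV

open MvPolynomial Pool.Agent.TH143.GT
open Pool.Agent.W602.GT (IsForm LogGeneralType)
open Pool.Agent.W603.GR (OffQ SubVarP)

variable {k : Type} [Field k] {N : ℕ}

theorem map_aeval'' {R R' : Type} [CommRing R] [CommRing R'] [Algebra k R] [Algebra k R']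
    (f : R →ₐ[k] R') (W : Fin (N + 1) → Polynomial R) (G : MvPolynomial (Fin (N + 1)) k) :
    (aeval W G).map (f : R →+* R') = aeval (fun j => (W j).map (f : R →+* R')) G := by
  have h4 := MvPolynomial.comp_aeval_apply (f := W) (Polynomial.mapAlgHom f) G
  exact h4

/-- descent of a family of curves to a finitely generated field of coefficients -/
theorem desc' {R : Type} [CommRing R] [IsDomain R] [Algebra k R] (W : Fin (N + 1) → Polynomial R)
    (g0 g1 Q : MvPolynomial (Fin (N + 1)) k)
    (hQ : ∃ (h : Polynomial R) (c : R) (e : ℕ), c ≠ 0 ∧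
        aeval W Q * h = Polynomial.C c * Polynomial.X ^ e)
    (hg : Polynomial.derivative (aeval W g1) * aeval W g0 ≠
        aeval W g1 * Polynomial.derivative (aeval W g0)) :
    ∃ (M : Type) (_ : Field M) (_ : Algebra k M) (m : ℕ), Algebra.trdeg k M = m ∧
      ∃ W' : Fin (N + 1) → Polynomial M,
        (∀ G : MvPolynomial (Fin (N + 1)) k, aeval W' G = 0 ↔ aeval W G = 0) ∧
        (∃ (c : M) (e : ℕ), c ≠ 0 ∧ aeval W' Q = Polynomial.C c * Polynomial.X ^ e) ∧
        Polynomial.derivative (aeval W' g1) * aeval W' g0 ≠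
          aeval W' g1 * Polynomial.derivative (aeval W' g0) := by
  classical
  let E := FractionRing R
  let i : R →ₐ[k] E := IsScalarTower.toAlgHom k R E
  have hi : Function.Injective i := IsFractionRing.injective R E
  have hi' : Function.Injective (i : R →+* E) := hi
  let T : Finset E := Finset.univ.biUnion fun j => (W j).support.image fun n => i ((W j).coeff n)
  let M : IntermediateField k E := IntermediateField.adjoin k (T : Set E)
  have hess : Algebra.EssFiniteType k M :=
    IntermediateField.essFiniteType_iff.2 ⟨T, rfl⟩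
  have hlt := trdeg_lt_aleph0 k M
  obtain ⟨m, hm⟩ := Cardinal.lt_aleph0.1 hlt
  have hl : ∀ j, ∃ w : Polynomial M, w.map (M.val : M →+* E) = (W j).map (i : R →+* E) := by
    intro j
    have h1 : (W j).map (i : R →+* E) ∈ Polynomial.lifts (M.val : M →+* E) := by
      rw [Polynomial.lifts_iff_coeff_lifts]
      intro n
      rw [Polynomial.coeff_map]
      by_cases hn : (W j).coeff n = 0
      · rw [hn, map_zero]
        exact ⟨0, map_zero _⟩
      · have h2 : i ((W j).coeff n) ∈ M := by
          apply IntermediateField.subset_adjoin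
          simp only [T, Finset.coe_biUnion, Finset.mem_coe, Finset.mem_univ, Set.iUnion_true,
            Set.mem_iUnion, Finset.mem_image]
          exact ⟨j, n, Polynomial.mem_support_iff.2 hn, rfl⟩
        exact ⟨⟨_, h2⟩, rfl⟩
    exact (Polynomial.mem_lifts _).1 h1
  choose W' hW' using hl
  have hMinj : Function.Injective (M.val : M →+* E) := M.val.toRingHom.injective
  have hmap : ∀ G : MvPolynomial (Fin (N + 1)) k,
      (aeval W' G).map (M.val : M →+* E) = (aeval W G).map (i : R →+* E) := by
    intro G
    rw [map_aeval'', map_aeval'']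
    congr 1
    congr 1
    funext j
    exact hW' j
  refine ⟨M, inferInstance, inferInstance, m, hm, W', ?_, ?_, ?_⟩
  · intro G
    rw [← Polynomial.map_eq_zero_iff hMinj, hmap, Polynomial.map_eq_zero_iff hi']
  · obtain ⟨h, c, e, hc, hh⟩ := hQ
    have h1 : (aeval W' Q).map (M.val : M →+* E) * h.map (i : R →+* E) =
        Polynomial.C (i c) * Polynomial.X ^ e := by
      rw [hmap, ← Polynomial.map_mul, hh, Polynomial.map_mul, Polynomial.map_C, Polynomial.map_pow,
        Polynomial.map_X]
      rfl
    have hic : i c ≠ 0 := by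
      rw [Ne, map_eq_zero_iff i hi]
      exact hc
    have h2 : (aeval W' Q).map (M.val : M →+* E) ∣ Polynomial.X ^ e := by
      refine ⟨h.map (i : R →+* E) * Polynomial.C (i c)⁻¹, ?_⟩
      rw [← mul_assoc, h1, mul_comm, ← mul_assoc, ← Polynomial.C_mul, inv_mul_cancel₀ hic,
        Polynomial.C_1, one_mul]
    obtain ⟨l, hl, hass⟩ := (dvd_prime_pow Polynomial.prime_X e).1 h2
    obtain ⟨u, hu⟩ := hass.symm
    obtain ⟨u0, hu0, hu1⟩ := Polynomial.isUnit_iff.1 u.isUnit
    have h3 : (aeval W' Q).map (M.val : M →+* E) = Polynomial.C u0 * Polynomial.X ^ l := by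
      rw [← hu, ← hu1, mul_comm]
    have h4 : ((aeval W' Q).coeff l : E) = u0 := by
      have := congrArg (fun p => Polynomial.coeff p l) h3
      simpa [Polynomial.coeff_map] using this
    refine ⟨(aeval W' Q).coeff l, l, ?_, ?_⟩
    · intro h0
      rw [h0] at h4
      exact hu0.ne_zero h4.symm
    · apply Polynomial.map_injective _ hMinj
      rw [h3, Polynomial.map_mul, Polynomial.map_C, Polynomial.map_pow, Polynomial.map_X]
      congr 1
      congr 1
      exact h4.symm
  · intro h0
    apply hg
    apply Polynomial.map_injective (i : R →+* E) hi'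
    have h1 := congrArg (Polynomial.map (M.val : M →+* E)) h0
    rw [Polynomial.map_mul, Polynomial.map_mul, ← Polynomial.derivative_map,
      ← Polynomial.derivative_map, hmap, hmap] at h1
    rw [Polynomial.map_mul, Polynomial.map_mul, ← Polynomial.derivative_map,
      ← Polynomial.derivative_map]
    exact h1



/-- **Families of punctured lines and logarithmic general type.** -/
theorem lgt [CharZero k] {p : Ideal (MvPolynomial (Fin (N + 1)) k)}
    {Q : MvPolynomial (Fin (N + 1)) k} {q : ℕ} {K : Type} [Field K] [Algebra k K] {w : ℕ}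
    {y : Fin (N + 1) → K} (hQh : Q.IsHomogeneous q) (hy : SubVarP p Q K w y)
    {M : Type} [Field M] [Algebra k M] {P : Fin (N + 1) → Polynomial M}
    (hrel : ∀ G : MvPolynomial (Fin (N + 1)) k, IsForm G →
      (W602.GT.val y G = 0 ↔ aeval P G = 0))
    (hbd : ∃ (c : M) (e : ℕ), c ≠ 0 ∧ aeval P Q = Polynomial.C c * Polynomial.X ^ e)
    (hw : ∃ i j, Polynomial.derivative (P i) * P j ≠ P i * Polynomial.derivative (P j)) :
    ¬ LogGeneralType k K w (OffQ Q q y) := by
  intro hL
  obtain ⟨j, i, hjk⟩ := hw
  obtain ⟨c, e, hc, hce⟩ := hbd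
  have hPk : P i ≠ 0 := by
    intro h0
    apply hjk
    rw [h0, mul_zero, Polynomial.derivative_zero, mul_zero]
  obtain ⟨M', _, _, m', hm', W', hW1, ⟨c', e', hc', hce'⟩, hW3⟩ := desc' P (X i) (X j) Q
    ⟨1, c, e, hc, by rw [mul_one]; exact hce⟩ (by
      rw [aeval_X, aeval_X]
      exact hjk)
  have hF : Fam y Q W' e' := ⟨fun H hH => by rw [hrel H hH, hW1 H], c', hc', hce'⟩
  have hvk : W602.GT.val y (X i : MvPolynomial (Fin (N + 1)) k) ≠ 0 := by
    intro h0
    rw [hrel (X i : MvPolynomial (Fin (N + 1)) k) ⟨1, isHomogeneous_X k i⟩, aeval_X] at h0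
    exact hPk h0
  have hflat := (hF.main hy.dim hm' hy.ne hy.gen hQh).2.2.1 hL
    (W602.GT.val y (X j : MvPolynomial (Fin (N + 1)) k) /
      W602.GT.val y (X i : MvPolynomial (Fin (N + 1)) k))
  exact hW3 (hflat 1 (X j) (X i) (isHomogeneous_X k j) (isHomogeneous_X k i) hvk rfl)

end Pool.Agent.N131.FV
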