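import Mathlib
import Pool.Agent.N131.FV.Cneg
import Pool.Agent.N131.FV.Ext
import Pool.Agent.N131.FV.Lgt

/-!
The inequality for the points of varieties of logarithmic general type over function fields.
-/

set_option autoImplicit false

namespace Pool.Agent.N131.FV

open Set Filter FF MvPolynomial Pool.Agent.W603.LV Pool.Agent.W603.PV
open Pool.Agent.W602.GT (IsForm LogGeneralType val)
open Pool.Agent.W603.GR (OffQ SubVarP)
open Pool.Agent.N131.SU (CS exists_iso)

variable {N : ℕ}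

section sub

variable {E : Type} [Field E]

/-- countable algebraically closed subfields -/
theorem exists_k0 [IsAlgClosed E] {S : Set E} (hS : S.Countable) : ∃ (k0 : Type) (_ : Field k0)
    (_ : Algebra k0 E), IsAlgClosed k0 ∧ Countable k0 ∧ S ⊆ Set.range (algebraMap k0 E) := by
  let R : Subfield E := Subfield.closure S
  have hR : Cardinal.mk R ≤ Cardinal.aleph0 := by
    refine (Subfield.cardinalMk_closure_le_max S).trans ?_
    exact max_le hS.le_aleph0 le_rfl
  refine ⟨algebraicClosure R E, inferInstance, inferInstance, ?_, ?_, ?_⟩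
  · exact (algebraicClosure.isAlgClosure R E).isAlgClosed
  · rw [← Cardinal.mk_le_aleph0_iff]
    exact (Algebra.IsAlgebraic.cardinalMk_le_max R (algebraicClosure R E)).trans
      (max_le hR le_rfl)
  · intro s hs
    refine ⟨algebraMap R (algebraicClosure R E) ⟨s, Subfield.subset_closure hs⟩, rfl⟩

/-- polynomials over a subfield -/
theorem exists_map {k0 : Type} [Field k0] [Algebra k0 E] {G : MvPolynomial (Fin (N + 1)) E}
    (h : ∀ β, coeff β G ∈ Set.range (algebraMap k0 E)) :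
    ∃ G0 : MvPolynomial (Fin (N + 1)) k0, MvPolynomial.map (algebraMap k0 E) G0 = G := by
  classical
  choose c hc using h
  refine ⟨∑ β ∈ G.support, monomial β (c β), ?_⟩
  rw [map_sum]
  conv_rhs => rw [G.as_sum]
  apply Finset.sum_congr rfl
  intro β _
  rw [map_monomial, hc]

theorem hom_of_map {k0 : Type} [Field k0] [Algebra k0 E] {G : MvPolynomial (Fin (N + 1)) k0}
    {m : ℕ} (hm : (MvPolynomial.map (algebraMap k0 E) G).IsHomogeneous m) :
    G.IsHomogeneous m := by
  intro β hβ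
  apply hm
  rw [coeff_map]
  intro h0
  exact hβ ((map_eq_zero_iff _ (algebraMap k0 E).injective).1 h0)

theorem form_of_map {k0 : Type} [Field k0] [Algebra k0 E] {G : MvPolynomial (Fin (N + 1)) k0}
    (h : IsForm (MvPolynomial.map (algebraMap k0 E) G)) : IsForm G := by
  obtain ⟨m, hm⟩ := h
  exact ⟨m, hom_of_map hm⟩

theorem map_form {k0 : Type} [Field k0] [Algebra k0 E] {G : MvPolynomial (Fin (N + 1)) k0}
    (h : IsForm G) : IsForm (MvPolynomial.map (algebraMap k0 E) G) := by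
  obtain ⟨m, hm⟩ := h
  exact ⟨m, hm.map _⟩

theorem isForm_prod {ι : Type} (s : Finset ι) {G : ι → MvPolynomial (Fin (N + 1)) E}
    (h : ∀ i ∈ s, IsForm (G i)) : IsForm (∏ i ∈ s, G i) := by
  classical
  induction s using Finset.induction_on with
  | empty => exact ⟨0, isHomogeneous_one _ _⟩
  | insert i s hi ih =>
    rw [Finset.prod_insert hi]
    obtain ⟨a, ha⟩ := h i (Finset.mem_insert_self i s)
    obtain ⟨b, hb⟩ := ih fun j hj => h j (Finset.mem_insert_of_mem hj)
    exact ⟨a + b, ha.mul hb⟩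

/-- data of a subfield, with the forms which do not belong to an ideal -/
theorem exists_enum {k0 : Type} [Field k0] [Algebra k0 E] [Countable k0]
    {p : Ideal (MvPolynomial (Fin (N + 1)) E)} (h1 : (1 : MvPolynomial (Fin (N + 1)) E) ∉ p)
    (hmul : ∀ F G : MvPolynomial (Fin (N + 1)) E, IsForm F → IsForm G → F * G ∈ p →
      F ∈ p ∨ G ∈ p) :
    ∃ B : ℕ → MvPolynomial (Fin (N + 1)) E, (∀ k, IsForm (B k) ∧ B k ∉ p) ∧
      ∀ G : MvPolynomial (Fin (N + 1)) k0, IsForm G → MvPolynomial.map (algebraMap k0 E) G ∉ p →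
        ∃ i, ∀ k, i ≤ k → MvPolynomial.map (algebraMap k0 E) G ∣ B k := by
  classical
  have hcount : Countable (MvPolynomial (Fin (N + 1)) k0) := by
    have h1 : Cardinal.mk (MvPolynomial (Fin (N + 1)) k0) ≤ Cardinal.aleph0 := by
      refine MvPolynomial.cardinalMk_le_max.trans ?_
      refine max_le (max_le ?_ ?_) le_rfl
      · exact Cardinal.mk_le_aleph0
      · exact Cardinal.mk_le_aleph0
    exact Cardinal.mk_le_aleph0_iff.1 h1
  have hne : Nonempty {G : MvPolynomial (Fin (N + 1)) k0 // IsForm G ∧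
      MvPolynomial.map (algebraMap k0 E) G ∉ p} := ⟨⟨1, ⟨0, isHomogeneous_one _ _⟩, by
    rwa [map_one]⟩⟩
  obtain ⟨g, hg⟩ := exists_surjective_nat {G : MvPolynomial (Fin (N + 1)) k0 // IsForm G ∧
      MvPolynomial.map (algebraMap k0 E) G ∉ p}
  refine ⟨fun k => ∏ i ∈ Finset.range (k + 1), MvPolynomial.map (algebraMap k0 E) (g i).1,
    fun k => ⟨isForm_prod _ fun i _ => map_form (g i).2.1, ?_⟩, fun G hG hGp => ?_⟩
  · have h2 : ∀ s : Finset ℕ,
        ∏ i ∈ s, MvPolynomial.map (algebraMap k0 E) (g i).1 ∉ p := by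
      intro s
      induction s using Finset.induction_on with
      | empty => simpa using h1
      | insert i s hi ih =>
        rw [Finset.prod_insert hi]
        intro h3
        rcases hmul _ _ (map_form (g i).2.1) (isForm_prod _ fun i _ => map_form (g i).2.1) h3
          with h4 | h4
        · exact (g i).2.2 h4
        · exact ih h4
    exact h2 _
  · obtain ⟨i, hi⟩ := hg ⟨G, hG, hGp⟩
    refine ⟨i, fun k hk => ?_⟩
    have h2 := Finset.dvd_prod_of_mem (fun i => MvPolynomial.map (algebraMap k0 E) (g i).1)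
      (Finset.mem_range.2 (show i < k + 1 by omega))
    simp only [hi] at h2
    exact h2

theorem gens (J : Set (MvPolynomial (Fin (N + 1)) E)) :
    ∃ T : Finset (MvPolynomial (Fin (N + 1)) E), ↑T ⊆ J ∧ Ideal.span J = Ideal.span (T : Set _) :=
  (Submodule.fg_span_iff_fg_span_finset_subset J).1 (IsNoetherian.noetherian (Ideal.span J))

/-- forms which do not vanish at the generic point -/
theorem gp_mul {p : Ideal (MvPolynomial (Fin (N + 1)) E)}
    {K : Type} [Field K] [Algebra E K] {y : Fin (N + 1) → K}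
    (hp1 : ∀ G ∈ p, val y G = 0) (hp2 : ∀ G, IsForm G → val y G = 0 → G ∈ p)
    (F G : MvPolynomial (Fin (N + 1)) E) (hF : IsForm F) (hG : IsForm G) (h : F * G ∈ p) :
    F ∈ p ∨ G ∈ p := by
  have h1 := hp1 _ h
  unfold val at h1
  rw [map_mul, mul_eq_zero] at h1
  exact h1.imp (hp2 F hF) (hp2 G hG)

theorem gp_one {p : Ideal (MvPolynomial (Fin (N + 1)) E)}
    {K : Type} [Field K] [Algebra E K] {y : Fin (N + 1) → K}
    (hp1 : ∀ G ∈ p, val y G = 0) : (1 : MvPolynomial (Fin (N + 1)) E) ∉ p := by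
  intro h
  have h1 := hp1 _ h
  unfold val at h1
  rw [map_one] at h1
  exact one_ne_zero h1

end sub

variable {F E : Type} [Field F] [Algebra ℂ F] [IsFF ℂ F] [Field E] [Algebra ℂ E] [Algebra F E]
  [IsScalarTower ℂ F E] [Algebra.IsAlgebraic F E]

/-- a point of the complement of `Q = 0` in the variety with the ideal `p`, off `A = 0` -/
structure PtX (p : Ideal (MvPolynomial (Fin (N + 1)) E)) (Q : MvPolynomial (Fin (N + 1)) F)
    (A : MvPolynomial (Fin (N + 1)) E) {L : IntermediateField F E} (x : Fin (N + 1) → L) :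
    Prop where
  ne : ∃ j, x j ≠ 0
  mem : ∀ G ∈ p, IsForm G → aeval (fun j => (x j : E)) G = 0
  off : aeval x Q ≠ 0
  gen : aeval (fun j => (x j : E)) A ≠ 0

/-- the right-hand side -/
noncomputable def rhs (S : Finset (Place ℂ F)) (Q : MvPolynomial (Fin (N + 1)) F) (d : ℕ)
    {L : IntermediateField F E} [FiniteDimensional F L] (x : Fin (N + 1) → L) : ℤ :=
  let _ : IsFF ℂ L := isFF_inter L
  disc ℂ F L + {P : Place ℂ L | under F P ∉ S ∧ d * mo P x < P.ord (aeval x Q)}.ncard +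
    {P : Place ℂ L | under F P ∉ S ∧ P ∈ osc ℂ x}.ncard + Module.finrank F L

omit [Algebra.IsAlgebraic F E] in
theorem sm_of {L : ℕ → IntermediateField F E} [∀ n, FiniteDimensional F (L n)] {h b : ℕ → ℤ}
    {S : Finset (Place ℂ F)} {Q : MvPolynomial (Fin (N + 1)) F} {d : ℕ}
    {x : ∀ n, Fin (N + 1) → L n} (hx : ∀ n : ℕ, n * rhs S Q d (x n) < h n)
    (hb : ∀ n, 0 ≤ b n) (hbr : ∀ n, b n ≤ rhs S Q d (x n)) : Sm h b := by
  intro m
  have h1 : ∀ᶠ n in (hyperfilter ℕ : Filter ℕ), m ≤ n :=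
    Nat.hyperfilter_le_atTop (eventually_ge_atTop m)
  refine h1.mono fun n hn => ?_
  have h2 := hx n
  have h3 := hbr n
  have h4 := hb n
  have h5 : (m : ℤ) ≤ n := by exact_mod_cast hn
  have h6 : (m : ℤ) * b n ≤ n * b n := mul_le_mul_of_nonneg_right h5 h4
  have h7 : (n : ℤ) * b n ≤ n * rhs S Q d (x n) :=
    mul_le_mul_of_nonneg_left h3 (Int.natCast_nonneg n)
  linarith

omit [Algebra.IsAlgebraic F E] in
theorem disc_nn (L : IntermediateField F E) [FiniteDimensional F L] : 0 ≤ disc ℂ F L := by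
  have := isFF_inter (k := ℂ) L
  unfold disc
  refine finsum_nonneg fun P => ?_
  have := (ram_spec (F := F) P).1
  omega

omit [Algebra.IsAlgebraic F E] in
theorem rhs_parts (S : Finset (Place ℂ F)) (Q : MvPolynomial (Fin (N + 1)) F) (d : ℕ)
    {L : IntermediateField F E} [FiniteDimensional F L] [IsFF ℂ L] (x : Fin (N + 1) → L) :
    rhs S Q d x = disc ℂ F L +
      {P : Place ℂ L | under F P ∉ S ∧ d * mo P x < P.ord (aeval x Q)}.ncard +
      {P : Place ℂ L | under F P ∉ S ∧ P ∈ osc ℂ x}.ncard + Module.finrank F L := rfl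

/-- **Families of punctured lines.** -/
theorem gen_bd [IsAlgClosed E] (S : Finset (Place ℂ F)) {Q : MvPolynomial (Fin (N + 1)) F} {d : ℕ}
    (hQ : Q.IsHomogeneous d) {p : Ideal (MvPolynomial (Fin (N + 1)) E)}
    (h1 : (1 : MvPolynomial (Fin (N + 1)) E) ∉ p)
    (hmul : ∀ F G : MvPolynomial (Fin (N + 1)) E, IsForm F → IsForm G → F * G ∈ p →
      F ∈ p ∨ G ∈ p)
    (hno : ∀ A : MvPolynomial (Fin (N + 1)) E, IsForm A → A ∉ p → ∀ C : ℕ,
      ∃ (L : IntermediateField F E) (_ : FiniteDimensional F L) (x : Fin (N + 1) → L),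
        PtX p Q A x ∧ C * rhs S Q d x < hp ℂ x) :
    ∃ P : Fin (N + 1) → Polynomial (ES E),
      (∀ G : MvPolynomial (Fin (N + 1)) E, IsForm G → (aeval P G = 0 ↔ G ∈ p)) ∧
      (∃ (c : ES E) (k : ℕ), c ≠ 0 ∧ aeval P (MvPolynomial.map (algebraMap F E) Q) =
        Polynomial.C c * Polynomial.X ^ k) ∧
      ∃ j k, Polynomial.derivative (P j) * P k ≠ P j * Polynomial.derivative (P k) := by
  classical
  set QE : MvPolynomial (Fin (N + 1)) E := MvPolynomial.map (algebraMap F E) Q with hQE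
  let J' : Set (MvPolynomial (Fin (N + 1)) E) := {F | F ∈ p ∧ IsForm F}
  obtain ⟨T', hTJ', hT'⟩ := gens J'
  have hS : (⋃ G ∈ (({QE} : Set (MvPolynomial (Fin (N + 1)) E)) ∪ ↑T'),
      Set.range fun β => coeff β G).Countable :=
    ((Set.countable_singleton QE).union T'.countable_toSet).biUnion
      fun G _ => Set.countable_range _
  obtain ⟨k0, i1, i2, hk1, hk2, hk3⟩ := exists_k0 hS
  have hmap : ∀ G ∈ (({QE} : Set (MvPolynomial (Fin (N + 1)) E)) ∪ ↑T'),
      ∃ G0 : MvPolynomial (Fin (N + 1)) k0, MvPolynomial.map (algebraMap k0 E) G0 = G :=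
    fun G hG => exists_map fun β => hk3 (Set.mem_biUnion hG ⟨β, rfl⟩)
  obtain ⟨Q0, hQ0⟩ := hmap QE (Or.inl rfl)
  have hQ0h : Q0.IsHomogeneous d := hom_of_map (E := E) (by rw [hQ0, hQE]; exact hQ.map _)
  obtain ⟨B, hB, hBd⟩ := exists_enum (k0 := k0) h1 hmul
  choose L hL x hx hxh using fun n => hno (B n) (hB n).1 (hB n).2 n
  have hFF : ∀ n, IsFF ℂ (L n) := fun n => isFF_inter (L n)
  set h : ℕ → ℤ := fun n => hp ℂ (x n) with hh
  have hdn : ∀ n, 0 ≤ disc ℂ F (L n) := fun n => disc_nn (L n)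
  have hr0 : ∀ n, 0 ≤ rhs S Q d (x n) := fun n => by
    rw [rhs_parts]
    have := hdn n
    positivity
  have hpos : ∀ n, 0 < h n := fun n =>
    lt_of_le_of_lt (mul_nonneg (Int.natCast_nonneg n) (hr0 n)) (hxh n)
  have hd : Sm h fun n => disc ℂ F (L n) := sm_of hxh hdn fun n => by
    rw [rhs_parts]
    have h2 : (0 : ℤ) ≤ {P : Place ℂ (L n) | under F P ∉ S ∧
      d * mo P (x n) < P.ord (aeval (x n) Q)}.ncard := Int.natCast_nonneg _
    have h3 : (0 : ℤ) ≤ {P : Place ℂ (L n) | under F P ∉ S ∧ P ∈ osc ℂ (x n)}.ncard :=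
      Int.natCast_nonneg _
    have h4 : (0 : ℤ) ≤ Module.finrank F (L n) := Int.natCast_nonneg _
    linarith
  have hf : Sm h fun n => Module.finrank F (L n) := sm_of hxh (fun n => Int.natCast_nonneg _)
    fun n => by
    rw [rhs_parts]
    have h2 : (0 : ℤ) ≤ {P : Place ℂ (L n) | under F P ∉ S ∧
      d * mo P (x n) < P.ord (aeval (x n) Q)}.ncard := Int.natCast_nonneg _
    have h3 : (0 : ℤ) ≤ {P : Place ℂ (L n) | under F P ∉ S ∧ P ∈ osc ℂ (x n)}.ncard :=
      Int.natCast_nonneg _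
    have h4 := hdn n
    linarith
  have ho' : Sm h fun n => ({P : Place ℂ (L n) | under F P ∉ S ∧ P ∈ osc ℂ (x n)}.ncard : ℤ) :=
    sm_of hxh (fun n => Int.natCast_nonneg _) fun n => by
    rw [rhs_parts]
    have h2 : (0 : ℤ) ≤ {P : Place ℂ (L n) | under F P ∉ S ∧
      d * mo P (x n) < P.ord (aeval (x n) Q)}.ncard := Int.natCast_nonneg _
    have h3 : (0 : ℤ) ≤ Module.finrank F (L n) := Int.natCast_nonneg _
    have h4 := hdn n
    linarith
  have hq' : Sm h fun n => ({P : Place ℂ (L n) | under F P ∉ S ∧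
      d * mo P (x n) < P.ord (aeval (x n) Q)}.ncard : ℤ) :=
    sm_of hxh (fun n => Int.natCast_nonneg _) fun n => by
    rw [rhs_parts]
    have h2 : (0 : ℤ) ≤ {P : Place ℂ (L n) | under F P ∉ S ∧ P ∈ osc ℂ (x n)}.ncard :=
      Int.natCast_nonneg _
    have h3 : (0 : ℤ) ≤ Module.finrank F (L n) := Int.natCast_nonneg _
    have h4 := hdn n
    linarith
  have hc1 : (0 : ℤ) ≤ ∑ v ∈ S, hgt ℂ (unif v) := Finset.sum_nonneg fun v _ => hgt_nonneg _
  have hc2 : (0 : ℤ) ≤ ∑ α ∈ Q.support, hgt ℂ (coeff α Q) :=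
    Finset.sum_nonneg fun v _ => hgt_nonneg _
  have ho : Sm h fun n => ((osc ℂ (x n)).ncard : ℤ) := by
    refine (ho'.add (hf.mul (∑ v ∈ S, hgt ℂ (unif v)).toNat)).mono
      (Eventually.of_forall fun n => ?_)
    have := osc_card (k := ℂ) (hx n).ne S
    rw [Int.toNat_of_nonneg hc1]
    exact this
  have hq : Sm h fun n => ({P : Place ℂ (L n) |
      P.ord (aeval (x n) Q) ≠ d * mo P (x n)}.ncard : ℤ) := by
    refine (hq'.add (hf.mul (∑ α ∈ Q.support, hgt ℂ (coeff α Q) +
      ∑ v ∈ S, hgt ℂ (unif v)).toNat)).mono (Eventually.of_forall fun n => ?_)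
    have := q_card (k := ℂ) hQ (hx n).ne (hx n).off S
    rw [Int.toNat_of_nonneg (add_nonneg hc2 hc1)]
    exact this
  obtain ⟨σ, -⟩ := exists_iso (S := ∅) Set.countable_empty
  let i3 : Algebra k0 (KE σ E) := ((cs σ E).comp (algebraMap k0 E)).toAlgebra
  obtain ⟨xt, hxt, P, h2, ⟨a, k, ha, hak⟩, j1, j2, h4⟩ := key (σ := σ) (fun n => (hx n).ne) hpos
    (fun n => le_rfl) hd hf (fun n => (hx n).off) ho hq hQ0h (by rw [hQ0]) (fun c => rfl)
  have hP : ∀ G : MvPolynomial (Fin (N + 1)) k0, IsForm G →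
      (aeval P G = 0 ↔ MvPolynomial.map (algebraMap k0 E) G ∈ p) := by
    intro G hG
    rw [h2 _ hG, hxt _ hG]
    constructor
    · intro h5
      by_contra h6
      obtain ⟨i, hi⟩ := hBd G hG h6
      have h7 : ∀ᶠ k in (hyperfilter ℕ : Filter ℕ), i ≤ k :=
        Nat.hyperfilter_le_atTop (eventually_ge_atTop i)
      obtain ⟨n, h8, h9⟩ := (h5.and h7).exists
      obtain ⟨H, hH⟩ := hi n h9
      apply (hx n).gen
      rw [hH, map_mul, h8, zero_mul]
    · intro h5
      exact Eventually.of_forall fun n => (hx n).mem _ h5 (map_form hG)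
  have hT2 : ∀ H ∈ T', ∃ H0 : MvPolynomial (Fin (N + 1)) k0,
      MvPolynomial.map (algebraMap k0 E) H0 = H := fun H hH => hmap H (Or.inr hH)
  let T : Set (MvPolynomial (Fin (N + 1)) k0) := {H | MvPolynomial.map (algebraMap k0 E) H ∈ T'}
  have hT3 : (T' : Set (MvPolynomial (Fin (N + 1)) E)) ⊆
      MvPolynomial.map (algebraMap k0 E) '' T := by
    intro H hH
    obtain ⟨H0, hH0⟩ := hT2 H hH
    refine ⟨H0, ?_, hH0⟩
    change MvPolynomial.map (algebraMap k0 E) H0 ∈ T'
    rw [hH0]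
    exact hH
  obtain ⟨P', h5, ⟨a', h6, h7⟩, h8⟩ := ext_fam (p := p) (T := T) (fun G hG hGf => by
      have h9 : G ∈ Ideal.span J' := Ideal.subset_span ⟨hG, hGf⟩
      rw [hT'] at h9
      exact Ideal.span_mono hT3 h9) (fun H hH => by
      obtain ⟨h9, h10⟩ := hTJ' hH
      exact ⟨form_of_map h10, h9⟩) hP (Q := Q0) ha hak h4
  exact ⟨P', h5, ⟨a', k, h6, by rw [← hQ0]; exact h7⟩, j1, j2, h8⟩

/-- **Varieties of logarithmic general type.** -/
theorem main_bd [IsAlgClosed E] (S : Finset (Place ℂ F)) {Q : MvPolynomial (Fin (N + 1)) F}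
    {d : ℕ} (hQ : Q.IsHomogeneous d) {p : Ideal (MvPolynomial (Fin (N + 1)) E)}
    {K : Type} [Field K] [Algebra E K] {w : ℕ} {y : Fin (N + 1) → K}
    (hy : SubVarP p (MvPolynomial.map (algebraMap F E) Q) K w y)
    (hmem : ∀ G, IsForm G → val y G = 0 → G ∈ p)
    (hL : LogGeneralType E K w (OffQ (MvPolynomial.map (algebraMap F E) Q) d y)) :
    ∃ (A : MvPolynomial (Fin (N + 1)) E) (C : ℕ), IsForm A ∧ A ∉ p ∧
      ∀ (L : IntermediateField F E) [FiniteDimensional F L] (x : Fin (N + 1) → L),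
        PtX p Q A x → hp ℂ x ≤ C * rhs S Q d x := by
  by_contra hcon
  have hE : CharZero E := charZero_of_injective_algebraMap (algebraMap ℂ E).injective
  obtain ⟨P, h2, h3, h4⟩ := gen_bd S hQ (gp_one hy.mem) (gp_mul hy.mem hmem)
    (fun A hA hAp C => by
      by_contra hno
      apply hcon
      refine ⟨A, C, hA, hAp, ?_⟩
      intro L hL x hx
      by_contra hlt
      exact hno ⟨L, hL, x, hx, not_le.1 hlt⟩)
  refine lgt (hQ.map _) hy (fun G hG => ?_) h3 h4 hL
  rw [h2 G hG]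
  exact ⟨hmem G hG, fun h => hy.mem G h⟩

end Pool.Agent.N131.FV
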